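import Pool.Agent.Run7.h287.WN.Main

/-!
# The algebraic area of pieces of self-avoiding walks

The closed curve formed by a piece of a self-avoiding lattice path and its chord has an algebraic
area of at most `(2 m + 1)` times the width times the height of the piece, if the piece is a
concatenation of `m` bridges.
-/

set_option autoImplicit false

namespace Run7.h822.WN

open Finset Run7.h287.WN

/-- twice the algebraic area of the closed polygonal line `q s, q (s+1), …, q t, q s` -/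
def area2 (q : ℕ → ℤ × ℤ) (s t : ℕ) : ℤ :=
  ∑ i ∈ Ico s t, (((q i).1 - (q s).1) * ((q (i + 1)).2 - (q s).2) -
    ((q i).2 - (q s).2) * ((q (i + 1)).1 - (q s).1))

/-- the sum of `(x_i + x_{i+1} - 2 x_s) (y_{i+1} - y_i)` -/
def lin2 (q : ℕ → ℤ × ℤ) (s t : ℕ) : ℤ :=
  ∑ i ∈ Ico s t, ((q i).1 + (q (i + 1)).1 - 2 * (q s).1) * ((q (i + 1)).2 - (q i).2)

lemma area2_eq (q : ℕ → ℤ × ℤ) {s t : ℕ} (hst : s ≤ t) :
    area2 q s t = lin2 q s t - ((q t).1 - (q s).1) * ((q t).2 - (q s).2) := by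
  unfold area2 lin2
  induction t, hst using Nat.le_induction with
  | base => simp
  | succ t ht ih =>
    rw [sum_Ico_succ_top ht, sum_Ico_succ_top ht, ih]
    ring

/-- the signed crossing of the strip between the rows `β - 1` and `β` -/
noncomputable def sc (u v : ℤ × ℤ) (β : ℤ) : ℤ :=
  I (u.2 = β ∧ v.2 = β - 1) - I (u.2 = β - 1 ∧ v.2 = β)

lemma cr_eq_sc (u v : ℤ × ℤ) (β k : ℤ) : cr u v β k = sc u v β * I (u.1 + v.1 ≤ k) := by
  unfold cr sc I
  by_cases h1 : u.1 + v.1 ≤ k <;> by_cases h2 : u.2 = β ∧ v.2 = β - 1 <;>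
    by_cases h3 : u.2 = β - 1 ∧ v.2 = β <;> simp [h1, h2, h3] <;> omega

/-- the height difference of a step is the sum of its signed crossings -/
lemma dy_eq {u v : ℤ × ℤ} {c d : ℤ} (hu : c ≤ u.2 ∧ u.2 ≤ d) (hv : c ≤ v.2 ∧ v.2 ≤ d)
    (h : v.2 = u.2 ∨ v.2 = u.2 + 1 ∨ v.2 = u.2 - 1) :
    v.2 - u.2 = - ∑ β ∈ Ioc c d, sc u v β := by
  rcases h with h | h | h
  · rw [sum_eq_zero]
    · omega
    · intro β _
      unfold sc I
      rw [if_neg (by omega), if_neg (by omega)]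
      rfl
  · rw [sum_eq_single v.2]
    · unfold sc I
      rw [if_neg (by omega), if_pos ⟨by omega, rfl⟩]
      omega
    · intro β _ hβ
      unfold sc I
      rw [if_neg (by omega), if_neg (by omega)]
      rfl
    · intro hcon
      exact absurd (mem_Ioc.2 ⟨by omega, hv.2⟩) hcon
  · rw [sum_eq_single u.2]
    · unfold sc I
      rw [if_pos ⟨rfl, by omega⟩, if_neg (by omega)]
      omega
    · intro β _ hβ
      unfold sc I
      rw [if_neg (by omega), if_neg (by omega)]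
      rfl
    · intro hcon
      exact absurd (mem_Ioc.2 ⟨by omega, hu.2⟩) hcon

/-- a number in `[A, B]` as a sum of indicators -/
lemma sum_ind {A B k : ℤ} (h1 : A ≤ k) (h2 : k ≤ B) :
    k = B - ∑ j ∈ Ico A B, I (k ≤ j) := by
  have h3 : ∑ j ∈ Ico A B, I (k ≤ j) = ∑ j ∈ Ico k B, (1 : ℤ) := by
    rw [← sum_subset (Ico_subset_Ico_left h1)]
    · refine sum_congr rfl fun j hj => ?_
      rw [mem_Ico] at hj
      exact I_pos hj.1
    · intro j hj hj2
      rw [mem_Ico] at hj hj2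
      exact I_neg (by omega)
  rw [h3, sum_const, Int.card_Ico, nsmul_eq_mul, mul_one]
  omega

/-- the contribution of a strip -/
lemma strip_eq (q : ℕ → ℤ × ℤ) {s t : ℕ} {a b β x0 : ℤ}
    (hx : ∀ i, s ≤ i → i ≤ t → a ≤ (q i).1 ∧ (q i).1 ≤ b) :
    ∑ i ∈ Ico s t, ((q i).1 + (q (i + 1)).1 - x0) * sc (q i) (q (i + 1)) β =
      (2 * b - x0) * N q s t β (2 * b) - ∑ k ∈ Ico (2 * a) (2 * b), N q s t β k := by
  unfold N
  rw [sum_comm, mul_sum, ← sum_sub_distrib]
  refine sum_congr rfl fun i hi => ?_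
  rw [mem_Ico] at hi
  have h1 := hx i hi.1 (by omega)
  have h2 := hx (i + 1) (by omega) (by omega)
  simp only [cr_eq_sc]
  rw [← mul_sum, I_pos (show (q i).1 + (q (i + 1)).1 ≤ 2 * b by omega)]
  have h3 := sum_ind (A := 2 * a) (B := 2 * b) (k := (q i).1 + (q (i + 1)).1) (by omega) (by omega)
  calc ((q i).1 + (q (i + 1)).1 - x0) * sc (q i) (q (i + 1)) β
      = ((2 * b - ∑ j ∈ Ico (2 * a) (2 * b), I ((q i).1 + (q (i + 1)).1 ≤ j)) - x0) *
        sc (q i) (q (i + 1)) β := by rw [← h3]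
    _ = _ := by ring

theorem lin2_le {q : ℕ → ℤ × ℤ} {m s t : ℕ} (H : Saw q s t) (h : Cut q m s t) {a b c d : ℤ}
    (hx : ∀ i, s ≤ i → i ≤ t → a ≤ (q i).1 ∧ (q i).1 ≤ b)
    (hy : ∀ i, s ≤ i → i ≤ t → c ≤ (q i).2 ∧ (q i).2 ≤ d) :
    |lin2 q s t| ≤ 4 * m * (b - a) * (d - c) := by
  have hst := h.le
  have hxs := hx s le_rfl hst
  have hys := hy s le_rfl hst
  have e : lin2 q s t = - ∑ β ∈ Ioc c d, ∑ i ∈ Ico s t,
      ((q i).1 + (q (i + 1)).1 - 2 * (q s).1) * sc (q i) (q (i + 1)) β := by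
    unfold lin2
    rw [sum_comm, ← sum_neg_distrib]
    refine sum_congr rfl fun i hi => ?_
    rw [mem_Ico] at hi
    rw [dy_eq (hy i hi.1 (by omega)) (hy (i + 1) (by omega) (by omega)), mul_neg, mul_sum]
    obtain ⟨dd, hd⟩ := H.step i hi.1 hi.2
    rw [hd]
    fin_cases dd <;> simp [dir] <;> omega
  rw [e, abs_neg]
  have hstrip : ∀ β ∈ Ioc c d, |∑ i ∈ Ico s t,
      ((q i).1 + (q (i + 1)).1 - 2 * (q s).1) * sc (q i) (q (i + 1)) β| ≤ 4 * m * (b - a) := by
    intro β _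
    rw [strip_eq q hx]
    have h1 := N_cut H h β (2 * b)
    have h2 : |∑ k ∈ Ico (2 * a) (2 * b), N q s t β k| ≤ 2 * (b - a) * m := by
      calc |∑ k ∈ Ico (2 * a) (2 * b), N q s t β k| ≤ ∑ k ∈ Ico (2 * a) (2 * b), |N q s t β k| :=
            abs_sum_le_sum_abs _ _
        _ ≤ ∑ k ∈ Ico (2 * a) (2 * b), (m : ℤ) := sum_le_sum fun k _ => N_cut H h β k
        _ = 2 * (b - a) * m := by
            rw [sum_const, Int.card_Ico, nsmul_eq_mul]
            have : ((2 * b - 2 * a).toNat : ℤ) = 2 * b - 2 * a := Int.toNat_of_nonneg (by omega)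
            rw [this]
            ring
    have h3 : |(2 * b - 2 * (q s).1) * N q s t β (2 * b)| ≤ 2 * (b - a) * m := by
      rw [abs_mul, abs_of_nonneg (by omega)]
      have h4 : 0 ≤ 2 * b - 2 * (q s).1 := by omega
      have h5 : 2 * b - 2 * (q s).1 ≤ 2 * (b - a) := by omega
      have h6 : 0 ≤ |N q s t β (2 * b)| := abs_nonneg _
      have h7 : (0 : ℤ) ≤ m := by positivity
      nlinarith
    calc _ ≤ |(2 * b - 2 * (q s).1) * N q s t β (2 * b)| +
          |∑ k ∈ Ico (2 * a) (2 * b), N q s t β k| := abs_sub _ _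
      _ ≤ _ := by linarith
  calc _ ≤ ∑ β ∈ Ioc c d, |∑ i ∈ Ico s t,
      ((q i).1 + (q (i + 1)).1 - 2 * (q s).1) * sc (q i) (q (i + 1)) β| := abs_sum_le_sum_abs _ _
    _ ≤ ∑ β ∈ Ioc c d, 4 * m * (b - a) := sum_le_sum hstrip
    _ = 4 * m * (b - a) * (d - c) := by
        rw [sum_const, Int.card_Ioc, nsmul_eq_mul]
        have : ((d - c).toNat : ℤ) = d - c := Int.toNat_of_nonneg (by omega)
        rw [this]
        ring

theorem area2_le {q : ℕ → ℤ × ℤ} {m s t : ℕ} (H : Saw q s t) (h : Cut q m s t) {a b c d : ℤ}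
    (hx : ∀ i, s ≤ i → i ≤ t → a ≤ (q i).1 ∧ (q i).1 ≤ b)
    (hy : ∀ i, s ≤ i → i ≤ t → c ≤ (q i).2 ∧ (q i).2 ≤ d) :
    |area2 q s t| ≤ (4 * m + 1) * (b - a) * (d - c) := by
  have hst := h.le
  rw [area2_eq q hst]
  have h1 := lin2_le H h hx hy
  have hxs := hx s le_rfl hst
  have hys := hy s le_rfl hst
  have hxt := hx t hst le_rfl
  have hyt := hy t hst le_rfl
  have h2 : |((q t).1 - (q s).1) * ((q t).2 - (q s).2)| ≤ (b - a) * (d - c) := by
    rw [abs_mul]
    refine mul_le_mul ?_ ?_ (abs_nonneg _) (by omega)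
    · rw [abs_le]; constructor <;> omega
    · rw [abs_le]; constructor <;> omega
  calc _ ≤ |lin2 q s t| + |((q t).1 - (q s).1) * ((q t).2 - (q s).2)| := abs_sub _ _
    _ ≤ 4 * m * (b - a) * (d - c) + (b - a) * (d - c) := add_le_add h1 h2
    _ = _ := by ring

end Run7.h822.WN
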