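import Pool.Agent.Run7.h822.WN.TailV
import Pool.Agent.H982R4.Cor

/-!
# The algebraic area of pieces of uniform self-avoiding walks
-/

set_option autoImplicit false

namespace Run7.h822.WN

open Finset Run7.h529.FB Run7.h287.WN

/-- the algebraic area of the closed polygonal line `ω(s), …, ω(t), ω(s)` -/
noncomputable def area {G : Lattice} {n : ℕ} (ω : Walk G n) (s t : ℕ) : ℝ :=
  (area2 (vertex ω) s t : ℝ) / 2

/-- the piece between the times `s` and `t` stays in the box `[a, b] × [c, d]` -/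
def InBox {G : Lattice} {n : ℕ} (ω : Walk G n) (s t : ℕ) (a b c d : ℤ) : Prop :=
  ∀ i, s ≤ i → i ≤ t → (a ≤ (vertex ω i).1 ∧ (vertex ω i).1 ≤ b) ∧
    (c ≤ (vertex ω i).2 ∧ (vertex ω i).2 ≤ d)

theorem area_le {G : Lattice} {n : ℕ} (ω : Walk G n) {s t : ℕ} (hst : s ≤ t) (ht : t ≤ n)
    {a b c d : ℤ} (h : InBox ω s t a b c d) :
    |area ω s t| ≤ (2 * VV ω + 1 / 2) * ((b - a) * (d - c)) := by
  have h1 := area2_le ((saw ω).mono (Nat.zero_le _) ht) (cut ω hst ht)
    (fun i hi hit => (h i hi hit).1) (fun i hi hit => (h i hi hit).2)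
  have h2 : |(area2 (vertex ω) s t : ℝ)| ≤ (4 * VV ω + 1) * (b - a) * (d - c) := by
    exact_mod_cast h1
  unfold area
  rw [abs_div, abs_of_pos (show (0 : ℝ) < 2 by norm_num), div_le_iff₀ (by norm_num)]
  linarith

lemma InBox.nonneg {G : Lattice} {n : ℕ} {ω : Walk G n} {s t : ℕ} (hst : s ≤ t)
    {a b c d : ℤ} (h : InBox ω s t a b c d) : (0 : ℝ) ≤ ((b - a) * (d - c) : ℝ) := by
  obtain ⟨⟨h1, h2⟩, h3, h4⟩ := h s le_rfl hst
  have e1 : (a : ℝ) ≤ b := by exact_mod_cast h1.trans h2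
  have e2 : (c : ℝ) ≤ d := by exact_mod_cast h3.trans h4
  have e3 : (0 : ℝ) ≤ b - a := by linarith
  have e4 : (0 : ℝ) ≤ d - c := by linarith
  positivity

/-- All areas are at most `y` times the areas of the boxes. -/
def Thin {G : Lattice} {n : ℕ} (ω : Walk G n) (y : ℝ) : Prop :=
  ∀ s t : ℕ, s ≤ t → t ≤ n → ∀ a b c d : ℤ, InBox ω s t a b c d →
    |area ω s t| ≤ y * ((b - a) * (d - c))

theorem thin_main : ∃ K : ℝ, 0 < K ∧ ∀ G : Lattice, ∀ n : ℕ, 2 ≤ n → ∀ x : ℝ, 0 ≤ x →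
    1 - Real.exp (-x) ≤ prob G n (fun ω => Thin ω (K * (Real.log n ^ 2 + x))) := by
  obtain ⟨K, hK, H⟩ := tailV
  have hl2 : 0 < Real.log 2 := Real.log_pos (by norm_num)
  refine ⟨2 * K + 1 / Real.log 2 ^ 2, by positivity, fun G n hn x hx => ?_⟩
  have h1 := H G n hn x hx
  have hL : Real.log 2 ≤ Real.log n := Real.log_le_log (by norm_num) (by exact_mod_cast hn)
  have hone : 1 / 2 ≤ 1 / Real.log 2 ^ 2 * (Real.log n ^ 2 + x) := by
    rw [div_mul_eq_mul_div, one_mul, div_le_div_iff₀ (by norm_num) (by positivity)]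
    have := pow_le_pow_left₀ hl2.le hL 2
    nlinarith
  rw [prob_compl]
  refine sub_le_sub_left (le_trans ?_ h1) 1
  unfold prob
  apply mean_mono
  intro ω
  by_cases h2 : K * (Real.log n ^ 2 + x) < VV ω
  · rw [if_pos h2]
    split_ifs <;> norm_num
  · rw [if_neg h2, if_neg]
    push Not
    intro s t hst ht a b c d hb
    refine (area_le ω hst ht hb).trans ?_
    refine mul_le_mul_of_nonneg_right ?_ (hb.nonneg hst)
    push Not at h2
    linarith

/-! ### the mean -/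

lemma adj_iff {p q : ℤ × ℤ} : Adj .square p q ↔ Pool.Agent.H977R2.Adj p q := by
  show |p.1 - q.1| + |p.2 - q.2| = 1 ↔ _
  unfold Pool.Agent.H977R2.Adj
  rcases abs_cases (p.1 - q.1) with ⟨h1, h2⟩ | ⟨h1, h2⟩ <;>
    rcases abs_cases (p.2 - q.2) with ⟨h3, h4⟩ | ⟨h3, h4⟩ <;> omega

lemma vertex_const {G : Lattice} {n : ℕ} (ω : Walk G n) {i : ℕ} (hi : n ≤ i) :
    vertex ω i = vertex ω n := by
  unfold vertex
  have e : (⟨min i n, by omega⟩ : Fin (n + 1)) = ⟨min n n, by omega⟩ := Fin.ext (by simp [hi])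
  rw [e]

lemma vertex_zero {G : Lattice} {n : ℕ} (ω : Walk G n) : vertex ω 0 = 0 := by
  rw [vertex_of_le ω (Nat.zero_le _)]
  exact ω.2.1

lemma vertex_mem {n : ℕ} (ω : Walk .square n) : vertex ω ∈ Pool.Agent.H977R2.SawSet n := by
  rw [Pool.Agent.H977R2.mem_SawSet]
  exact ⟨vertex_zero ω, fun i hi => adj_iff.1 (vertex_adj ω hi),
    fun i k hi hk h => vertex_inj ω hi hk h, fun i hi => vertex_const ω hi⟩

lemma sum_vertex {n : ℕ} (F : (ℕ → ℤ × ℤ) → ℤ) :
    ∑ ω : Walk .square n, F (vertex ω) = ∑ w ∈ Pool.Agent.H977R2.SawSet n, F w := by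
  refine sum_bij (fun ω _ => vertex ω) (fun ω _ => vertex_mem ω) ?_ ?_ (fun _ _ => rfl)
  · intro ω _ ω' _ h
    apply Subtype.ext
    funext i
    have := congrFun h i
    rw [vertex_of_le ω (by omega), vertex_of_le ω' (by omega)] at this
    exact this
  · intro w hw
    rw [Pool.Agent.H977R2.mem_SawSet] at hw
    refine ⟨⟨fun i => w i, hw.zero, ?_, ?_⟩, mem_univ _, ?_⟩
    · intro i j hij
      exact Fin.ext (hw.inj i j (by omega) (by omega) hij)
    · intro i
      have := adj_iff.2 (hw.adj i i.2)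
      simpa using this
    · funext i
      rcases Nat.lt_or_ge n i with hi | hi
      · rw [vertex_const _ hi.le, vertex_of_le _ le_rfl, hw.const i hi.le]
      · rw [vertex_of_le _ hi]

/-- the square of the largest distance from the origin -/
noncomputable def MaxSq {n : ℕ} (ω : Walk .square n) : ℤ :=
  Pool.Agent.H977R2.maxSq n (vertex ω)

/-- the squared end-to-end distance -/
def ReSq {n : ℕ} (ω : Walk .square n) : ℤ := (vertex ω n).1 ^ 2 + (vertex ω n).2 ^ 2

theorem mean_max {n : ℕ} (hn : 1 ≤ n) :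
    mean .square n (fun ω => (MaxSq ω : ℝ)) ≤
      5274752 * mean .square n (fun ω => (ReSq ω : ℝ)) := by
  have h1 := Pool.Agent.H982R4.sum_max n hn
  unfold Pool.Agent.H977R2.endSum at h1
  rw [← sum_vertex, ← sum_vertex] at h1
  unfold mean
  rw [← mul_div_assoc]
  refine div_le_div_of_nonneg_right ?_ (card_pos _ n).le
  have h2 : ∑ ω : Walk .square n, MaxSq ω ≤ 5274752 * ∑ ω : Walk .square n, ReSq ω := h1
  have h3 : ((∑ ω : Walk .square n, MaxSq ω : ℤ) : ℝ) ≤
      ((5274752 * ∑ ω : Walk .square n, ReSq ω : ℤ) : ℝ) := by exact_mod_cast h2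
  push_cast at h3
  exact h3

lemma le_MaxSq {n : ℕ} (ω : Walk .square n) {i : ℕ} (hi : i ≤ n) :
    (vertex ω i).1 ^ 2 + (vertex ω i).2 ^ 2 ≤ MaxSq ω := by
  unfold MaxSq Pool.Agent.H977R2.maxSq
  exact le_sup' (fun i => (vertex ω i).1 ^ 2 + (vertex ω i).2 ^ 2) (mem_range.2 (by omega))

lemma MaxSq_le {n : ℕ} (ω : Walk .square n) : MaxSq ω ≤ 2 * (n : ℤ) ^ 2 := by
  unfold MaxSq Pool.Agent.H977R2.maxSq
  refine sup'_le _ _ fun i hi => ?_
  rw [mem_range] at hi
  have h := (Pool.Agent.H977R2.mem_SawSet.1 (vertex_mem ω)).bound i (by omega)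
  have h1 : |(vertex ω i).1| ≤ n := h.1.trans (by omega)
  have h2 : |(vertex ω i).2| ≤ n := h.2.trans (by omega)
  have h3 := sq_le_sq' (neg_le_of_abs_le h1) (le_of_abs_le h1)
  have h4 := sq_le_sq' (neg_le_of_abs_le h2) (le_of_abs_le h2)
  linarith

lemma one_le_MaxSq {n : ℕ} (hn : 1 ≤ n) (ω : Walk .square n) : 1 ≤ MaxSq ω := by
  refine le_trans ?_ (le_MaxSq ω (show 1 ≤ n from hn))
  by_contra hcon
  push Not at hcon
  have h1 : (vertex ω 1).1 = 0 := by nlinarith [sq_nonneg (vertex ω 1).1, sq_nonneg (vertex ω 1).2]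
  have h2 : (vertex ω 1).2 = 0 := by nlinarith [sq_nonneg (vertex ω 1).1, sq_nonneg (vertex ω 1).2]
  have h3 : vertex ω 1 = vertex ω 0 := by rw [vertex_zero]; exact Prod.ext h1 h2
  have := vertex_inj ω hn (Nat.zero_le _) h3
  omega

theorem area_MaxSq {n : ℕ} (ω : Walk .square n) :
    |area ω 0 n| ≤ (8 * VV ω + 2) * MaxSq ω := by
  -- the largest coordinates
  set A : ℕ := (range (n + 1)).sup (fun i => ((vertex ω i).1).natAbs) with hA
  set B : ℕ := (range (n + 1)).sup (fun i => ((vertex ω i).2).natAbs) with hB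
  have hbox : InBox ω 0 n (-A) A (-B) B := by
    intro i _ hi
    have h1 : ((vertex ω i).1).natAbs ≤ A :=
      le_sup (f := fun i => ((vertex ω i).1).natAbs) (mem_range.2 (by omega))
    have h2 : ((vertex ω i).2).natAbs ≤ B :=
      le_sup (f := fun i => ((vertex ω i).2).natAbs) (mem_range.2 (by omega))
    omega
  have h1 := area_le ω (Nat.zero_le n) le_rfl hbox
  have hA2 : (A : ℤ) ^ 2 ≤ MaxSq ω := by
    obtain ⟨i, hi, hi2⟩ := exists_mem_eq_sup (range (n + 1)) ⟨0, by simp⟩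
      (fun i => ((vertex ω i).1).natAbs)
    rw [mem_range] at hi
    have h2 := le_MaxSq ω (show i ≤ n by omega)
    rw [hA, hi2, Int.natCast_natAbs, sq_abs]
    nlinarith [sq_nonneg (vertex ω i).2]
  have hB2 : (B : ℤ) ^ 2 ≤ MaxSq ω := by
    obtain ⟨i, hi, hi2⟩ := exists_mem_eq_sup (range (n + 1)) ⟨0, by simp⟩
      (fun i => ((vertex ω i).2).natAbs)
    rw [mem_range] at hi
    have h2 := le_MaxSq ω (show i ≤ n by omega)
    rw [hB, hi2, Int.natCast_natAbs, sq_abs]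
    nlinarith [sq_nonneg (vertex ω i).1]
  have hAB : (A : ℝ) * B ≤ MaxSq ω := by
    have h3 : (A : ℝ) ^ 2 ≤ MaxSq ω := by exact_mod_cast hA2
    have h4 : (B : ℝ) ^ 2 ≤ MaxSq ω := by exact_mod_cast hB2
    nlinarith [sq_nonneg ((A : ℝ) - B)]
  refine h1.trans ?_
  push_cast
  have h5 : (0 : ℝ) ≤ 2 * VV ω + 1 / 2 := by positivity
  calc (2 * (VV ω : ℝ) + 1 / 2) * (((A : ℝ) - -A) * ((B : ℝ) - -B)) =
        (8 * VV ω + 2) * ((A : ℝ) * B) := by ring
    _ ≤ _ := mul_le_mul_of_nonneg_left hAB (by positivity)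

theorem mean_area : ∃ K : ℝ, 0 < K ∧ ∀ n : ℕ, 2 ≤ n →
    mean .square n (fun ω => |area ω 0 n|) ≤
      K * Real.log n ^ 2 * mean .square n (fun ω => (ReSq ω : ℝ)) := by
  obtain ⟨K, hK, H⟩ := mean_V
  have hl2 : 0 < Real.log 2 := Real.log_pos (by norm_num)
  have he1 : 1 ≤ Real.exp 2 := Real.one_le_exp (by norm_num)
  set K1 : ℝ := K * Real.exp 2 ^ 2 with hK1
  have hK1p : 0 < K1 := by positivity
  refine ⟨(8 * (K1 + 3 / Real.log 2) + 18 / Real.log 2 ^ 2) * 5274752, by positivity,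
    fun n hn => ?_⟩
  have hL : Real.log 2 ≤ Real.log n := Real.log_le_log (by norm_num) (by exact_mod_cast hn)
  set L : ℝ := Real.log n with hLdef
  have hL0 : 0 < L := by linarith
  set y : ℝ := K1 * L ^ 2 + 3 * L with hy
  have hn0 : (0 : ℝ) < n := by
    have : (2 : ℝ) ≤ n := by exact_mod_cast hn
    linarith
  have hM1 : ∀ ω : Walk .square n, (1 : ℝ) ≤ MaxSq ω := fun ω => by
    exact_mod_cast one_le_MaxSq (by omega) ω
  have hM2 : ∀ ω : Walk .square n, (MaxSq ω : ℝ) ≤ 2 * (n : ℝ) ^ 2 := fun ω => by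
    exact_mod_cast MaxSq_le ω
  have hpt : ∀ ω : Walk .square n, |area ω 0 n| ≤ (8 * y + 2) * MaxSq ω +
      16 * (n : ℝ) ^ 2 * Real.exp (-y) * Real.exp 2 ^ V (fun i => (ω.1 i).1) := by
    intro ω
    refine (area_MaxSq ω).trans ?_
    have h1 := hM1 ω
    have h2 := hM2 ω
    rcases le_or_gt (VV ω : ℝ) y with h3 | h3
    · have h4 : 0 ≤ 16 * (n : ℝ) ^ 2 * Real.exp (-y) * Real.exp 2 ^ V (fun i => (ω.1 i).1) := by
        positivity
      nlinarith
    · have h4 : (VV ω : ℝ) ≤ Real.exp (-y) * Real.exp 2 ^ V (fun i => (ω.1 i).1) := by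
        have h5 : (VV ω : ℝ) ≤ Real.exp (VV ω) := by
          have := Real.add_one_le_exp (VV ω : ℝ)
          linarith
        refine h5.trans ?_
        rw [← Real.exp_nat_mul, ← Real.exp_add]
        apply Real.exp_le_exp.mpr
        unfold VV at h3 ⊢
        linarith
      have h6 : 0 ≤ Real.exp (-y) * Real.exp 2 ^ V (fun i => (ω.1 i).1) := by positivity
      have hy0 : 0 ≤ y := by positivity
      calc (8 * (VV ω : ℝ) + 2) * MaxSq ω = 8 * (VV ω * MaxSq ω) + 2 * MaxSq ω := by ring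
        _ ≤ 8 * (Real.exp (-y) * Real.exp 2 ^ V (fun i => (ω.1 i).1) * (2 * (n : ℝ) ^ 2)) +
            (8 * y + 2) * MaxSq ω := by
            refine add_le_add (mul_le_mul_of_nonneg_left
              (mul_le_mul h4 h2 (by linarith) h6) (by norm_num)) ?_
            nlinarith
        _ = _ := by ring
  have h1 : mean .square n (fun ω => |area ω 0 n|) ≤
      (8 * y + 2) * mean .square n (fun ω => (MaxSq ω : ℝ)) +
        16 * (n : ℝ) ^ 2 * Real.exp (-y) *
          mean .square n (fun ω => Real.exp 2 ^ V (fun i => (ω.1 i).1)) := by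
    refine (mean_mono hpt).trans (le_of_eq ?_)
    rw [← mean_const_mul, ← mean_const_mul]
    unfold mean
    rw [← add_div, ← sum_add_distrib]
  have h2 := H .square n hn _ (coord_mem .square) (Real.exp 2) he1
  have h3 : 16 * (n : ℝ) ^ 2 * Real.exp (-y) *
      mean .square n (fun ω => Real.exp 2 ^ V (fun i => (ω.1 i).1)) ≤ 16 := by
    have e1 : (n : ℝ) ^ 2 * (Real.exp (-y) * Real.exp (K * Real.exp 2 ^ 2 * L ^ 2)) ≤ 1 := by
      rw [← Real.exp_add, hy, hK1]
      have e2 : (n : ℝ) ^ 2 = Real.exp (2 * L) := by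
        rw [hLdef, two_mul, Real.exp_add, Real.exp_log hn0]
        ring
      rw [e2, ← Real.exp_add]
      apply Real.exp_le_one_iff.mpr
      linarith
    calc 16 * (n : ℝ) ^ 2 * Real.exp (-y) *
          mean .square n (fun ω => Real.exp 2 ^ V (fun i => (ω.1 i).1)) ≤
          16 * (n : ℝ) ^ 2 * Real.exp (-y) * Real.exp (K * Real.exp 2 ^ 2 * L ^ 2) := by
          gcongr
      _ = 16 * ((n : ℝ) ^ 2 * (Real.exp (-y) * Real.exp (K * Real.exp 2 ^ 2 * L ^ 2))) := by ring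
      _ ≤ 16 := by linarith
  have h4 : 1 ≤ mean .square n (fun ω => (MaxSq ω : ℝ)) := by
    have h5 : mean .square n (fun _ => (1 : ℝ)) ≤ mean .square n (fun ω => (MaxSq ω : ℝ)) :=
      mean_mono hM1
    have h6 : mean .square n (fun _ => (1 : ℝ)) = 1 := mean_one
    linarith
  have h7 : 8 * y + 18 ≤ (8 * (K1 + 3 / Real.log 2) + 18 / Real.log 2 ^ 2) * L ^ 2 := by
    have e1 : L ≤ L ^ 2 / Real.log 2 := by
      rw [le_div_iff₀ hl2]
      nlinarith
    have e2 : 1 ≤ L ^ 2 / Real.log 2 ^ 2 := by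
      rw [one_le_div (by positivity)]
      exact pow_le_pow_left₀ hl2.le hL 2
    have e3 : (8 * (K1 + 3 / Real.log 2) + 18 / Real.log 2 ^ 2) * L ^ 2 =
        8 * K1 * L ^ 2 + 24 * (L ^ 2 / Real.log 2) + 18 * (L ^ 2 / Real.log 2 ^ 2) := by
      field_simp
      ring
    rw [e3, hy]
    linarith
  have h8 := mean_max (n := n) (by omega)
  have h9 : 0 ≤ (8 * (K1 + 3 / Real.log 2) + 18 / Real.log 2 ^ 2) * L ^ 2 := by positivity
  calc mean .square n (fun ω => |area ω 0 n|) ≤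
        (8 * y + 2) * mean .square n (fun ω => (MaxSq ω : ℝ)) + 16 := by linarith
    _ ≤ (8 * y + 18) * mean .square n (fun ω => (MaxSq ω : ℝ)) := by nlinarith
    _ ≤ ((8 * (K1 + 3 / Real.log 2) + 18 / Real.log 2 ^ 2) * L ^ 2) *
        mean .square n (fun ω => (MaxSq ω : ℝ)) := by
        exact mul_le_mul_of_nonneg_right h7 (by linarith)
    _ ≤ ((8 * (K1 + 3 / Real.log 2) + 18 / Real.log 2 ^ 2) * L ^ 2) *
        (5274752 * mean .square n (fun ω => (ReSq ω : ℝ))) := mul_le_mul_of_nonneg_left h8 h9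
    _ = _ := by ring

end Run7.h822.WN
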