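import Pool.Agent.Run7.h822.WN.HalfW
import Pool.Agent.Run7.h822.WN.Levy
import Pool.Agent.Y943.SL.Uneq

/-!
# The law of the first steps of a long self-avoiding walk
-/

set_option autoImplicit false

namespace Run7.h822.WN

open Finset Run7.h529.FB Run7.h287.WN

/-- the symmetry of the lattice which takes `v` to the origin -/
def sh : Lattice → ℤ × ℤ → ℤ × ℤ → ℤ × ℤ
  | .honeycomb => fun v p => if Even (v.1 + v.2) then p - v else (p.1 - v.1, v.2 - p.2)
  | _ => fun v p => p - v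

lemma sh_self (G : Lattice) (v : ℤ × ℤ) : sh G v v = 0 := by
  cases G with
  | square => exact sub_self v
  | triangular => exact sub_self v
  | honeycomb =>
    simp only [sh]
    split_ifs
    · exact sub_self v
    · exact Prod.ext (sub_self _) (sub_self _)

lemma sh_inj (G : Lattice) (v : ℤ × ℤ) : Function.Injective (sh G v) := by
  intro p q h
  cases G with
  | square => exact sub_left_injective h
  | triangular => exact sub_left_injective h
  | honeycomb =>
    simp only [sh] at h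
    split_ifs at h
    · exact sub_left_injective h
    · rw [Prod.mk.injEq] at h
      exact Prod.ext (by omega) (by omega)

lemma sh_adj (G : Lattice) (v : ℤ × ℤ) {p q : ℤ × ℤ} (h : Adj G p q) :
    Adj G (sh G v p) (sh G v q) := by
  cases G with
  | square =>
    show |(p - v).1 - (q - v).1| + |(p - v).2 - (q - v).2| = 1
    have h' : |p.1 - q.1| + |p.2 - q.2| = 1 := h
    rw [Prod.fst_sub, Prod.fst_sub, Prod.snd_sub, Prod.snd_sub, sub_sub_sub_cancel_right,
      sub_sub_sub_cancel_right]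
    exact h'
  | triangular =>
    show (q - v) - (p - v) ∈ _
    rw [sub_sub_sub_cancel_right]
    exact h
  | honeycomb =>
    obtain ⟨a, b⟩ := p
    obtain ⟨c, d⟩ := q
    obtain ⟨x, y⟩ := v
    have h' : (c, d) - (a, b) = ((1, 0) : ℤ × ℤ) ∨ (c, d) - (a, b) = ((-1, 0) : ℤ × ℤ) ∨
      ((c, d) - (a, b) = ((0, 1) : ℤ × ℤ) ∧ Even (a + b)) ∨
      ((c, d) - (a, b) = ((0, -1) : ℤ × ℤ) ∧ Even (c + d)) := h
    simp only [Prod.mk_sub_mk, Prod.mk.injEq] at h'
    simp only [sh]
    by_cases hv : Even (x + y)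
    · rw [if_pos hv, if_pos hv]
      show (c - x, d - y) - (a - x, b - y) = ((1, 0) : ℤ × ℤ) ∨
        (c - x, d - y) - (a - x, b - y) = ((-1, 0) : ℤ × ℤ) ∨
        ((c - x, d - y) - (a - x, b - y) = ((0, 1) : ℤ × ℤ) ∧ Even (a - x + (b - y))) ∨
        ((c - x, d - y) - (a - x, b - y) = ((0, -1) : ℤ × ℤ) ∧ Even (c - x + (d - y)))
      simp only [Prod.mk_sub_mk, Prod.mk.injEq]
      simp only [Int.even_iff] at *
      omega
    · rw [if_neg hv, if_neg hv]
      show (c - x, y - d) - (a - x, y - b) = ((1, 0) : ℤ × ℤ) ∨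
        (c - x, y - d) - (a - x, y - b) = ((-1, 0) : ℤ × ℤ) ∨
        ((c - x, y - d) - (a - x, y - b) = ((0, 1) : ℤ × ℤ) ∧ Even (a - x + (y - b))) ∨
        ((c - x, y - d) - (a - x, y - b) = ((0, -1) : ℤ × ℤ) ∧ Even (c - x + (y - d)))
      simp only [Prod.mk_sub_mk, Prod.mk.injEq]
      simp only [Int.even_iff] at *
      omega

variable {G : Lattice} {n : ℕ}

/-- the first `m` steps of the walk -/
def first (m : ℕ) (h : m ≤ n) (ω : Walk G n) : Walk G m :=
  ⟨fun i => ω.1 ⟨i, by omega⟩, ω.2.1, fun i j hij => by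
    have := ω.2.2.1 hij
    exact Fin.ext (by simpa using congrArg Fin.val this), fun i => ω.2.2.2 ⟨i, by omega⟩⟩

/-- the rest of the walk, moved to the origin -/
def rest (m : ℕ) (h : m ≤ n) (ω : Walk G n) : Walk G (n - m) :=
  ⟨fun i => sh G (ω.1 ⟨m, by omega⟩) (ω.1 ⟨m + i, by omega⟩), sh_self _ _, fun i j hij => by
    have h1 := ω.2.2.1 (sh_inj _ _ hij)
    have h2 := congrArg Fin.val h1
    simp only at h2
    exact Fin.ext (by omega), fun i => sh_adj _ _ (ω.2.2.2 ⟨m + i, by omega⟩)⟩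

lemma split_inj (m : ℕ) (h : m ≤ n) :
    Function.Injective (fun ω : Walk G n => (first m h ω, rest m h ω)) := by
  intro ω ω' he
  rw [Prod.mk.injEq] at he
  obtain ⟨h1, h2⟩ := he
  have e1 : ∀ i : Fin (m + 1), ω.1 ⟨i, by omega⟩ = ω'.1 ⟨i, by omega⟩ := fun i =>
    congrFun (congrArg Subtype.val h1) i
  have e2 : ∀ i : Fin (n - m + 1), sh G (ω.1 ⟨m, by omega⟩) (ω.1 ⟨m + i, by omega⟩) =
      sh G (ω'.1 ⟨m, by omega⟩) (ω'.1 ⟨m + i, by omega⟩) := fun i =>
    congrFun (congrArg Subtype.val h2) i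
  have e0 := e1 ⟨m, by omega⟩
  simp only at e0
  apply Subtype.ext
  funext i
  rcases Nat.lt_or_ge m i with hi | hi
  · have e3 := e2 ⟨i - m, by omega⟩
    simp only at e3
    rw [e0] at e3
    have e4 := sh_inj _ _ e3
    have e5 : (⟨m + (i - m), by omega⟩ : Fin (n + 1)) = i := Fin.ext (by simp; omega)
    rw [e5] at e4
    exact e4
  · exact e1 ⟨i, by omega⟩

theorem sum_first (m : ℕ) (h : m ≤ n) (F : Walk G m → ℝ) (hF : ∀ ω, 0 ≤ F ω) :
    ∑ ω : Walk G n, F (first m h ω) ≤ Fintype.card (Walk G (n - m)) * ∑ ω, F ω := by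
  classical
  have h1 : ∑ ω : Walk G n, F (first m h ω) =
      ∑ q ∈ univ.image (fun ω : Walk G n => (first m h ω, rest m h ω)), F q.1 := by
    rw [sum_image (fun a _ b _ hab => split_inj m h hab)]
  have h2 : ∑ q : Walk G m × Walk G (n - m), F q.1 =
      Fintype.card (Walk G (n - m)) * ∑ ω, F ω := by
    rw [Fintype.sum_prod_type, mul_sum]
    refine sum_congr rfl fun ω _ => ?_
    show ∑ _y : Walk G (n - m), F ω = _
    rw [sum_const, nsmul_eq_mul, card_univ]
  rw [h1, ← h2]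
  exact sum_le_sum_of_subset_of_nonneg (subset_univ _) (fun q _ _ => hF _)

open Pool.Agent.Y943.SL in
theorem splitting (G : Lattice) : ∃ B : ℝ, 0 ≤ B ∧ ∀ n m : ℕ, 1 ≤ n → 1 ≤ m →
    (Fintype.card (Walk G n) : ℝ) * Fintype.card (Walk G m) ≤
      Real.exp (B * Real.log ((m : ℝ) + 1) ^ 2) * Fintype.card (Walk G (n + m)) := by
  set a : ℕ → ℕ := fun n => Set.ncard {f : Fin (n + 1) → ℤ × ℤ | f 0 = 0 ∧ Function.Injective f ∧
            ∀ i : Fin n, Adj G (f i.castSucc) (f i.succ)} with ha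
  have hc : ∀ n, (Fintype.card (Walk G n) : ℝ) = a n := fun n => card_walks G n
  have key : (∃ B : ℝ, ∀ n m : ℕ, 1 ≤ n → 1 ≤ m →
      Real.exp (-(B * Real.log (((min n m : ℕ) : ℝ) + 1) ^ 2)) ≤
        (a (n + m) : ℝ) / ((a n : ℝ) * a m)) := by
    cases G with
    | square =>
      obtain ⟨K, c, C, h⟩ := hy_sq a (fun n => rfl) _ rfl
      exact (uneq (wk_sq a (fun n => rfl) _ rfl).1 h).1
    | triangular =>
      obtain ⟨K, c, C, h⟩ := hy_tri a (fun n => rfl) _ rfl
      exact (uneq (wk_tri a (fun n => rfl) _ rfl).1 h).1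
    | honeycomb =>
      obtain ⟨K, c, C, h⟩ := hy_hex a (fun n => rfl) _ rfl
      exact (uneq (wk_hex a (fun n => rfl) _ rfl).1 h).1
  obtain ⟨B, hB⟩ := key
  refine ⟨max B 0, le_max_right _ _, fun n m hn hm => ?_⟩
  have h1 := hB n m hn hm
  have hp : 0 < (a n : ℝ) * a m := by
    have h1 := card_pos G n
    have h2 := card_pos G m
    rw [hc] at h1 h2
    positivity
  rw [le_div_iff₀ hp] at h1
  rw [hc, hc, hc]
  have h2 : B * Real.log (((min n m : ℕ) : ℝ) + 1) ^ 2 ≤ max B 0 * Real.log ((m : ℝ) + 1) ^ 2 := by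
    have e1 : (((min n m : ℕ) : ℝ) + 1) ≤ (m : ℝ) + 1 := by
      have : ((min n m : ℕ) : ℝ) ≤ m := by exact_mod_cast min_le_right n m
      linarith
    have e0 : (1 : ℝ) ≤ ((min n m : ℕ) : ℝ) + 1 := by
      have : (0 : ℝ) ≤ ((min n m : ℕ) : ℝ) := Nat.cast_nonneg _
      linarith
    have e2 : Real.log (((min n m : ℕ) : ℝ) + 1) ≤ Real.log ((m : ℝ) + 1) :=
      Real.log_le_log (by linarith) e1
    have e3 := Real.log_nonneg e0
    calc B * Real.log (((min n m : ℕ) : ℝ) + 1) ^ 2 ≤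
        max B 0 * Real.log (((min n m : ℕ) : ℝ) + 1) ^ 2 :=
          mul_le_mul_of_nonneg_right (le_max_left _ _) (sq_nonneg _)
      _ ≤ _ := mul_le_mul_of_nonneg_left (pow_le_pow_left₀ e3 e2 2) (le_max_right _ _)
  calc (a n : ℝ) * a m = Real.exp (max B 0 * Real.log ((m : ℝ) + 1) ^ 2) *
        (Real.exp (-(max B 0 * Real.log ((m : ℝ) + 1) ^ 2)) * ((a n : ℝ) * a m)) := by
        rw [← mul_assoc, ← Real.exp_add, add_neg_cancel, Real.exp_zero, one_mul]
    _ ≤ _ := by
        refine mul_le_mul_of_nonneg_left (le_trans ?_ h1) (Real.exp_pos _).le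
        exact mul_le_mul_of_nonneg_right (Real.exp_le_exp.2 (by linarith)) hp.le

/-- the law of the first `m` steps of the uniform `n`-step walk has a density at most
`exp (B (log (m + 1))²)` with respect to the uniform measure on the `m`-step walks -/
theorem mean_first : ∃ B : ℝ, 0 ≤ B ∧ ∀ G : Lattice, ∀ n m : ℕ, 1 ≤ m → ∀ h : m ≤ n,
    ∀ F : Walk G m → ℝ, (∀ ω, 0 ≤ F ω) →
    mean G n (fun ω => F (first m h ω)) ≤
      Real.exp (B * Real.log ((m : ℝ) + 1) ^ 2) * mean G m F := by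
  obtain ⟨Bs, hBs, hs⟩ := splitting .square
  obtain ⟨Bt, hBt, ht⟩ := splitting .triangular
  obtain ⟨Bh, hBh, hh⟩ := splitting .honeycomb
  have key : ∀ (G : Lattice) (B : ℝ), (∀ n m : ℕ, 1 ≤ n → 1 ≤ m →
      (Fintype.card (Walk G n) : ℝ) * Fintype.card (Walk G m) ≤
      Real.exp (B * Real.log ((m : ℝ) + 1) ^ 2) * Fintype.card (Walk G (n + m))) →
      0 ≤ B → B ≤ Bs + Bt + Bh → ∀ n m : ℕ, 1 ≤ m → ∀ h : m ≤ n,
      ∀ F : Walk G m → ℝ, (∀ ω, 0 ≤ F ω) →
      mean G n (fun ω => F (first m h ω)) ≤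
        Real.exp ((Bs + Bt + Bh) * Real.log ((m : ℝ) + 1) ^ 2) * mean G m F := by
    intro G B H hB0 hB n m hm h F hF
    have hmF : 0 ≤ mean G m F := div_nonneg (sum_nonneg fun ω _ => hF ω) (card_pos G m).le
    rcases eq_or_lt_of_le h with rfl | hlt
    · have e1 : (fun ω : Walk G m => F (first m h ω)) = F := rfl
      rw [e1]
      refine le_mul_of_one_le_left hmF (Real.one_le_exp ?_)
      have : 0 ≤ Bs + Bt + Bh := by linarith
      positivity
    · have h1 := sum_first m h F hF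
      have h2 := H (n - m) m (by omega) hm
      rw [Nat.sub_add_cancel h] at h2
      have hn := card_pos G n
      have hm' := card_pos G m
      have hr := card_pos G (n - m)
      have h3 : Real.exp (B * Real.log ((m : ℝ) + 1) ^ 2) ≤
          Real.exp ((Bs + Bt + Bh) * Real.log ((m : ℝ) + 1) ^ 2) :=
        Real.exp_le_exp.2 (mul_le_mul_of_nonneg_right hB (sq_nonneg _))
      refine le_trans ?_ (mul_le_mul_of_nonneg_right h3 hmF)
      unfold mean at hmF ⊢
      rw [div_le_iff₀ hn]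
      refine h1.trans ?_
      have h4 : (0 : ℝ) ≤ ∑ ω, F ω := sum_nonneg fun ω _ => hF ω
      calc (Fintype.card (Walk G (n - m)) : ℝ) * ∑ ω, F ω =
          (Fintype.card (Walk G (n - m)) * Fintype.card (Walk G m)) *
            ((∑ ω, F ω) / Fintype.card (Walk G m)) := by field_simp
        _ ≤ (Real.exp (B * Real.log ((m : ℝ) + 1) ^ 2) * Fintype.card (Walk G n)) *
            ((∑ ω, F ω) / Fintype.card (Walk G m)) :=
            mul_le_mul_of_nonneg_right h2 hmF
        _ = _ := by ring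
  refine ⟨Bs + Bt + Bh, by positivity, fun G => ?_⟩
  cases G with
  | square => exact key _ Bs hs hBs (by linarith)
  | triangular => exact key _ Bt ht hBt (by linarith)
  | honeycomb => exact key _ Bh hh hBh (by linarith)

end Run7.h822.WN
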