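import Pool.Agent.Run7.h822.WN.Area

/-!
# The tail of the number of bridges
-/

set_option autoImplicit false

namespace Run7.h822.WN

open Finset Run7.h529.FB Run7.h287.WN

theorem tailV : ∃ K : ℝ, 0 < K ∧ ∀ G : Lattice, ∀ n : ℕ, 2 ≤ n → ∀ x : ℝ, 0 ≤ x →
    prob G n (fun ω => K * (Real.log n ^ 2 + x) < VV ω) ≤ Real.exp (-x) := by
  obtain ⟨K, hK, H⟩ := mean_V
  have he : Real.exp 1 ^ 2 ≤ 9 := by
    have := Real.exp_one_lt_d9
    have h0 := Real.exp_pos 1
    nlinarith
  have he1 : 1 ≤ Real.exp 1 := Real.one_le_exp (by norm_num)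
  refine ⟨9 * K + 1, by positivity, fun G n hn x hx => ?_⟩
  set y : ℝ := (9 * K + 1) * (Real.log n ^ 2 + x) with hy
  have h1 : ∀ ω : Walk G n, @ite _ (y < VV ω) (Classical.propDecidable _) (1 : ℝ) 0 ≤
      Real.exp (-y) * Real.exp 1 ^ V (fun i => (ω.1 i).1) := by
    intro ω
    by_cases h2 : y < VV ω
    · rw [if_pos h2, ← Real.exp_nat_mul, ← Real.exp_add]
      apply Real.one_le_exp
      unfold VV at h2
      linarith
    · rw [if_neg h2]
      positivity
  calc prob G n (fun ω => y < VV ω) ≤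
        mean G n (fun ω => Real.exp (-y) * Real.exp 1 ^ V (fun i => (ω.1 i).1)) := mean_mono h1
    _ = Real.exp (-y) * mean G n (fun ω => Real.exp 1 ^ V (fun i => (ω.1 i).1)) :=
        mean_const_mul _ _
    _ ≤ Real.exp (-y) * Real.exp (K * Real.exp 1 ^ 2 * Real.log n ^ 2) := by
        gcongr
        exact H G n hn _ (coord_mem G) _ he1
    _ = Real.exp (-y + K * Real.exp 1 ^ 2 * Real.log n ^ 2) := (Real.exp_add _ _).symm
    _ ≤ _ := by
        apply Real.exp_le_exp.mpr
        rw [hy]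
        have hl2 : 0 ≤ Real.log n ^ 2 := by positivity
        have h6 : K * Real.exp 1 ^ 2 * Real.log n ^ 2 ≤ 9 * K * Real.log n ^ 2 := by
          have : K * Real.exp 1 ^ 2 ≤ 9 * K := by nlinarith
          exact mul_le_mul_of_nonneg_right this hl2
        nlinarith [mul_nonneg hK.le hx]

end Run7.h822.WN
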