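import Pool.Agent.Run7.h822.WN.Poly
import Pool.Agent.Run7.h822.WN.TailV

/-!
# The areas cut off by the chords of self-avoiding polygons
-/

set_option autoImplicit false

namespace Run7.h822.WN

open Finset Run7.h529.FB Run7.h287.WN
open Run7.h738.PG (Loop Loop_finite loops_lower)

lemma cut_mono_idx {q : ℕ → ℤ × ℤ} {m s t : ℕ} {τ : ℕ → ℕ}
    (h3 : ∀ i < m, Br q (τ i) (τ (i + 1))) (h2 : τ m = t) : ∀ j ≤ m, τ j ≤ t := by
  intro j hj
  obtain ⟨k, rfl⟩ := Nat.exists_eq_add_of_le hj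
  clear s hj
  induction k with
  | zero => exact le_of_eq (by simpa using h2)
  | succ k ih =>
    have h4 : τ (j + k) ≤ τ (j + k + 1) := (h3 (j + k) (by omega)).1
    have h5 := h2
    -- reduce to the shorter chain
    have h6 : ∀ i, i ≤ k + 1 → τ j ≤ τ (j + i) := by
      intro i
      induction i with
      | zero => intro _; exact le_rfl
      | succ i ihi => intro hi; exact (ihi (by omega)).trans (h3 (j + i) (by omega)).1
    have := h6 (k + 1) le_rfl
    rw [← h2]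
    exact this

lemma cut_congr {q q' : ℕ → ℤ × ℤ} {m s t : ℕ} (h : Cut q m s t)
    (he : ∀ i, i ≤ t → q i = q' i) : Cut q' m s t := by
  obtain ⟨τ, h1, h2, h3⟩ := h
  have hle := cut_mono_idx (s := s) h3 h2
  refine ⟨τ, h1, h2, fun i hi => ?_⟩
  obtain ⟨h4, h5⟩ := h3 i hi
  have e1 := he (τ i) (hle i hi.le)
  have e2 := he (τ (i + 1)) (hle (i + 1) hi)
  refine ⟨h4, ?_⟩
  rcases h5 with h5 | h5
  · left
    intro j hj1 hj2
    rw [← e1, ← e2, ← he j (hj2.trans (hle (i + 1) hi))]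
    exact h5 j hj1 hj2
  · right
    intro j hj1 hj2
    rw [← e1, ← e2, ← he j (hj2.trans (hle (i + 1) hi))]
    exact h5 j hj1 hj2

lemma cut_shift {q : ℕ → ℤ × ℤ} {m s t c : ℕ} (hper : ∀ i, q (i + c) = q i)
    (h : Cut q m s t) : Cut q m (s + c) (t + c) := by
  obtain ⟨τ, h1, h2, h3⟩ := h
  refine ⟨fun i => τ i + c, by simp only [h1], by simp only [h2], fun i hi => ?_⟩
  obtain ⟨h4, h5⟩ := h3 i hi
  refine ⟨by simp only; omega, ?_⟩
  simp only [hper]
  rcases h5 with h5 | h5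
  · left
    intro j hj1 hj2
    have := h5 (j - c) (by omega) (by omega)
    rwa [← hper (j - c), Nat.sub_add_cancel (by omega)] at this
  · right
    intro j hj1 hj2
    have := h5 (j - c) (by omega) (by omega)
    rwa [← hper (j - c), Nat.sub_add_cancel (by omega)] at this

lemma br_self (q : ℕ → ℤ × ℤ) (s : ℕ) : Br q s s := by
  refine ⟨le_rfl, Or.inl fun i h1 h2 => ?_⟩
  obtain rfl : i = s := by omega
  exact ⟨le_rfl, le_rfl⟩

lemma br_step (q : ℕ → ℤ × ℤ) (s : ℕ) : Br q s (s + 1) := by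
  refine ⟨by omega, ?_⟩
  rcases le_total (q s).1 (q (s + 1)).1 with h | h
  · left
    intro i h1 h2
    rcases (show i = s ∨ i = s + 1 by omega) with rfl | rfl
    · exact ⟨le_rfl, h⟩
    · exact ⟨h, le_rfl⟩
  · right
    intro i h1 h2
    rcases (show i = s ∨ i = s + 1 by omega) with rfl | rfl
    · exact ⟨h, le_rfl⟩
    · exact ⟨le_rfl, h⟩

lemma cut_one {q : ℕ → ℤ × ℤ} {s t : ℕ} (h : Br q s t) : Cut q 1 s t :=
  ⟨fun i => if i = 0 then s else t, by simp, by simp, fun i hi => by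
    obtain rfl : i = 0 := by omega
    simpa using h⟩

lemma cut_append {q : ℕ → ℤ × ℤ} {m m' s r t : ℕ} (h : Cut q m s r) (h' : Cut q m' r t) :
    Cut q (m + m') s t := by
  obtain ⟨τ, h1, h2, h3⟩ := h
  obtain ⟨τ', h1', h2', h3'⟩ := h'
  have e : ∀ i, m ≤ i → (if i ≤ m then τ i else τ' (i - m)) = τ' (i - m) := by
    intro i hi
    rcases hi.eq_or_lt with rfl | hi
    · rw [if_pos le_rfl, Nat.sub_self, h2, h1']
    · rw [if_neg (by omega)]
  refine ⟨fun i => if i ≤ m then τ i else τ' (i - m), by simp [h1], ?_, ?_⟩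
  · simp only
    rw [e _ (by omega), Nat.add_sub_cancel_left, h2']
  · intro i hi
    simp only
    rcases Nat.lt_or_ge i m with him | him
    · rw [if_pos him.le, if_pos (by omega)]
      exact h3 i him
    · rw [e i him, e (i + 1) (by omega), show i + 1 - m = i - m + 1 by omega]
      exact h3' (i - m) (by omega)

lemma cut_le {q : ℕ → ℤ × ℤ} {m m' s t : ℕ} (h : Cut q m s t) (hm : m ≤ m') : Cut q m' s t := by
  obtain ⟨k, rfl⟩ := Nat.exists_eq_add_of_le hm
  refine cut_append h ?_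
  exact ⟨fun _ => t, rfl, rfl, fun _ _ => br_self q t⟩

/-- the periodic sequence of a loop -/
def per {N : ℕ} (f : ZMod (N + 1) → ℤ × ℤ) (j : ℕ) : ℤ × ℤ := f (j : ZMod (N + 1))

lemma per_add {N : ℕ} (f : ZMod (N + 1) → ℤ × ℤ) (j : ℕ) : per f (j + (N + 1)) = per f j := by
  unfold per
  have hz : ((N + 1 : ℕ) : ZMod (N + 1)) = 0 := ZMod.natCast_self (N + 1)
  rw [Nat.cast_add, hz, add_zero]

lemma per_saw {N : ℕ} {f : ZMod (N + 1) → ℤ × ℤ} (hf : Loop (N + 1) f) (s : ℕ) {a : ℕ}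
    (ha : a ≤ N) : Saw (per f) s (s + a) := by
  refine ⟨fun i hi hi2 j hj hj2 h => ?_, fun i hi hi2 => ?_⟩
  · have h1 := hf.2.1 h
    have e : ∀ i : ℕ, s ≤ i → ((i : ℕ) : ZMod (N + 1)) = ((i - s : ℕ) : ZMod (N + 1)) + (s : ℕ) := by
      intro i hi
      rw [← Nat.cast_add, Nat.sub_add_cancel hi]
    rw [e i hi, e j hj] at h1
    have h2 := Run7.h738.PG.nat_eq (by omega) (by omega) (add_right_cancel h1)
    omega
  · refine adj_dir (G := .square) ?_
    have h1 := hf.2.2 ((i : ℕ) : ZMod (N + 1))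
    show |_ - _| + |_ - _| = 1
    unfold per
    rw [abs_sub_comm, abs_sub_comm (f _).2]
    simpa using h1

lemma per_cut {N : ℕ} {f : ZMod (N + 1) → ℤ × ℤ} (hf : Loop (N + 1) f) {s a : ℕ}
    (hs : s ≤ N) (ha : a ≤ N) : Cut (per f) (2 * VV (ofLoop f hf) + 1) s (s + a) := by
  have hc : ∀ u v : ℕ, u ≤ v → v ≤ N → Cut (per f) (VV (ofLoop f hf)) u v := by
    intro u v huv hv
    refine cut_congr (cut (ofLoop f hf) huv hv) fun i hi => ?_
    rw [vertex_ofLoop f hf (by omega)]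
    rfl
  rcases Nat.lt_or_ge N (s + a) with h | h
  · have h1 := hc s N hs le_rfl
    have h2 := cut_one (br_step (per f) N)
    have h3 := cut_shift (c := N + 1) (per_add f) (hc 0 (s + a - (N + 1)) (Nat.zero_le _) (by omega))
    rw [Nat.zero_add, Nat.sub_add_cancel h] at h3
    have h4 := cut_append (cut_append h1 h2) h3
    refine cut_le h4 (by omega)
  · exact cut_le (hc s (s + a) (by omega) h) (by omega)

/-- the determinant -/
def det2 (p r : ℤ × ℤ) : ℤ := p.1 * r.2 - p.2 * r.1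

lemma area2_det (q : ℕ → ℤ × ℤ) {s t : ℕ} (hst : s ≤ t) :
    ∑ i ∈ Ico s t, det2 (q i) (q (i + 1)) = det2 (q s) (q t) + area2 q s t := by
  unfold area2
  induction t, hst using Nat.le_induction with
  | base => simp [det2]; ring
  | succ t ht ih =>
    rw [sum_Ico_succ_top ht, sum_Ico_succ_top ht, ih]
    unfold det2
    ring

lemma skeleton (q : ℕ → ℤ × ℤ) (k : ℕ) (τ : ℕ → ℕ) (hτ : ∀ j < k, τ j ≤ τ (j + 1)) :
    ∑ i ∈ Ico (τ 0) (τ k), det2 (q i) (q (i + 1)) =
      ∑ j ∈ range k, det2 (q (τ j)) (q (τ (j + 1))) + ∑ j ∈ range k, area2 q (τ j) (τ (j + 1)) := by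
  induction k with
  | zero => simp
  | succ k ih =>
    have h0 : τ 0 ≤ τ k := by
      have : ∀ j ≤ k, τ 0 ≤ τ j := by
        intro j
        induction j with
        | zero => intro _; exact le_rfl
        | succ j ihj => intro hj; exact (ihj (by omega)).trans (hτ j (by omega))
      exact this k le_rfl
    rw [← sum_Ico_consecutive _ h0 (hτ k (by omega)), ih (fun j hj => hτ j (by omega)),
      area2_det q (hτ k (by omega)), sum_range_succ, sum_range_succ]
    ring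

/-- all chords cut off little area -/
def PThin {m : ℕ} (f : ZMod m → ℤ × ℤ) (y : ℝ) : Prop :=
  ∀ s a : ℕ, s < m → a < m → ∀ b1 b2 c1 c2 : ℤ,
    (∀ i : ℕ, s ≤ i → i ≤ s + a → (b1 ≤ (f (i : ZMod m)).1 ∧ (f (i : ZMod m)).1 ≤ b2) ∧
      (c1 ≤ (f (i : ZMod m)).2 ∧ (f (i : ZMod m)).2 ≤ c2)) →
    |(area2 (fun j : ℕ => f (j : ZMod m)) s (s + a) : ℝ)| ≤ y * ((b2 - b1) * (c2 - c1))

theorem pThin_of {N : ℕ} {f : ZMod (N + 1) → ℤ × ℤ} (hf : Loop (N + 1) f) :
    PThin f (4 * (2 * VV (ofLoop f hf) + 1) + 1) := by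
  intro s a hs ha b1 b2 c1 c2 hb
  have h1 := area2_le (per_saw hf s (by omega)) (per_cut hf (by omega) (by omega))
    (fun i hi hit => (hb i hi hit).1) (fun i hi hit => (hb i hi hit).2)
  have h2 : |(area2 (per f) s (s + a) : ℝ)| ≤
      (4 * ((2 * VV (ofLoop f hf) + 1 : ℕ) : ℝ) + 1) * (b2 - b1) * (c2 - c1) := by
    exact_mod_cast h1
  push_cast at h2
  have h3 : (area2 (fun j : ℕ => f (j : ZMod (N + 1))) s (s + a) : ℝ) =
      (area2 (per f) s (s + a) : ℝ) := rfl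
  rw [h3]
  linarith

open Classical in
/-- transfer of the tail of `V` to the loops -/
theorem loops_V : ∃ K : ℝ, 0 < K ∧ ∀ N n : ℕ, 2 ≤ n → 2 * n = N + 1 → ∀ x : ℝ, 0 ≤ x →
    (1 - Real.exp (-x)) * (({f | Loop (N + 1) f} : Set (ZMod (N + 1) → ℤ × ℤ)).ncard : ℝ) ≤
      (({f | ∃ hf : Loop (N + 1) f, (VV (ofLoop f hf) : ℝ) ≤ K * (Real.log n ^ 2 + x)} :
        Set (ZMod (N + 1) → ℤ × ℤ)).ncard : ℝ) := by
  obtain ⟨K, hK, H⟩ := tailV
  obtain ⟨K1, hK1, H1⟩ := loops_many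
  refine ⟨K * (4 + K1 + 1), by positivity, fun N n hn hN x hx => ?_⟩
  have hN1 : 2 * n - 1 = N := by omega
  have h1 := H1 n hn
  rw [hN1] at h1
  rw [hN] at h1
  have hfin := Loop_finite (N + 1) (Nat.succ_pos N)
  haveI : Finite {f | Loop (N + 1) f} := hfin
  haveI : Fintype {f | Loop (N + 1) f} := Fintype.ofFinite _
  set Φ : {f | Loop (N + 1) f} ↪ Walk .square N :=
    ⟨fun f => ofLoop f.1 f.2, fun f f' h => Subtype.ext (ofLoop_inj f.2 f'.2 h)⟩ with hΦ
  set A : Finset (Walk .square N) := univ.map Φ with hA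
  have hAc : (A.card : ℝ) = (({f | Loop (N + 1) f} : Set (ZMod (N + 1) → ℤ × ℤ)).ncard : ℝ) := by
    rw [hA, card_map, card_univ, ← Nat.card_eq_fintype_card, Nat.card_coe_set_eq]
  rw [← hAc] at h1 ⊢
  set L : ℝ := Real.log n with hL
  have hE : 0 ≤ K1 * L ^ 2 := by positivity
  set y : ℝ := K * (Real.log N ^ 2 + (K1 * L ^ 2 + x)) with hy
  have h2 := H .square N (by omega) (K1 * L ^ 2 + x) (by linarith)
  rw [← hy, prob_eq_card, div_le_iff₀ (card_pos _ N)] at h2
  have h3 : ((A.filter fun ω => y < VV ω).card : ℝ) ≤ Real.exp (-x) * A.card := by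
    have h4 : ((A.filter fun ω => y < VV ω).card : ℝ) ≤
        ((univ.filter fun ω : Walk .square N => y < VV ω).card : ℝ) := by
      exact_mod_cast card_le_card (filter_subset_filter _ (subset_univ A))
    calc _ ≤ Real.exp (-(K1 * L ^ 2 + x)) * Fintype.card (Walk .square N) := h4.trans h2
      _ = Real.exp (-x) * (Real.exp (-(K1 * L ^ 2)) * Fintype.card (Walk .square N)) := by
          rw [neg_add, Real.exp_add]; ring
      _ ≤ _ := by gcongr
  have hB : (A.filter (fun ω => y < VV ω)).card =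
      (univ.filter (fun f : {f | Loop (N + 1) f} => y < VV (Φ f))).card := by
    rw [hA, filter_map, card_map]
    rfl
  have hsum := Finset.card_filter_add_card_filter_not
    (s := (univ : Finset {f | Loop (N + 1) f})) (fun f => y < VV (Φ f))
  have hA2 : A.card = (univ : Finset {f | Loop (N + 1) f}).card := by rw [hA, card_map]
  rw [← hA2, ← hB] at hsum
  have hlogN : Real.log N ^ 2 ≤ 4 * L ^ 2 := by
    have hn' : (2 : ℝ) ≤ n := by exact_mod_cast hn
    have e1 : (N : ℝ) ≤ (n : ℝ) * n := by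
      have : N ≤ n * n := by nlinarith
      exact_mod_cast this
    have e2 : (1 : ℝ) ≤ N := by
      have : 1 ≤ N := by omega
      exact_mod_cast this
    have e3 : Real.log N ≤ 2 * L := by
      calc _ ≤ Real.log ((n : ℝ) * n) := Real.log_le_log (by linarith) e1
        _ = _ := by rw [Real.log_mul (by positivity) (by positivity)]; ring
    have e4 : 0 ≤ Real.log (N : ℝ) := Real.log_nonneg e2
    nlinarith
  have hyle : y ≤ K * (4 + K1 + 1) * (L ^ 2 + x) := by
    rw [hy, mul_assoc]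
    refine mul_le_mul_of_nonneg_left ?_ hK.le
    nlinarith [mul_nonneg hK1 hx, sq_nonneg L]
  have hG : (univ.filter (fun f : {f | Loop (N + 1) f} => ¬ y < VV (Φ f))).card ≤
      ({f | ∃ hf : Loop (N + 1) f, (VV (ofLoop f hf) : ℝ) ≤ K * (4 + K1 + 1) * (L ^ 2 + x)} :
        Set (ZMod (N + 1) → ℤ × ℤ)).ncard := by
    rw [← Set.ncard_coe_finset]
    refine Set.ncard_le_ncard_of_injOn Subtype.val ?_ (Subtype.val_injective.injOn)
      (hfin.subset fun f hf => hf.1)
    rintro f hf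
    simp only [coe_filter, mem_univ, true_and, Set.mem_ofPred_eq, not_lt] at hf
    exact ⟨f.2, hf.trans hyle⟩
  have hG' : ((univ.filter (fun f : {f | Loop (N + 1) f} => ¬ y < VV (Φ f))).card : ℝ) ≤ _ :=
    Nat.cast_le.2 hG
  have hsum' : ((A.filter (fun ω => y < VV ω)).card : ℝ) +
      ((univ.filter (fun f : {f | Loop (N + 1) f} => ¬ y < VV (Φ f))).card : ℝ) = A.card := by
    exact_mod_cast hsum
  linarith

theorem poly_area : ∃ K : ℝ, 0 < K ∧ ∀ n : ℕ, 2 ≤ n → ∀ x : ℝ, 0 ≤ x →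
    (1 - Real.exp (-x)) * (({f | Loop (2 * n) f} : Set (ZMod (2 * n) → ℤ × ℤ)).ncard : ℝ) ≤
      (({f | Loop (2 * n) f ∧ PThin f (K * (Real.log n ^ 2 + x))} :
        Set (ZMod (2 * n) → ℤ × ℤ)).ncard : ℝ) := by
  obtain ⟨K, hK, H⟩ := loops_V
  have hl2 : 0 < Real.log 2 := Real.log_pos (by norm_num)
  refine ⟨8 * K + 5 / Real.log 2 ^ 2, by positivity, fun n hn x hx => ?_⟩
  obtain ⟨N, hN⟩ : ∃ N, 2 * n = N + 1 := ⟨2 * n - 1, by omega⟩
  have h1 := H N n hn hN x hx
  rw [hN]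
  refine h1.trans ?_
  have hfin := Loop_finite (N + 1) (Nat.succ_pos N)
  have h2 : ({f | ∃ hf : Loop (N + 1) f, (VV (ofLoop f hf) : ℝ) ≤ K * (Real.log n ^ 2 + x)} :
      Set (ZMod (N + 1) → ℤ × ℤ)).ncard ≤
      ({f | Loop (N + 1) f ∧ PThin f ((8 * K + 5 / Real.log 2 ^ 2) * (Real.log n ^ 2 + x))} :
        Set (ZMod (N + 1) → ℤ × ℤ)).ncard := by
    refine Set.ncard_le_ncard ?_ (hfin.subset fun f hf => hf.1)
    rintro f ⟨hf, hV⟩
    refine ⟨hf, ?_⟩
    have hone : 1 ≤ 1 / Real.log 2 ^ 2 * (Real.log n ^ 2 + x) := by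
      have hL : Real.log 2 ≤ Real.log n := Real.log_le_log (by norm_num) (by exact_mod_cast hn)
      rw [one_div, ← div_eq_inv_mul, one_le_div (by positivity)]
      have := pow_le_pow_left₀ hl2.le hL 2
      linarith
    intro s a hs ha b1 b2 c1 c2 hb
    refine (pThin_of hf s a hs ha b1 b2 c1 c2 hb).trans ?_
    refine mul_le_mul_of_nonneg_right ?_ ?_
    · have e : (8 * K + 5 / Real.log 2 ^ 2) * (Real.log n ^ 2 + x) =
          8 * (K * (Real.log n ^ 2 + x)) + 5 * (1 / Real.log 2 ^ 2 * (Real.log n ^ 2 + x)) := by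
        ring
      rw [e]
      linarith
    · obtain ⟨⟨g1, g2⟩, g3, g4⟩ := hb s le_rfl (by omega)
      have e1 : (b1 : ℝ) ≤ b2 := by exact_mod_cast g1.trans g2
      have e2 : (c1 : ℝ) ≤ c2 := by exact_mod_cast g3.trans g4
      have e3 : (0 : ℝ) ≤ b2 - b1 := by linarith
      have e4 : (0 : ℝ) ≤ c2 - c1 := by linarith
      positivity
  exact_mod_cast h2

end Run7.h822.WN
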