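import Pool.Agent.Run7.h822.WN.First
import Pool.Agent.Run7.h822.WN.PolyArea

/-!
# Bridges, turnings, winding angles and areas at all times, uniformly in the length of the walk
-/

set_option autoImplicit false

namespace Run7.h822.WN

open Finset Run7.h529.FB Run7.h287.WN

/-- the winding angle of the piece of the path `q` between the times `s` and `t` around the
vertex `z` -/
noncomputable def wnd (G : Lattice) (q : ℕ → ℤ × ℤ) (z : ℤ × ℤ) (s t : ℕ) : ℝ :=
  ∑ i ∈ Finset.Ico s t, Complex.arg ((pos G (q (i + 1)) - pos G z) / (pos G (q i) - pos G z))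

/-- the total turning of the piece of the path `q` between the times `s` and `t` -/
noncomputable def trn (G : Lattice) (q : ℕ → ℤ × ℤ) (s t : ℕ) : ℝ :=
  ∑ i ∈ Finset.Ico (s + 1) t, Complex.arg ((pos G (q (i + 1)) - pos G (q i)) /
    (pos G (q i) - pos G (q (i - 1))))

/-- The piece of the path `q` between the times `s` and `t` is a concatenation of at most `y`
bridges, its total turning is at most `y`, its winding angle around every vertex which is not on
the piece is at most `y`, and the algebraic area enclosed by the piece and its chord is at most `y`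
times the area of every box which contains the piece. -/
structure Tame (G : Lattice) (q : ℕ → ℤ × ℤ) (s t : ℕ) (y : ℝ) : Prop where
  bridges : ∃ m : ℕ, (m : ℝ) ≤ y ∧ Cut q m s t
  turning : |trn G q s t| ≤ y
  winding : ∀ z : ℤ × ℤ, (∀ i, s ≤ i → i ≤ t → q i ≠ z) → |wnd G q z s t| ≤ y
  area : ∀ a b c d : ℤ, (∀ i, s ≤ i → i ≤ t → (a ≤ (q i).1 ∧ (q i).1 ≤ b) ∧
    (c ≤ (q i).2 ∧ (q i).2 ≤ d)) → |(area2 q s t : ℝ) / 2| ≤ y * ((b - a) * (d - c))

lemma wnd_congr {G : Lattice} {q q' : ℕ → ℤ × ℤ} {s t : ℕ} (h : ∀ i, i ≤ t → q i = q' i)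
    (z : ℤ × ℤ) : wnd G q z s t = wnd G q' z s t := by
  unfold wnd
  refine sum_congr rfl fun i hi => ?_
  rw [mem_Ico] at hi
  rw [h (i + 1) (by omega), h i (by omega)]

lemma trn_congr {G : Lattice} {q q' : ℕ → ℤ × ℤ} {s t : ℕ} (h : ∀ i, i ≤ t → q i = q' i) :
    trn G q s t = trn G q' s t := by
  unfold trn
  refine sum_congr rfl fun i hi => ?_
  rw [mem_Ico] at hi
  rw [h (i + 1) (by omega), h i (by omega), h (i - 1) (by omega)]

lemma area2_congr {q q' : ℕ → ℤ × ℤ} {s t : ℕ} (hst : s ≤ t) (h : ∀ i, i ≤ t → q i = q' i) :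
    area2 q s t = area2 q' s t := by
  unfold area2
  refine sum_congr rfl fun i hi => ?_
  rw [mem_Ico] at hi
  rw [h (i + 1) (by omega), h i (by omega), h s hst]

lemma Tame.congr {G : Lattice} {q q' : ℕ → ℤ × ℤ} {s t : ℕ} {y : ℝ} (hst : s ≤ t)
    (H : Tame G q s t y) (h : ∀ i, i ≤ t → q i = q' i) : Tame G q' s t y := by
  refine ⟨?_, ?_, fun z hz => ?_, fun a b c d hb => ?_⟩
  · obtain ⟨m, h1, h2⟩ := H.bridges
    exact ⟨m, h1, cut_congr h2 h⟩
  · rw [← trn_congr h]
    exact H.turning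
  · rw [← wnd_congr h]
    exact H.winding z fun i h1 h2 => by
      rw [h i h2]
      exact hz i h1 h2
  · rw [← area2_congr hst h]
    exact H.area a b c d fun i h1 h2 => by
      rw [h i h2]
      exact hb i h1 h2

lemma Tame.mono {G : Lattice} {q : ℕ → ℤ × ℤ} {s t : ℕ} {y y' : ℝ} (hst : s ≤ t)
    (H : Tame G q s t y) (h : y ≤ y') : Tame G q s t y' := by
  refine ⟨?_, H.turning.trans h, fun z hz => (H.winding z hz).trans h, fun a b c d hb => ?_⟩
  · obtain ⟨m, h1, h2⟩ := H.bridges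
    exact ⟨m, h1.trans h, h2⟩
  · refine (H.area a b c d hb).trans (mul_le_mul_of_nonneg_right h ?_)
    obtain ⟨⟨h1, h2⟩, h3, h4⟩ := hb s le_rfl hst
    have e1 : (a : ℝ) ≤ b := by exact_mod_cast h1.trans h2
    have e2 : (c : ℝ) ≤ d := by exact_mod_cast h3.trans h4
    have e3 : (0 : ℝ) ≤ b - a := by linarith
    have e4 : (0 : ℝ) ≤ d - c := by linarith
    positivity

theorem tame_walk {G : Lattice} {n : ℕ} (ω : Walk G n) {s t : ℕ} (hst : s ≤ t) (ht : t ≤ n) :
    Tame G (vertex ω) s t (4 * Real.pi * (VV ω + 2)) := by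
  have hpi := Real.pi_gt_three
  have hV : (0 : ℝ) ≤ VV ω := Nat.cast_nonneg _
  refine ⟨⟨VV ω, by nlinarith, cut ω hst ht⟩, turning_le ω hst ht, fun z hz => ?_,
    fun a b c d hb => ?_⟩
  · refine (winding_le ω hst ht z hz).trans ?_
    nlinarith
  · refine (area_le ω hst ht hb).trans (mul_le_mul_of_nonneg_right ?_ (InBox.nonneg hst hb))
    nlinarith

lemma vertex_first {G : Lattice} {n m : ℕ} (h : m ≤ n) (ω : Walk G n) {i : ℕ} (hi : i ≤ m) :
    vertex (first m h ω) i = vertex ω i := by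
  rw [vertex_of_le _ hi, vertex_of_le _ (hi.trans h)]
  rfl

lemma prob_mono {G : Lattice} {n : ℕ} {A B : Walk G n → Prop} (h : ∀ ω, A ω → B ω) :
    prob G n A ≤ prob G n B := by
  unfold prob
  apply mean_mono
  intro ω
  by_cases h1 : A ω
  · rw [if_pos h1, if_pos (h ω h1)]
  · rw [if_neg h1]
    split_ifs <;> norm_num

lemma prob_union {G : Lattice} {n : ℕ} (L : ℕ) (B : ℕ → Walk G n → Prop) :
    prob G n (fun ω => ∃ k < L, B k ω) ≤ ∑ k ∈ range L, prob G n (B k) := by
  classical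
  have h1 : ∑ k ∈ range L, prob G n (B k) =
      mean G n (fun ω => ∑ k ∈ range L, if B k ω then 1 else 0) := by
    unfold prob mean
    rw [← sum_div, sum_comm]
  rw [h1]
  unfold prob
  apply mean_mono
  intro ω
  by_cases h2 : ∃ k < L, B k ω
  · rw [if_pos h2]
    obtain ⟨k, hk, hB⟩ := h2
    have h3 := single_le_sum (f := fun k => if B k ω then (1 : ℝ) else 0)
      (fun i _ => by split_ifs <;> norm_num) (mem_range.2 hk)
    simp only [if_pos hB] at h3
    exact h3
  · rw [if_neg h2]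
    exact sum_nonneg fun i _ => by split_ifs <;> norm_num

lemma geom_le (x : ℝ) (L : ℕ) :
    ∑ k ∈ range L, Real.exp (-(x + (k + 1) * Real.log 2)) ≤ Real.exp (-x) := by
  have h1 : ∀ k : ℕ, Real.exp (-(x + (k + 1) * Real.log 2)) =
      Real.exp (-x) * ((1 / 2) ^ k * (1 / 2)) := by
    intro k
    rw [neg_add, Real.exp_add, ← pow_succ]
    congr 1
    have : -(((k : ℝ) + 1) * Real.log 2) = ((k + 1 : ℕ) : ℝ) * (-Real.log 2) := by
      push_cast
      ring
    rw [this, Real.exp_nat_mul, Real.exp_neg, Real.exp_log (by norm_num)]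
    norm_num
  simp only [h1]
  rw [← mul_sum, ← sum_mul]
  have h2 : ∑ k ∈ range L, (1 / 2 : ℝ) ^ k ≤ 2 := by
    rw [geom_sum_eq (by norm_num)]
    have : (0 : ℝ) ≤ (1 / 2) ^ L := by positivity
    rw [div_le_iff_of_neg (by norm_num)]
    linarith
  have h3 := (Real.exp_pos (-x)).le
  calc Real.exp (-x) * ((∑ k ∈ range L, (1 / 2 : ℝ) ^ k) * (1 / 2)) ≤
      Real.exp (-x) * (2 * (1 / 2)) := by gcongr
    _ = _ := by ring

theorem all_times : ∃ K : ℝ, 0 < K ∧ ∀ G : Lattice, ∀ n : ℕ, 2 ≤ n → ∀ x : ℝ, 0 ≤ x →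
    1 - Real.exp (-x) ≤ prob G n (fun ω => ∀ s t : ℕ, s ≤ t → t ≤ n →
      Tame G (vertex ω) s t (K * (Real.log (t + 2) ^ 2 + x))) := by
  obtain ⟨K1, hK1, H1⟩ := tailV
  obtain ⟨B, hB, H2⟩ := mean_first
  have hl2 : 0 < Real.log 2 := Real.log_pos (by norm_num)
  have hpi := Real.pi_pos
  set K : ℝ := 4 * Real.pi * (K1 * (4 + 4 * B + 2 / Real.log 2 + 1) + 2 / Real.log 2 ^ 2) with hK
  refine ⟨K, by positivity, fun G n hn x hx => ?_⟩
  -- the scales
  set m : ℕ → ℕ := fun k => min (2 ^ (k + 1)) n with hm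
  have hmn : ∀ k, m k ≤ n := fun k => min_le_right _ _
  have hm2 : ∀ k, 2 ≤ m k := fun k => le_min (by
    have : 1 ≤ 2 ^ k := Nat.one_le_two_pow
    rw [pow_succ]
    omega) hn
  set y : ℕ → ℝ := fun k => B * Real.log ((m k : ℝ) + 1) ^ 2 + (x + (k + 1) * Real.log 2) with hy
  set bad : ℕ → Walk G n → Prop := fun k ω =>
    K1 * (Real.log (m k) ^ 2 + y k) < VV (first (m k) (hmn k) ω) with hbad
  have hy0 : ∀ k, 0 ≤ y k := fun k => by
    simp only [hy]
    positivity
  have hp : ∀ k, prob G n (bad k) ≤ Real.exp (-(x + (k + 1) * Real.log 2)) := by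
    intro k
    classical
    have h1 := H1 G (m k) (hm2 k) (y k) (hy0 k)
    have h2 := H2 G n (m k) (by have := hm2 k; omega) (hmn k)
      (fun ω => @ite _ (K1 * (Real.log (m k) ^ 2 + y k) < VV ω) (Classical.propDecidable _)
        (1 : ℝ) 0) (fun ω => by split_ifs <;> norm_num)
    refine h2.trans ((mul_le_mul_of_nonneg_left h1 (Real.exp_pos _).le).trans (le_of_eq ?_))
    rw [← Real.exp_add]
    congr 1
    simp only [hy]
    ring
  have hU : prob G n (fun ω => ∃ k < n + 1, bad k ω) ≤ Real.exp (-x) :=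
    (prob_union (n + 1) bad).trans ((sum_le_sum fun k _ => hp k).trans (geom_le x (n + 1)))
  rw [prob_compl]
  refine sub_le_sub_left (le_trans (prob_mono ?_) hU) 1
  intro ω hω
  by_contra hcon
  push Not at hcon
  refine hω fun s t hst ht => ?_
  -- the scale of `t`
  set k := Nat.log 2 (t + 1) with hk
  have hk1 : t + 1 < 2 ^ (k + 1) := Nat.lt_pow_succ_log_self (by norm_num) _
  have hk2 : 2 ^ k ≤ t + 1 := Nat.pow_log_le_self 2 (by omega)
  have hk3 : k < n + 1 := by
    have : k < 2 ^ k := Nat.lt_two_pow_self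
    omega
  have htm : t ≤ m k := le_min (by omega) ht
  have hb := hcon k hk3
  simp only [hbad] at hb
  push Not at hb
  have ht1 := tame_walk (first (m k) (hmn k) ω) hst htm
  have ht2 : Tame G (vertex ω) s t (4 * Real.pi * (VV (first (m k) (hmn k) ω) + 2)) :=
    ht1.congr hst fun i hi => vertex_first _ _ (hi.trans htm)
  refine ht2.mono hst ?_
  -- the bound
  set L : ℝ := Real.log ((t : ℝ) + 2) with hL
  have ht0 : (0 : ℝ) ≤ t := Nat.cast_nonneg _
  have hLl : Real.log 2 ≤ L := Real.log_le_log (by norm_num) (by linarith)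
  have hL2 : Real.log (((t : ℝ) + 2) ^ 2) = 2 * L := by
    rw [Real.log_pow, hL]
    push_cast
    ring
  have hp2 : (2 : ℝ) ^ (k + 1) ≤ 2 * (t + 1) := by
    have : (2 : ℝ) ^ k ≤ t + 1 := by exact_mod_cast hk2
    rw [pow_succ]
    linarith
  have hmk : (m k : ℝ) ≤ 2 * (t + 1) := by
    refine le_trans ?_ hp2
    exact_mod_cast min_le_left _ _
  have hmk2 : (2 : ℝ) ≤ m k := by exact_mod_cast hm2 k
  have e1 : Real.log (m k) ≤ 2 * L := by
    rw [← hL2]
    exact Real.log_le_log (by linarith) (by nlinarith)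
  have e2 : Real.log ((m k : ℝ) + 1) ≤ 2 * L := by
    rw [← hL2]
    exact Real.log_le_log (by linarith) (by nlinarith)
  have e3 : ((k : ℝ) + 1) * Real.log 2 ≤ 2 * L := by
    have : ((k : ℝ) + 1) * Real.log 2 = Real.log (2 ^ (k + 1)) := by
      rw [Real.log_pow]
      push_cast
      ring
    rw [this, ← hL2]
    exact Real.log_le_log (by positivity) (by nlinarith)
  have e4 : Real.log (m k) ^ 2 ≤ 4 * L ^ 2 := by
    have := pow_le_pow_left₀ (Real.log_nonneg (by linarith)) e1 2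
    linarith
  have e5 : Real.log ((m k : ℝ) + 1) ^ 2 ≤ 4 * L ^ 2 := by
    have := pow_le_pow_left₀ (Real.log_nonneg (by linarith)) e2 2
    linarith
  have e6 : 2 * L ≤ 2 / Real.log 2 * L ^ 2 := by
    rw [div_mul_eq_mul_div, le_div_iff₀ hl2]
    nlinarith
  have e7 : 2 ≤ 2 / Real.log 2 ^ 2 * L ^ 2 := by
    rw [div_mul_eq_mul_div, le_div_iff₀ (by positivity)]
    have := pow_le_pow_left₀ hl2.le hLl 2
    linarith
  have hyk : y k ≤ B * (4 * L ^ 2) + (x + 2 / Real.log 2 * L ^ 2) := by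
    simp only [hy]
    have := mul_le_mul_of_nonneg_left e5 hB
    linarith
  have hV : (VV (first (m k) (hmn k) ω) : ℝ) ≤
      K1 * (4 * L ^ 2 + (B * (4 * L ^ 2) + (x + 2 / Real.log 2 * L ^ 2))) :=
    hb.trans (mul_le_mul_of_nonneg_left (add_le_add e4 hyk) hK1.le)
  have hd : (0 : ℝ) ≤ 2 / Real.log 2 := by positivity
  have hd2 : (0 : ℝ) ≤ 2 / Real.log 2 ^ 2 := by positivity
  have hKK : K * (L ^ 2 + x) = 4 * Real.pi *
      ((K1 * (4 + 4 * B + 2 / Real.log 2 + 1) + 2 / Real.log 2 ^ 2) * (L ^ 2 + x)) := by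
    rw [hK]
    ring
  rw [hKK]
  refine mul_le_mul_of_nonneg_left ?_ (by positivity)
  have f1 : 0 ≤ K1 * (4 + 4 * B + 2 / Real.log 2) * x := by positivity
  have f2 : 0 ≤ 2 / Real.log 2 ^ 2 * x := by positivity
  have f3 : 0 ≤ K1 * L ^ 2 := by positivity
  nlinarith

end Run7.h822.WN
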