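import Pool.Agent.Run7.h822.WN.Limit
import Pool.Agent.TH546.SAW.Avg

/-!
# The pieces of a long self-avoiding walk at typical times
-/

set_option autoImplicit false
set_option linter.unusedSimpArgs false
set_option linter.flexible false

namespace Run7.h822.WN

open Finset Run7.h529.FB Run7.h287.WN Real

variable {G : Lattice} {n : ℕ}

/-! ### windings of pieces which are concatenations of few bridges -/

/-- all pieces between the times `s` and `t` are concatenations of `M` bridges -/
def AllCut (q : ℕ → ℤ × ℤ) (M s t : ℕ) : Prop :=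
  ∀ s' t' : ℕ, s ≤ s' → s' ≤ t' → t' ≤ t → Cut q M s' t'

theorem winding_le_cut (ω : Walk G n) {s t M : ℕ} (hst : s ≤ t) (ht : t ≤ n)
    (hc : Cut (vertex ω) M s t) (z : ℤ × ℤ) (hz : ∀ i, s ≤ i → i ≤ t → vertex ω i ≠ z) :
    |winding ω z s t| ≤ 2 * π * (M + 2) := by
  have hpi := Real.pi_pos
  have hS : Saw (vertex ω) s t := (saw ω).mono (Nat.zero_le _) ht
  have key : ∀ τ : ℂ, 0 < τ.im →
      |wind (fun i => E τ (vertex ω i)) (E τ z) s t| ≤ 2 * π * (M + 1) :=
    fun τ hτ => wind_lin_le hτ hS hc z hz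
  cases G with
  | square =>
    have := key Complex.I (by simp)
    have h2 : winding ω z s t = wind (fun i => E Complex.I (vertex ω i)) (E Complex.I z) s t := rfl
    rw [h2]
    nlinarith
  | triangular =>
    have := key ⟨1 / 2, √3 / 2⟩ (by simp)
    have h2 : winding ω z s t = wind (fun i => E ⟨1 / 2, √3 / 2⟩ (vertex ω i))
      (E ⟨1 / 2, √3 / 2⟩ z) s t := rfl
    rw [h2]
    nlinarith
  | honeycomb =>
    have h1 := key Complex.I (by simp)
    have hc := compare (u := fun i => pos .square (vertex ω i) - pos .square z)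
      (v := fun i => pos .honeycomb (vertex ω i) - pos .honeycomb z) hst
      (fun i h1 h2 => ne_of_normSq (sep_pos _ (hz i h1 h2).symm))
      (fun i h1 h2 => ne_of_normSq (sep_pos _ (hz i h1 h2).symm))
      (fun i h1 h2 => honey_brick (hz i h1 h2).symm)
      (fun i h1 h2 => re_pos_div (sep_pos _ (hz i h1 h2.le).symm)
        (sep_pos _ (hz (i + 1) (by omega) (by omega)).symm) (by
          rw [sub_sub_sub_cancel_right]
          exact step_square (honey_square (vertex_adj ω (by omega)))))
      (fun i h1 h2 => re_pos_div (sep_pos _ (hz i h1 h2.le).symm)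
        (sep_pos _ (hz (i + 1) (by omega) (by omega)).symm) (by
          rw [sub_sub_sub_cancel_right]
          exact step_honey (vertex_adj ω (by omega))))
    have h2 : winding ω z s t = ∑ i ∈ Finset.Ico s t, Complex.arg
      ((pos .honeycomb (vertex ω (i + 1)) - pos .honeycomb z) /
        (pos .honeycomb (vertex ω i) - pos .honeycomb z)) := rfl
    have h3 : wind (fun i => E Complex.I (vertex ω i)) (E Complex.I z) s t =
      ∑ i ∈ Finset.Ico s t, Complex.arg
      ((pos .square (vertex ω (i + 1)) - pos .square z) /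
        (pos .square (vertex ω i) - pos .square z)) := rfl
    rw [h3] at h1
    rw [h2, hc]
    have a1 := arg_small (honey_brick (hz t hst le_rfl).symm)
    have a2 := arg_small (honey_brick (hz s le_rfl hst).symm)
    rw [abs_le] at h1 ⊢
    constructor <;> linarith

theorem turning_le_cut (ω : Walk G n) {s t M : ℕ} (hst : s ≤ t) (ht : t ≤ n)
    (hc : AllCut (vertex ω) M s t) : |turning ω s t| ≤ 4 * π * (M + 2) := by
  have hpi := Real.pi_pos
  rcases eq_or_lt_of_le hst with rfl | hlt
  · unfold turning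
    rw [Finset.Ico_eq_empty (by omega), Finset.sum_empty, abs_zero]
    positivity
  · have h := hopf hlt ((unit ω).mono (Nat.zero_le _) ht)
    have h1 : turning ω s t = turn (fun i => pos G (vertex ω i)) s t := rfl
    have h2 := winding_le_cut ω (show s + 1 ≤ t from hlt) ht
      (hc (s + 1) t (by omega) hlt le_rfl) (vertex ω s) (fun i h3 h4 h5 => by
      have := vertex_inj ω (by omega) (by omega) h5
      omega)
    have h3 := winding_le_cut ω (show s ≤ t - 1 by omega) (by omega)
      (hc s (t - 1) le_rfl (by omega) (by omega)) (vertex ω t)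
      (fun i h3 h4 h5 => by
        have := vertex_inj ω (by omega) (by omega) h5
        omega)
    have e2 : winding ω (vertex ω s) (s + 1) t =
      wind (fun i => pos G (vertex ω i)) (pos G (vertex ω s)) (s + 1) t := rfl
    have e3 : winding ω (vertex ω t) s (t - 1) =
      wind (fun i => pos G (vertex ω i)) (pos G (vertex ω t)) s (t - 1) := rfl
    rw [e2] at h2
    rw [e3] at h3
    rw [h1, h]
    refine (abs_add_le _ _).trans ?_
    linarith

theorem tame_of_cut (ω : Walk G n) {s t M : ℕ} (hst : s ≤ t) (ht : t ≤ n)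
    (hc : AllCut (vertex ω) M s t) : Tame G (vertex ω) s t (4 * π * (M + 2)) := by
  have hpi := Real.pi_gt_three
  have hV : (0 : ℝ) ≤ M := Nat.cast_nonneg _
  have hcs := hc s t le_rfl hst le_rfl
  refine ⟨⟨M, by nlinarith, hcs⟩, turning_le_cut ω hst ht hc, fun z hz => ?_,
    fun a b c d hb => ?_⟩
  · refine (winding_le_cut ω hst ht hcs z hz).trans ?_
    nlinarith
  · have h1 := area2_le ((saw ω).mono (Nat.zero_le _) ht) hcs
      (fun i hi hit => (hb i hi hit).1) (fun i hi hit => (hb i hi hit).2)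
    have h2 : |(area2 (vertex ω) s t : ℝ)| ≤ (4 * M + 1) * (b - a) * (d - c) := by
      exact_mod_cast h1
    have h3 : (0 : ℝ) ≤ ((b - a) * (d - c) : ℝ) := InBox.nonneg (ω := ω) hst hb
    rw [abs_div, abs_of_pos (show (0 : ℝ) < 2 by norm_num), div_le_iff₀ (by norm_num)]
    have h4 : (4 * (M : ℝ) + 1) ≤ 4 * π * (M + 2) * 2 := by nlinarith
    calc |(area2 (vertex ω) s t : ℝ)| ≤ (4 * (M : ℝ) + 1) * ((b - a) * (d - c)) := by
          rw [← mul_assoc]
          exact h2
      _ ≤ 4 * π * (M + 2) * 2 * ((b - a) * (d - c)) := mul_le_mul_of_nonneg_right h4 h3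
      _ = _ := by ring

/-! ### pieces -/

lemma sh_sh (G : Lattice) (v w p : ℤ × ℤ) : sh G (sh G v w) (sh G v p) = sh G w p := by
  cases G with
  | square => exact sub_sub_sub_cancel_right _ _ _
  | triangular => exact sub_sub_sub_cancel_right _ _ _
  | honeycomb =>
    obtain ⟨a, b⟩ := v
    obtain ⟨c, e⟩ := w
    obtain ⟨x, y⟩ := p
    simp only [sh]
    by_cases hv : Even (a + b)
    · by_cases hw : Even (c + e)
      · have h1 : Even (((c, e) - (a, b) : ℤ × ℤ).1 + ((c, e) - (a, b) : ℤ × ℤ).2) := by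
          simp only [Prod.mk_sub_mk, Int.even_iff] at *
          omega
        rw [if_pos hv, if_pos hv, if_pos h1, if_pos hw]
        exact sub_sub_sub_cancel_right _ _ _
      · have h1 : ¬ Even (((c, e) - (a, b) : ℤ × ℤ).1 + ((c, e) - (a, b) : ℤ × ℤ).2) := by
          simp only [Prod.mk_sub_mk, Int.even_iff] at *
          omega
        rw [if_pos hv, if_pos hv, if_neg h1, if_neg hw]
        simp only [Prod.mk_sub_mk, Prod.mk.injEq]
        constructor <;> ring
    · by_cases hw : Even (c + e)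
      · have h1 : ¬ Even ((c - a) + (b - e)) := by
          simp only [Int.even_iff] at *
          omega
        rw [if_neg hv, if_neg hv, if_neg h1, if_pos hw]
        simp only [Prod.mk_sub_mk, Prod.mk.injEq]
        constructor <;> ring
      · have h1 : Even ((c - a) + (b - e)) := by
          simp only [Int.even_iff] at *
          omega
        rw [if_neg hv, if_neg hv, if_pos h1, if_neg hw]
        simp only [Prod.mk_sub_mk, Prod.mk.injEq]
        constructor <;> ring

/-- the piece with `m` steps which starts at time `i`, moved to the origin -/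
def piece (i m : ℕ) (h : i + m ≤ n) (ω : Walk G n) : Walk G m :=
  ⟨fun k => sh G (ω.1 ⟨i, by omega⟩) (ω.1 ⟨i + k, by omega⟩), sh_self _ _, fun k l hkl => by
    have h1 := ω.2.2.1 (sh_inj _ _ hkl)
    have h2 := congrArg Fin.val h1
    simp only at h2
    exact Fin.ext (by omega), fun k => sh_adj _ _ (ω.2.2.2 ⟨i + k, by omega⟩)⟩

lemma piece_piece {i m k l : ℕ} (h : i + m ≤ n) (h' : k + l ≤ m) (h'' : i + k + l ≤ n)
    (ω : Walk G n) : piece k l h' (piece i m h ω) = piece (i + k) l h'' ω := by
  apply Subtype.ext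
  funext j
  show sh G (sh G (ω.1 ⟨i, _⟩) (ω.1 ⟨i + k, _⟩)) (sh G (ω.1 ⟨i, _⟩) (ω.1 ⟨i + (k + j), _⟩)) =
    sh G (ω.1 ⟨i + k, _⟩) (ω.1 ⟨i + k + j, _⟩)
  rw [sh_sh]
  have e : (⟨i + (k + j), by omega⟩ : Fin (n + 1)) = ⟨i + k + j, by omega⟩ :=
    Fin.ext (by simp only; omega)
  rw [e]

lemma split2_inj (a b : ℕ) (h : a + b = n) :
    Function.Injective (fun ω : Walk G n => (first a (by omega) ω, piece a b h.le ω)) := by
  intro ω ω' he
  rw [Prod.mk.injEq] at he
  obtain ⟨h1, h2⟩ := he
  have e1 : ∀ i : Fin (a + 1), ω.1 ⟨i, by omega⟩ = ω'.1 ⟨i, by omega⟩ := fun i =>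
    congrFun (congrArg Subtype.val h1) i
  have e2 : ∀ i : Fin (b + 1), sh G (ω.1 ⟨a, by omega⟩) (ω.1 ⟨a + i, by omega⟩) =
      sh G (ω'.1 ⟨a, by omega⟩) (ω'.1 ⟨a + i, by omega⟩) := fun i =>
    congrFun (congrArg Subtype.val h2) i
  have e0 := e1 ⟨a, by omega⟩
  simp only at e0
  apply Subtype.ext
  funext i
  rcases Nat.lt_or_ge a i with hi | hi
  · have e3 := e2 ⟨i - a, by omega⟩
    simp only at e3
    rw [e0] at e3
    have e4 := sh_inj _ _ e3
    have e5 : (⟨a + (i - a), by omega⟩ : Fin (n + 1)) = i := Fin.ext (by simp; omega)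
    rw [e5] at e4
    exact e4
  · exact e1 ⟨i, by omega⟩

theorem sum_split (a b : ℕ) (h : a + b = n) (F : Walk G a → ℝ) (F' : Walk G b → ℝ)
    (hF : ∀ ω, 0 ≤ F ω) (hF' : ∀ ω, 0 ≤ F' ω) :
    ∑ ω : Walk G n, F (first a (by omega) ω) * F' (piece a b h.le ω) ≤
      (∑ ω, F ω) * ∑ ω, F' ω := by
  classical
  have h1 : ∑ ω : Walk G n, F (first a (by omega) ω) * F' (piece a b h.le ω) =
      ∑ q ∈ univ.image (fun ω : Walk G n => (first a (by omega) ω, piece a b h.le ω)),
        F q.1 * F' q.2 := by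
    rw [sum_image (fun x _ y _ hxy => split2_inj a b h hxy)]
  have h2 : ∑ q : Walk G a × Walk G b, F q.1 * F' q.2 = (∑ ω, F ω) * ∑ ω, F' ω := by
    rw [Fintype.sum_prod_type, sum_mul_sum]
  rw [h1, ← h2]
  exact sum_le_sum_of_subset_of_nonneg (subset_univ _) (fun q _ _ => mul_nonneg (hF _) (hF' _))

/-- the value of `F` at the piece, `1` if there is no such piece -/
noncomputable def Fp {m : ℕ} (F : Walk G m → ℝ) (i : ℕ) (ω : Walk G n) : ℝ :=
  if h : i + m ≤ n then F (piece i m h ω) else 1

lemma Fp_nonneg {m : ℕ} {F : Walk G m → ℝ} (hF : ∀ ω, 0 ≤ F ω) (i : ℕ) (ω : Walk G n) :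
    0 ≤ Fp F i ω := by
  unfold Fp
  split_ifs
  · exact hF _
  · norm_num

lemma Fp_piece {m a b : ℕ} (F : Walk G m → ℝ) (h : a + b ≤ n) {i : ℕ} (hi : i + m ≤ b)
    (ω : Walk G n) : Fp F i (piece a b h ω) = Fp F (a + i) ω := by
  unfold Fp
  rw [dif_pos hi, dif_pos (show a + i + m ≤ n by omega), piece_piece h hi (by omega)]

theorem sum_prod {m : ℕ} (F : Walk G m → ℝ) (hF : ∀ ω, 0 ≤ F ω) (r N : ℕ) :
    ∀ n : ℕ, n = N * m + r → ∑ ω : Walk G n, ∏ k ∈ range N, Fp F (k * m) ω ≤
      (∑ ω, F ω) ^ N * Fintype.card (Walk G r) := by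
  induction N with
  | zero =>
    intro n hn
    have : n = r := by omega
    subst this
    simp
  | succ N ih =>
    intro n hn
    have hn' : m + (N * m + r) = n := by rw [hn]; ring
    have h1 : ∀ ω : Walk G n, ∏ k ∈ range (N + 1), Fp F (k * m) ω =
        F (first m (by omega) ω) *
          (fun η : Walk G (N * m + r) => ∏ k ∈ range N, Fp F (k * m) η)
            (piece m (N * m + r) hn'.le ω) := by
      intro ω
      rw [prod_range_succ', mul_comm]
      congr 1
      · unfold Fp
        rw [dif_pos (by omega)]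
        congr 1
        apply Subtype.ext
        funext k
        show sh G (ω.1 ⟨0 * m, _⟩) (ω.1 ⟨0 * m + k, _⟩) = ω.1 ⟨k, _⟩
        have e0 : (⟨0 * m, by omega⟩ : Fin (n + 1)) = 0 := Fin.ext (by simp)
        have e1 : (⟨0 * m + k, by omega⟩ : Fin (n + 1)) = ⟨k, by omega⟩ :=
          Fin.ext (by simp)
        rw [e0, e1, ω.2.1]
        generalize ω.1 ⟨k, by omega⟩ = p
        cases G with
        | square => exact sub_zero p
        | triangular => exact sub_zero p
        | honeycomb =>
          simp only [sh]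
          rw [if_pos (by simp)]
          exact sub_zero p
      · refine prod_congr rfl fun k hk => ?_
        rw [mem_range] at hk
        have h2 : (k + 1) * m ≤ N * m := Nat.mul_le_mul_right _ hk
        rw [Fp_piece F _ (by rw [add_mul, one_mul] at h2; omega)]
        congr 1
        ring
    rw [sum_congr rfl fun ω _ => h1 ω]
    refine (sum_split m (N * m + r) hn' F
      (fun η : Walk G (N * m + r) => ∏ k ∈ range N, Fp F (k * m) η) hF
      (fun η => prod_nonneg fun k _ => Fp_nonneg hF _ _)).trans ?_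
    rw [pow_succ', mul_assoc]
    exact mul_le_mul_of_nonneg_left (ih _ rfl) (sum_nonneg fun ω _ => hF ω)

theorem sum_prod' {m : ℕ} (F : Walk G m → ℝ) (hF : ∀ ω, 0 ≤ F ω) (j r N : ℕ)
    (hn : n = j + (N * m + r)) :
    ∑ ω : Walk G n, ∏ k ∈ range N, Fp F (j + k * m) ω ≤
      Fintype.card (Walk G j) * ((∑ ω, F ω) ^ N * Fintype.card (Walk G r)) := by
  have h1 : ∀ ω : Walk G n, ∏ k ∈ range N, Fp F (j + k * m) ω =
      (fun _ => (1 : ℝ)) (first j (by omega) ω) *
        (fun η : Walk G (N * m + r) => ∏ k ∈ range N, Fp F (k * m) η)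
          (piece j (N * m + r) hn.ge ω) := by
    intro ω
    rw [one_mul]
    refine prod_congr rfl fun k hk => ?_
    rw [mem_range] at hk
    have h2 : (k + 1) * m ≤ N * m := Nat.mul_le_mul_right _ hk
    rw [Fp_piece F _ (by rw [add_mul, one_mul] at h2; omega)]
  rw [sum_congr rfl fun ω _ => h1 ω]
  refine (sum_split j (N * m + r) hn.symm (fun _ => 1)
    (fun η : Walk G (N * m + r) => ∏ k ∈ range N, Fp F (k * m) η) (fun _ => zero_le_one)
    (fun η => prod_nonneg fun k _ => Fp_nonneg hF _ _)).trans ?_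
  rw [sum_const, nsmul_eq_mul, mul_one, card_univ]
  exact mul_le_mul_of_nonneg_left (sum_prod F hF r N _ rfl) (Nat.cast_nonneg _)

end Run7.h822.WN
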