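import Pool.Agent.Run7.h822.WN.Sub
import Pool.Agent.N932.FL.Half

/-!
# Winding angles of half-plane walks
-/

set_option autoImplicit false

namespace Run7.h822.WN

open Finset Run7.h529.FB Run7.h287.WN
open Pool.Agent.N932.FL (HalfLow halfLow_sq halfLow_tri halfLow_hex)

/-- A closed half-plane whose boundary is a line through the origin which contains vertices only, or
vertices and edges, of the lattice (it cuts no edge). -/
def Half : Lattice → ℤ × ℤ → Prop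
  | .triangular => fun p => 0 ≤ p.1 + p.2
  | _ => fun p => 0 ≤ p.1

theorem halfLow (G : Lattice) : HalfLow (Adj G) (Half G) := by
  cases G with
  | square => exact halfLow_sq
  | triangular => exact halfLow_tri
  | honeycomb => exact halfLow_hex

lemma card_walks (G : Lattice) (n : ℕ) : (Fintype.card (Walk G n) : ℝ) =
    (({f : Fin (n + 1) → ℤ × ℤ | f 0 = 0 ∧ Function.Injective f ∧
            ∀ i : Fin n, Adj G (f i.castSucc) (f i.succ)}.ncard : ℕ) : ℝ) := by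
  rw [← Nat.card_eq_fintype_card, ← Nat.card_coe_set_eq]
  rfl

lemma card_half (G : Lattice) (n : ℕ) (D : ℤ × ℤ → Prop) :
    (Nat.card {ω : Walk G n // ∀ i, D (ω.1 i)} : ℝ) =
    (({f : Fin (n + 1) → ℤ × ℤ | f 0 = 0 ∧ Function.Injective f ∧
      (∀ i : Fin n, Adj G (f i.castSucc) (f i.succ)) ∧ ∀ i, D (f i)}.ncard : ℕ) : ℝ) := by
  rw [← Nat.card_coe_set_eq]
  congr 1
  apply Nat.card_congr
  exact
    { toFun := fun ω => ⟨ω.1.1, ω.1.2.1, ω.1.2.2.1, ω.1.2.2.2, ω.2⟩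
      invFun := fun f => ⟨⟨f.1, f.2.1, f.2.2.1, f.2.2.2.1⟩, f.2.2.2.2⟩
      left_inv := fun _ => rfl
      right_inv := fun _ => rfl }

open Classical in
lemma card_sub {G : Lattice} {n : ℕ} (P : Walk G n → Prop) :
    (Nat.card {ω : Walk G n // P ω} : ℝ) = ((univ.filter P).card : ℝ) := by
  rw [Nat.card_eq_fintype_card, Fintype.card_subtype]

theorem in_sets : ∃ K : ℝ, 0 < K ∧ ∀ G : Lattice, ∀ n : ℕ, 2 ≤ n → ∀ x : ℝ, 0 ≤ x →
    (∀ (D : ℤ × ℤ → Prop) (E : ℝ), 0 ≤ E →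
      Real.exp (-E) * (Nat.card (Walk G n) : ℝ) ≤ Nat.card {ω : Walk G n // ∀ i, D (ω.1 i)} →
      (Nat.card {ω : Walk G n // (∀ i, D (ω.1 i)) ∧ Winds ω (K * (Real.log n ^ 2 + E + x))} : ℝ) ≤
        Real.exp (-x) * Nat.card {ω : Walk G n // ∀ i, D (ω.1 i)}) ∧
    (Nat.card {ω : Walk G n // (∀ i, Half G (ω.1 i)) ∧ Winds ω (K * (Real.log n ^ 2 + x))} : ℝ) ≤
      Real.exp (-x) * Nat.card {ω : Walk G n // ∀ i, Half G (ω.1 i)} := by
  classical
  obtain ⟨K, hK, H⟩ := main_set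
  have hH : ∀ G : Lattice, ∃ K1 : ℝ, 0 ≤ K1 ∧ ∀ n : ℕ, 2 ≤ n →
      Real.exp (-(K1 * Real.log n ^ 2)) * (Nat.card (Walk G n) : ℝ) ≤
        Nat.card {ω : Walk G n // ∀ i, Half G (ω.1 i)} := by
    intro G
    obtain ⟨K1, hK1, h⟩ := halfLow G
    refine ⟨K1, hK1, fun n hn => ?_⟩
    rw [card_half, Nat.card_eq_fintype_card, card_walks]
    exact h n hn
  obtain ⟨Ks, hKs, hs⟩ := hH .square
  obtain ⟨Kt, hKt, ht⟩ := hH .triangular
  obtain ⟨Kh, hKh, hh⟩ := hH .honeycomb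
  have hmain : ∀ G : Lattice, ∀ n : ℕ, 2 ≤ n → ∀ x : ℝ, 0 ≤ x →
      ∀ (D : ℤ × ℤ → Prop) (E : ℝ), 0 ≤ E →
      Real.exp (-E) * (Nat.card (Walk G n) : ℝ) ≤ Nat.card {ω : Walk G n // ∀ i, D (ω.1 i)} →
      (Nat.card {ω : Walk G n // (∀ i, D (ω.1 i)) ∧ Winds ω (K * (Real.log n ^ 2 + E + x))} : ℝ) ≤
        Real.exp (-x) * Nat.card {ω : Walk G n // ∀ i, D (ω.1 i)} := by
    intro G n hn x hx D E hE hD
    rw [card_sub, Nat.card_eq_fintype_card] at hD
    have h1 := H G n hn _ E x hE hx hD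
    rw [filter_filter] at h1
    rw [card_sub, card_sub]
    convert h1
  set K2 : ℝ := K * (1 + Ks + Kt + Kh) with hK2
  have hK2K : K ≤ K2 := by rw [hK2]; nlinarith [mul_nonneg hK.le hKs, mul_nonneg hK.le hKt, mul_nonneg hK.le hKh]
  have hmono : ∀ {G : Lattice} {n : ℕ} {ω : Walk G n} {a b : ℝ}, a ≤ b → Winds ω b →
      Winds ω a := by
    rintro G n ω a b hab ⟨s, t, hst, ht, h1 | ⟨z, hz, h1⟩⟩
    · exact ⟨s, t, hst, ht, Or.inl (lt_of_le_of_lt hab h1)⟩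
    · exact ⟨s, t, hst, ht, Or.inr ⟨z, hz, lt_of_le_of_lt hab h1⟩⟩
  have hcm : ∀ {G : Lattice} {n : ℕ} (D : ℤ × ℤ → Prop) {a b : ℝ}, a ≤ b →
      (Nat.card {ω : Walk G n // (∀ i, D (ω.1 i)) ∧ Winds ω b} : ℝ) ≤
      (Nat.card {ω : Walk G n // (∀ i, D (ω.1 i)) ∧ Winds ω a} : ℝ) := by
    intro G n D a b hab
    rw [card_sub, card_sub]
    exact_mod_cast card_le_card (fun ω hω => by
      simp only [mem_filter, mem_univ, true_and] at hω ⊢
      exact ⟨hω.1, hmono hab hω.2⟩)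
  refine ⟨K2, by positivity, fun G n hn x hx => ⟨fun D E hE hD => ?_, ?_⟩⟩
  · refine (hcm D ?_).trans (hmain G n hn x hx D E hE hD)
    exact mul_le_mul_of_nonneg_right hK2K (by positivity)
  · have hL : 0 ≤ Real.log n ^ 2 := by positivity
    have key : ∀ K1 : ℝ, 0 ≤ K1 → 1 + K1 ≤ 1 + Ks + Kt + Kh →
        Real.exp (-(K1 * Real.log n ^ 2)) * (Nat.card (Walk G n) : ℝ) ≤
          Nat.card {ω : Walk G n // ∀ i, Half G (ω.1 i)} →
        (Nat.card {ω : Walk G n // (∀ i, Half G (ω.1 i)) ∧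
          Winds ω (K2 * (Real.log n ^ 2 + x))} : ℝ) ≤
          Real.exp (-x) * Nat.card {ω : Walk G n // ∀ i, Half G (ω.1 i)} := by
      intro K1 hK1 h1 h2
      refine (hcm (Half G) ?_).trans
        (hmain G n hn x hx (Half G) (K1 * Real.log n ^ 2) (by positivity) h2)
      rw [hK2, mul_assoc]
      refine mul_le_mul_of_nonneg_left ?_ hK.le
      have h3 : (1 + K1) * Real.log n ^ 2 ≤ (1 + Ks + Kt + Kh) * Real.log n ^ 2 :=
        mul_le_mul_of_nonneg_right h1 hL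
      have h4 : x ≤ (1 + Ks + Kt + Kh) * x := by nlinarith [mul_nonneg hKs hx, mul_nonneg hKt hx, mul_nonneg hKh hx]
      nlinarith
    cases G with
    | square => exact key Ks hKs (by linarith) (hs n hn)
    | triangular => exact key Kt hKt (by linarith) (ht n hn)
    | honeycomb => exact key Kh hKh (by linarith) (hh n hn)

end Run7.h822.WN
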