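import Pool.Agent.Run7.h822.WN.AllTimes

/-!
# Limits of the uniform self-avoiding walks as the length tends to infinity
-/

set_option autoImplicit false

namespace Run7.h822.WN

open Finset Run7.h529.FB Run7.h287.WN MeasureTheory Filter Topology

/-- `μ` is a limit point of the laws of the uniform `n`-step walks on `G` as `n → ∞`: along some
sequence of lengths which tends to infinity, for all `m` and `w` the probability that the first
`m + 1` sites are `w` converges to the `μ`-measure of the infinite paths with this property. -/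
def IsLimit (G : Lattice) (μ : Measure (ℕ → ℤ × ℤ)) : Prop :=
  ∃ N : ℕ → ℕ, Tendsto N atTop atTop ∧ ∀ (m : ℕ) (w : Fin (m + 1) → ℤ × ℤ),
    Tendsto (fun k => prob G (N k) (fun ω => ∀ i : Fin (m + 1), vertex ω i = w i)) atTop
      (𝓝 (μ {γ | ∀ i : Fin (m + 1), γ i = w i}).toReal)

/-- the infinite paths with first sites `w` -/
def cyl {m : ℕ} (w : Fin (m + 1) → ℤ × ℤ) : Set (ℕ → ℤ × ℤ) :=
  {γ | ∀ i : Fin (m + 1), γ i = w i}

lemma measurable_cyl {m : ℕ} (w : Fin (m + 1) → ℤ × ℤ) : MeasurableSet (cyl w) := by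
  have h : cyl w = ⋂ i : Fin (m + 1), (fun γ : ℕ → ℤ × ℤ => γ i) ⁻¹' {w i} := by
    ext γ
    simp [cyl]
  rw [h]
  exact MeasurableSet.iInter fun i => (measurable_pi_apply _) (measurableSet_singleton _)

lemma disjoint_cyl {m : ℕ} {w w' : Fin (m + 1) → ℤ × ℤ} (h : w ≠ w') :
    Disjoint (cyl w) (cyl w') := by
  rw [Set.disjoint_left]
  intro γ h1 h2
  exact h (funext fun i => (h1 i).symm.trans (h2 i))

theorem limit_le {G : Lattice} {μ : Measure (ℕ → ℤ × ℤ)} [IsProbabilityMeasure μ]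
    (hμ : IsLimit G μ) (T : ℕ) (Q : (ℕ → ℤ × ℤ) → Prop)
    (hQ : ∀ q q' : ℕ → ℤ × ℤ, (∀ i, i ≤ T → q i = q' i) → Q q → Q q') {ε : ℝ} (hε : 0 ≤ ε)
    (h : ∀ n, 2 ≤ n → T ≤ n → 1 - ε ≤ prob G n (fun ω => Q (vertex ω))) :
    μ {γ | ¬ Q γ} ≤ ENNReal.ofReal ε := by
  classical
  obtain ⟨N, hN, hw⟩ := hμ
  set S : Finset (Walk G T) := univ.filter (fun w => Q (vertex w)) with hS
  set U : Set (ℕ → ℤ × ℤ) := ⋃ w ∈ S, cyl w.1 with hU
  have hUm : MeasurableSet U := Finset.measurableSet_biUnion _ (fun w _ => measurable_cyl _)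
  have h1 : (μ U).toReal = ∑ w ∈ S, (μ (cyl w.1)).toReal := by
    rw [hU, measure_biUnion_finset (fun w _ w' _ hne => disjoint_cyl fun he => hne (Subtype.ext he))
      (fun w _ => measurable_cyl _), ENNReal.toReal_sum fun w _ => measure_ne_top _ _]
  have h2 : Tendsto (fun k => ∑ w ∈ S, prob G (N k) (fun ω => ∀ i : Fin (T + 1),
      vertex ω i = w.1 i)) atTop (𝓝 (μ U).toReal) := by
    rw [h1]
    exact tendsto_finsetSum _ fun w _ => hw T w.1
  have h3 : 1 - ε ≤ (μ U).toReal := by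
    refine ge_of_tendsto h2 ?_
    filter_upwards [hN.eventually_ge_atTop (max 2 T)] with k hk
    have hk2 : 2 ≤ N k := (le_max_left _ _).trans hk
    have hkT : T ≤ N k := (le_max_right _ _).trans hk
    refine (h (N k) hk2 hkT).trans ?_
    have e1 : ∑ w ∈ S, prob G (N k) (fun ω => ∀ i : Fin (T + 1), vertex ω i = w.1 i) =
        mean G (N k) (fun ω => ∑ w ∈ S, if (∀ i : Fin (T + 1), vertex ω i = w.1 i) then 1 else 0) := by
      unfold prob mean
      rw [← sum_div, sum_comm]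
      congr 1
      refine sum_congr rfl fun ω _ => sum_congr rfl fun w _ => ?_
      by_cases hc : ∀ i : Fin (T + 1), vertex ω i = w.1 i
      · rw [if_pos hc, if_pos hc]
      · rw [if_neg hc, if_neg hc]
    rw [e1]
    unfold prob
    apply mean_mono
    intro ω
    by_cases hq : Q (vertex ω)
    · rw [if_pos hq]
      have hmem : first T hkT ω ∈ S := by
        rw [hS, mem_filter]
        exact ⟨mem_univ _, hQ _ _ (fun i hi => (vertex_first hkT ω hi).symm) hq⟩
      have h4 := single_le_sum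
        (f := fun w : Walk G T => if (∀ i : Fin (T + 1), vertex ω i = w.1 i) then (1 : ℝ) else 0)
        (fun i _ => by
          show (0 : ℝ) ≤ if _ then 1 else 0
          split_ifs <;> norm_num) hmem
      have h5 : ∀ i : Fin (T + 1), vertex ω i = (first T hkT ω).1 i := by
        intro i
        rw [vertex_of_le ω (by omega)]
        rfl
      simp only [if_pos h5] at h4
      exact h4
    · rw [if_neg hq]
      exact sum_nonneg fun w _ => by split_ifs <;> norm_num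
  have h4 : {γ | ¬ Q γ} ⊆ Uᶜ := by
    intro γ hγ hγU
    apply hγ
    rw [hU, Set.mem_iUnion₂] at hγU
    obtain ⟨w, hwS, hwγ⟩ := hγU
    rw [hS, mem_filter] at hwS
    refine hQ _ _ (fun i hi => ?_) hwS.2
    rw [vertex_of_le w hi]
    exact (hwγ ⟨i, by omega⟩).symm
  refine (measure_mono h4).trans ?_
  rw [prob_compl_eq_one_sub hUm, tsub_le_iff_right]
  have h5 : μ U = ENNReal.ofReal (μ U).toReal := (ENNReal.ofReal_toReal (measure_ne_top _ _)).symm
  rw [h5, ← ENNReal.ofReal_add hε ENNReal.toReal_nonneg, ← ENNReal.ofReal_one]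
  exact ENNReal.ofReal_le_ofReal (by linarith)

theorem limit_all {K : ℝ} {G : Lattice} (H : ∀ n : ℕ, 2 ≤ n → ∀ x : ℝ, 0 ≤ x →
    1 - Real.exp (-x) ≤ prob G n (fun ω => ∀ s t : ℕ, s ≤ t → t ≤ n →
      Tame G (vertex ω) s t (K * (Real.log (t + 2) ^ 2 + x))))
    {μ : Measure (ℕ → ℤ × ℤ)} [IsProbabilityMeasure μ] (hμ : IsLimit G μ) {x : ℝ} (hx : 0 ≤ x) :
    μ {γ | ¬ ∀ s t : ℕ, s ≤ t → Tame G γ s t (K * (Real.log (t + 2) ^ 2 + x))} ≤
      ENNReal.ofReal (Real.exp (-x)) := by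
  have h1 : {γ | ¬ ∀ s t : ℕ, s ≤ t → Tame G γ s t (K * (Real.log (t + 2) ^ 2 + x))} =
      ⋃ T : ℕ, {γ | ¬ ∀ s t : ℕ, s ≤ t → t ≤ T →
        Tame G γ s t (K * (Real.log (t + 2) ^ 2 + x))} := by
    ext γ
    simp only [Set.mem_iUnion]
    constructor
    · intro h
      change ¬ ∀ s t : ℕ, s ≤ t → Tame G γ s t (K * (Real.log (t + 2) ^ 2 + x)) at h
      push Not at h
      obtain ⟨s, t, hst, hT⟩ := h
      exact ⟨t, fun hh => hT (hh s t hst le_rfl)⟩
    · rintro ⟨T, hT⟩ hh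
      exact hT fun s t hst _ => hh s t hst
  have hmono : Monotone (fun T : ℕ => {γ : ℕ → ℤ × ℤ | ¬ ∀ s t : ℕ, s ≤ t → t ≤ T →
      Tame G γ s t (K * (Real.log (t + 2) ^ 2 + x))}) := by
    intro T T' hTT' γ hγ hh
    exact hγ fun s t hst ht => hh s t hst (ht.trans hTT')
  rw [h1, hmono.measure_iUnion]
  refine iSup_le fun T => ?_
  refine limit_le hμ T _ (fun q q' hqq' hq s t hst ht => ?_) (Real.exp_pos _).le
    (fun n hn hT => ?_)
  · exact (hq s t hst ht).congr hst fun i hi => hqq' i (hi.trans ht)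
  · exact (H n hn x hx).trans (prob_mono fun ω h s t hst ht => h s t hst (ht.trans hT))

theorem limit_ae {K : ℝ} (hK : 0 < K) {G : Lattice} {μ : Measure (ℕ → ℤ × ℤ)}
    (H : ∀ x : ℝ, 0 ≤ x →
      μ {γ | ¬ ∀ s t : ℕ, s ≤ t → Tame G γ s t (K * (Real.log (t + 2) ^ 2 + x))} ≤
        ENNReal.ofReal (Real.exp (-x))) :
    ∀ᵐ γ ∂μ, ∃ t0 : ℕ, ∀ s t : ℕ, s ≤ t → t0 ≤ t → Tame G γ s t (5 * K * Real.log t ^ 2) := by
  rw [ae_iff]
  have h1 : ∀ j : ℕ, μ {γ | ¬ ∃ t0 : ℕ, ∀ s t : ℕ, s ≤ t → t0 ≤ t →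
      Tame G γ s t (5 * K * Real.log t ^ 2)} ≤ ENNReal.ofReal (Real.exp (-(j : ℝ))) := by
    intro j
    refine (measure_mono ?_).trans (H j (Nat.cast_nonneg j))
    intro γ hγ hh
    apply hγ
    refine ⟨max 2 ⌈Real.exp (j + 1)⌉₊, fun s t hst ht => (hh s t hst).mono hst ?_⟩
    have ht2 : (2 : ℝ) ≤ t := by exact_mod_cast (le_max_left _ _).trans ht
    have htj : Real.exp (j + 1) ≤ t :=
      (Nat.le_ceil _).trans (by exact_mod_cast (le_max_right _ _).trans ht)
    have e1 : Real.log ((t : ℝ) + 2) ≤ 2 * Real.log t := by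
      have : 2 * Real.log t = Real.log ((t : ℝ) ^ 2) := by rw [Real.log_pow]; norm_num
      rw [this]
      exact Real.log_le_log (by linarith) (by nlinarith)
    have e2 : (j : ℝ) + 1 ≤ Real.log t := by
      rw [Real.le_log_iff_exp_le (by linarith)]
      exact htj
    have hj : (0 : ℝ) ≤ j := Nat.cast_nonneg j
    have e3 := pow_le_pow_left₀ (Real.log_nonneg (by linarith)) e1 2
    have e4 : Real.log ((t : ℝ) + 2) ^ 2 + j ≤ 5 * Real.log t ^ 2 := by nlinarith
    calc K * (Real.log ((t : ℝ) + 2) ^ 2 + j) ≤ K * (5 * Real.log t ^ 2) :=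
          mul_le_mul_of_nonneg_left e4 hK.le
      _ = _ := by ring
  have h2 : Tendsto (fun j : ℕ => ENNReal.ofReal (Real.exp (-(j : ℝ)))) atTop (𝓝 0) := by
    rw [← ENNReal.ofReal_zero]
    refine ENNReal.tendsto_ofReal ?_
    exact Real.tendsto_exp_neg_atTop_nhds_zero.comp tendsto_natCast_atTop_atTop
  exact le_antisymm (ge_of_tendsto' h2 h1) zero_le

end Run7.h822.WN
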