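import Pool.Agent.Run7.h822.WN.Wind
import Pool.Agent.Run7.h529.FB.ZFin

/-!
# Winding angles and total turning of typical self-avoiding walks, square and honeycomb lattices
-/

set_option autoImplicit false

namespace Run7.h822.WN

open Finset Complex Run7.h529.FB

/-- The position of the vertices in the plane (edges of length one). -/
noncomputable def pos : Lattice → ℤ × ℤ → ℂ
  | .square => fun p => ⟨p.1, p.2⟩
  | .triangular => fun p => ⟨p.1 + p.2 / 2, Real.sqrt 3 / 2 * p.2⟩
  | .honeycomb => fun p =>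
      ⟨3 / 2 * p.2 + (if Even (p.1 + p.2) then 1 / 4 else -1 / 4), Real.sqrt 3 / 2 * p.1⟩

lemma one_le_norm {z : ℂ} (h : 1 ≤ z.re * z.re + z.im * z.im) : 1 ≤ ‖z‖ := by
  have h1 : 1 ≤ normSq z := by rw [normSq_apply]; exact h
  rw [normSq_eq_norm_sq] at h1
  have := norm_nonneg z
  nlinarith

lemma norm_eq_one' {z : ℂ} (h : z.re * z.re + z.im * z.im = 1) : ‖z‖ = 1 := by
  have h1 : normSq z = 1 := by rw [normSq_apply]; exact h
  rw [normSq_eq_norm_sq] at h1
  have := norm_nonneg z
  nlinarith

lemma nb_square {p q : ℤ × ℤ} (h : |p.1 - q.1| + |p.2 - q.2| = 1) : Nb p q := by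
  unfold Nb
  simp only [Prod.ext_iff]
  rcases abs_cases (p.1 - q.1) with ⟨h1, h2⟩ | ⟨h1, h2⟩ <;>
    rcases abs_cases (p.2 - q.2) with ⟨h3, h4⟩ | ⟨h3, h4⟩ <;> omega

theorem emb_square : Emb (Adj .square) (pos .square) where
  nb p q h := nb_square h
  dist p q h := by
    apply one_le_norm
    simp only [pos, sub_re, sub_im]
    have h1 : 1 ≤ (p.1 - q.1) * (p.1 - q.1) + (p.2 - q.2) * (p.2 - q.2) := by
      by_contra hcon
      push Not at hcon
      have h2 : p.1 - q.1 = 0 := by nlinarith [mul_self_nonneg (p.1 - q.1), mul_self_nonneg (p.2 - q.2), Int.lt_iff_add_one_le.1 hcon]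
      have h3 : p.2 - q.2 = 0 := by nlinarith [mul_self_nonneg (p.1 - q.1), mul_self_nonneg (p.2 - q.2), Int.lt_iff_add_one_le.1 hcon]
      exact h (Prod.ext (by omega) (by omega))
    exact_mod_cast h1
  unit p q h := by
    apply norm_eq_one'
    simp only [pos, sub_re, sub_im]
    rcases nb_square h with rfl | rfl | rfl | rfl <;> (push_cast; ring)
  im_lt p q := by simp [pos]
  re_lt p q _ := by simp [pos]

/-- the honeycomb lattice with the two coordinates exchanged -/
def AdjH (p q : ℤ × ℤ) : Prop := Adj .honeycomb p.swap q.swap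

/-- the positions, with the two coordinates exchanged -/
noncomputable def posH (p : ℤ × ℤ) : ℂ := pos .honeycomb p.swap

lemma adjH_iff {p q : ℤ × ℤ} (h : AdjH p q) :
    (q = (p.1, p.2 + 1)) ∨ (q = (p.1, p.2 - 1)) ∨ (q = (p.1 + 1, p.2) ∧ Even (p.1 + p.2)) ∨
      (q = (p.1 - 1, p.2) ∧ ¬ Even (p.1 + p.2)) := by
  obtain ⟨a, b⟩ := p
  obtain ⟨c, d⟩ := q
  unfold AdjH Adj at h
  simp only [Prod.swap_prod_mk, Prod.mk_sub_mk, Prod.mk.injEq, Int.even_iff] at h ⊢
  omega

theorem emb_honey : Emb AdjH posH where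
  nb p q h := by
    rcases adjH_iff h with h | h | ⟨h, -⟩ | ⟨h, -⟩
    · exact Or.inl h
    · exact Or.inr (Or.inr (Or.inl h))
    · exact Or.inr (Or.inl h)
    · exact Or.inr (Or.inr (Or.inr h))
  dist p q h := by
    apply one_le_norm
    obtain ⟨a, b⟩ := p
    obtain ⟨c, d⟩ := q
    have h3 : Real.sqrt 3 * Real.sqrt 3 = 3 := Real.mul_self_sqrt (by norm_num)
    simp only [posH, pos, Prod.swap_prod_mk, sub_re, sub_im]
    have e : (Real.sqrt 3 / 2 * (b : ℝ) - Real.sqrt 3 / 2 * (d : ℝ)) *
        (Real.sqrt 3 / 2 * (b : ℝ) - Real.sqrt 3 / 2 * (d : ℝ)) =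
        3 / 4 * (((b : ℝ) - d) * ((b : ℝ) - d)) := by
      have : (Real.sqrt 3 / 2 * (b : ℝ) - Real.sqrt 3 / 2 * (d : ℝ)) *
        (Real.sqrt 3 / 2 * (b : ℝ) - Real.sqrt 3 / 2 * (d : ℝ)) =
        (Real.sqrt 3 * Real.sqrt 3) / 4 * (((b : ℝ) - d) * ((b : ℝ) - d)) := by ring
      rw [this, h3]
    rw [e]
    by_cases hbd : b = d
    · subst hbd
      have hac : a ≠ c := fun hac => h (by rw [hac])
      rw [sub_self, mul_zero, mul_zero, add_zero]
      rcases lt_or_gt_of_ne hac with hac | hac
      · have h4 : (a : ℝ) + 1 ≤ c := by exact_mod_cast hac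
        split_ifs <;> nlinarith
      · have h4 : (c : ℝ) + 1 ≤ a := by exact_mod_cast hac
        split_ifs <;> nlinarith
    · by_cases hbd2 : |b - d| = 1
      · -- the difference of the heights is at least one half
        have h5 : ((b : ℝ) - d) * ((b : ℝ) - d) = 1 := by
          have : (b - d) * (b - d) = 1 := by
            rw [← abs_mul_abs_self, hbd2]; norm_num
          exact_mod_cast this
        rw [h5]
        have hpar : Even (b + a) ↔ ¬ (Even (d + c) ↔ Even (a - c)) := by
          rcases abs_cases (b - d) with ⟨h6, h7⟩ | ⟨h6, h7⟩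
          · simp only [Int.even_iff]; omega
          · simp only [Int.even_iff]; omega
        have key : ∀ k : ℝ, (1 / 4 : ℝ) ≤ k * k → 1 ≤ k * k + 3 / 4 * 1 := by
          intro k hk; linarith
        apply key
        by_cases hac : a = c
        · subst hac
          rw [sub_self] at hpar
          have hz : Even (0 : ℤ) := ⟨0, rfl⟩
          simp only [hz, iff_true] at hpar
          by_cases h1 : Even (b + a)
          · rw [if_pos h1, if_neg (hpar.1 h1)]; nlinarith
          · have h2 : Even (d + a) := by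
              by_contra h2; exact h1 (hpar.2 h2)
            rw [if_neg h1, if_pos h2]; nlinarith
        · rcases lt_or_gt_of_ne hac with hac | hac
          · have h4 : (a : ℝ) + 1 ≤ c := by exact_mod_cast hac
            split_ifs <;> nlinarith
          · have h4 : (c : ℝ) + 1 ≤ a := by exact_mod_cast hac
            split_ifs <;> nlinarith
      · have h6 : 4 ≤ (b - d) * (b - d) := by
          have h7 : 2 ≤ |b - d| := by
            have : 0 < |b - d| := abs_pos.2 (by omega)
            omega
          rw [← abs_mul_abs_self]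
          nlinarith
        have h7 : (4 : ℝ) ≤ ((b : ℝ) - d) * ((b : ℝ) - d) := by exact_mod_cast h6
        nlinarith [mul_self_nonneg (3 / 2 * (a : ℝ) + (if Even (b + a) then 1 / 4 else -1 / 4) -
          (3 / 2 * (c : ℝ) + (if Even (d + c) then 1 / 4 else -1 / 4)))]
  unit p q h := by
    apply norm_eq_one'
    have h3 : Real.sqrt 3 * Real.sqrt 3 = 3 := Real.mul_self_sqrt (by norm_num)
    obtain ⟨a, b⟩ := p
    simp only [posH, pos, sub_re, sub_im]
    rcases adjH_iff h with rfl | rfl | ⟨rfl, he⟩ | ⟨rfl, he⟩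
    · simp only [Prod.swap_prod_mk]
      by_cases h1 : Even (b + a)
      · have h2 : ¬ Even (b + 1 + a) := by rw [Int.even_iff] at *; omega
        rw [if_pos h1, if_neg h2]; push_cast; nlinarith
      · have h2 : Even (b + 1 + a) := by rw [Int.even_iff] at *; omega
        rw [if_neg h1, if_pos h2]; push_cast; nlinarith
    · simp only [Prod.swap_prod_mk]
      by_cases h1 : Even (b + a)
      · have h2 : ¬ Even (b - 1 + a) := by rw [Int.even_iff] at *; omega
        rw [if_pos h1, if_neg h2]; push_cast; nlinarith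
      · have h2 : Even (b - 1 + a) := by rw [Int.even_iff] at *; omega
        rw [if_neg h1, if_pos h2]; push_cast; nlinarith
    · simp only [Prod.swap_prod_mk] at he ⊢
      have h1 : Even (b + a) := by rw [Int.even_iff] at *; omega
      have h2 : ¬ Even (b + (a + 1)) := by rw [Int.even_iff] at *; omega
      rw [if_pos h1, if_neg h2]; push_cast; nlinarith
    · simp only [Prod.swap_prod_mk] at he ⊢
      have h1 : ¬ Even (b + a) := by rw [Int.even_iff] at *; omega
      have h2 : Even (b + (a - 1)) := by rw [Int.even_iff] at *; omega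
      rw [if_neg h1, if_pos h2]; push_cast; nlinarith
  im_lt p q := by
    have h3 : 0 < Real.sqrt 3 := Real.sqrt_pos.2 (by norm_num)
    simp only [posH, pos, Prod.fst_swap]
    constructor
    · intro h
      have : (p.2 : ℝ) < q.2 := by nlinarith
      exact_mod_cast this
    · intro h
      have : (p.2 : ℝ) < q.2 := by exact_mod_cast h
      nlinarith
  re_lt p q hpq := by
    simp only [posH, pos, Prod.fst_swap, Prod.snd_swap, hpq]
    constructor
    · intro h
      by_contra hcon
      push Not at hcon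
      rcases hcon.eq_or_lt with e | e
      · simp only [e, lt_self_iff_false] at h
      · have h4 : (q.1 : ℝ) + 1 ≤ p.1 := by exact_mod_cast e
        split_ifs at h <;> linarith
    · intro h
      have h4 : (p.1 : ℝ) + 1 ≤ q.1 := by exact_mod_cast h
      split_ifs <;> linarith

/-! ### walks -/

variable {G : Lattice} {n : ℕ}

/-- the vertex of the walk at time `i` -/
def site (ω : Walk G n) (i : ℕ) : ℤ × ℤ := ω.1 ⟨min i n, by omega⟩

lemma site_of_le (ω : Walk G n) {i : ℕ} (hi : i ≤ n) : site ω i = ω.1 ⟨i, by omega⟩ := by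
  have e : (⟨min i n, by omega⟩ : Fin (n + 1)) = ⟨i, by omega⟩ := Fin.ext (min_eq_left hi)
  unfold site
  rw [e]

lemma site_adj (ω : Walk G n) {i : ℕ} (hi : i < n) : Adj G (site ω i) (site ω (i + 1)) := by
  rw [site_of_le ω hi.le, site_of_le ω hi]
  exact ω.2.2.2 ⟨i, hi⟩

lemma site_inj (ω : Walk G n) {i j : ℕ} (hi : i ≤ n) (hj : j ≤ n) (h : site ω i = site ω j) :
    i = j := by
  rw [site_of_le ω hi, site_of_le ω hj] at h
  have := ω.2.2.1 h
  simpa using this

lemma cut_of_cutInto (ω : Walk G n) (h : ℤ × ℤ → ℤ) (γ : ℕ → ℤ × ℤ)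
    (hγ : ∀ i, i ≤ n → (γ i).2 = h (site ω i)) {m s t : ℕ} (hs : s ≤ n) (ht : t ≤ n)
    (hc : CutInto (fun i => h (ω.1 i)) m ⟨s, by omega⟩ ⟨t, by omega⟩) : Cut γ m s t := by
  obtain ⟨τ, h1, h2, h3⟩ := hc
  refine ⟨fun i => (τ i : ℕ), by simp only [h1], by simp only [h2], fun i hi => ?_⟩
  obtain ⟨g1, g2⟩ := h3 i hi
  have e : ∀ j : Fin (n + 1), (γ (j : ℕ)).2 = h (ω.1 j) := by
    intro j
    rw [hγ j (by omega), site_of_le ω (by omega)]
  refine ⟨g1, ?_⟩
  rcases g2 with g2 | g2
  · left
    intro k hk1 hk2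
    have hkn : k < n + 1 := lt_of_le_of_lt hk2 (τ (i + 1)).2
    have := g2 ⟨k, hkn⟩ hk1 hk2
    have e1 := e (τ i)
    have e2 := e (τ (i + 1))
    have e3 := e ⟨k, hkn⟩
    simp only at e3
    rw [e1, e2, e3]
    exact this
  · right
    intro k hk1 hk2
    have hkn : k < n + 1 := lt_of_le_of_lt hk2 (τ (i + 1)).2
    have := g2 ⟨k, hkn⟩ hk1 hk2
    have e1 := e (τ i)
    have e2 := e (τ (i + 1))
    have e3 := e ⟨k, hkn⟩
    simp only at e3
    rw [e1, e2, e3]
    exact this

/-- The coordinate which is used. -/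
def crd : Lattice → ℤ × ℤ → ℤ
  | .honeycomb => fun p => p.1
  | _ => fun p => p.2

lemma crd_mem (G : Lattice) : crd G ∈ Coords G := by
  cases G
  · exact Or.inr rfl
  · exact Or.inr (Or.inl rfl)
  · rfl

/-- The winding angle of the piece of the walk between the times `s` and `t` around the vertex `P`:
the sum of the angles at `P` of its steps. -/
noncomputable def winding (ω : Walk G n) (P : ℤ × ℤ) (s t : ℕ) : ℝ :=
  ∑ i ∈ Ico s t, arg ((pos G (site ω (i + 1)) - pos G P) / (pos G (site ω i) - pos G P))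

/-- The total turning of the piece of the walk between the times `s` and `t`: the sum of the angles
between its successive steps. -/
noncomputable def turning (ω : Walk G n) (s t : ℕ) : ℝ :=
  ∑ i ∈ Ico (s + 1) t, arg ((pos G (site ω (i + 1)) - pos G (site ω i)) /
    (pos G (site ω i) - pos G (site ω (i - 1))))

lemma turning_eq (ω : Walk G n) (s r : ℕ) :
    turning ω s (r + 1) = turn (fun i => pos G (site ω i)) s r := by
  unfold turning turn
  rw [← Finset.sum_Ico_add' (fun i => arg ((pos G (site ω (i + 1)) - pos G (site ω i)) /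
    (pos G (site ω i) - pos G (site ω (i - 1))))) s r 1]
  rfl

theorem winding_le (hG : G ≠ .triangular) (ω : Walk G n) {P : ℤ × ℤ} {s t : ℕ} (hst : s ≤ t)
    (ht : t ≤ n) (hP : ∀ i, s ≤ i → i ≤ t → site ω i ≠ P) :
    |winding ω P s t| ≤ 2 * Real.pi * (V (fun i => crd G (ω.1 i)) + 1) := by
  have hV := V_spec' ω (crd_mem G) (s := ⟨s, by omega⟩) (t := ⟨t, by omega⟩) hst
  cases G with
  | square =>
    exact wind_le emb_square (γ := site ω) hst (fun i _ hit => site_adj ω (by omega))
      (fun i j _ hit _ hjt e => site_inj ω (by omega) (by omega) e) hP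
      (cut_of_cutInto ω (crd .square) (site ω) (fun i _ => rfl) (by omega) ht hV)
  | triangular => exact absurd rfl hG
  | honeycomb =>
    have := wind_le emb_honey (γ := fun i => (site ω i).swap) (P := P.swap) hst
      (fun i _ hit => by
        unfold AdjH
        rw [Prod.swap_swap, Prod.swap_swap]
        exact site_adj ω (by omega))
      (fun i j _ hit _ hjt e => site_inj ω (by omega) (by omega) (Prod.swap_injective e))
      (fun i hi hit e => hP i hi hit (Prod.swap_injective e))
      (cut_of_cutInto ω (crd .honeycomb) _ (fun i _ => rfl) (by omega) ht hV)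
    simp only [posH, Prod.swap_swap] at this
    exact this

theorem turning_le (hG : G ≠ .triangular) (ω : Walk G n) {s t : ℕ} (hst : s ≤ t) (ht : t ≤ n) :
    |turning ω s t| ≤ 4 * Real.pi * (V (fun i => crd G (ω.1 i)) + 1) := by
  rcases hst.eq_or_lt with rfl | hst
  · unfold turning
    rw [Ico_eq_empty (by omega), sum_empty, abs_zero]
    have := Real.pi_pos
    positivity
  obtain ⟨r, rfl⟩ : ∃ r, t = r + 1 := ⟨t - 1, by omega⟩
  have hV1 := V_spec' ω (crd_mem G) (s := ⟨s + 1, by omega⟩) (t := ⟨r + 1, by omega⟩)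
    (by rw [Fin.mk_le_mk]; omega)
  have hV2 := V_spec' ω (crd_mem G) (s := ⟨s, by omega⟩) (t := ⟨r, by omega⟩)
    (by rw [Fin.mk_le_mk]; omega)
  rw [turning_eq]
  cases G with
  | square =>
    exact turn_le emb_square (γ := site ω) (by omega) (fun i _ hit => site_adj ω (by omega))
      (fun i j _ hit _ hjt e => site_inj ω (by omega) (by omega) e)
      (cut_of_cutInto ω (crd .square) (site ω) (fun i _ => rfl) (by omega) (by omega) hV1)
      (cut_of_cutInto ω (crd .square) (site ω) (fun i _ => rfl) (by omega) (by omega) hV2)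
  | triangular => exact absurd rfl hG
  | honeycomb =>
    have := turn_le emb_honey (γ := fun i => (site ω i).swap) (s := s) (r := r) (by omega)
      (fun i _ hit => by
        unfold AdjH
        rw [Prod.swap_swap, Prod.swap_swap]
        exact site_adj ω (by omega))
      (fun i j _ hit _ hjt e => site_inj ω (by omega) (by omega) (Prod.swap_injective e))
      (cut_of_cutInto ω (crd .honeycomb) _ (fun i _ => rfl) (by omega) (by omega) hV1)
      (cut_of_cutInto ω (crd .honeycomb) _ (fun i _ => rfl) (by omega) (by omega) hV2)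
    simp only [posH, Prod.swap_swap] at this
    exact this

/-- All winding angles are at most `2 π m`, and all turnings at most `4 π m`. -/
def Turns (ω : Walk G n) (m : ℝ) : Prop :=
  ∀ s t : ℕ, s ≤ t → t ≤ n → |turning ω s t| ≤ 4 * Real.pi * m ∧
    ∀ P : ℤ × ℤ, (∀ i, s ≤ i → i ≤ t → site ω i ≠ P) → |winding ω P s t| ≤ 2 * Real.pi * m

/-- The least integer `m` with `Turns ω m`. -/
noncomputable def turns (ω : Walk G n) : ℕ := sInf {m : ℕ | Turns ω m}

lemma Turns.mono {ω : Walk G n} {a b : ℝ} (h : Turns ω a) (hab : a ≤ b) : Turns ω b := by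
  intro s t hst ht
  have hpi := Real.pi_pos
  refine ⟨(h s t hst ht).1.trans (by nlinarith), fun P hP => ((h s t hst ht).2 P hP).trans
    (by nlinarith)⟩

theorem turns_V (hG : G ≠ .triangular) (ω : Walk G n) :
    Turns ω ((V (fun i => crd G (ω.1 i)) + 1 : ℕ) : ℝ) := by
  intro s t hst ht
  push_cast
  exact ⟨turning_le hG ω hst ht, fun P hP => winding_le hG ω hst ht hP⟩

lemma turns_le (hG : G ≠ .triangular) (ω : Walk G n) :
    turns ω ≤ V (fun i => crd G (ω.1 i)) + 1 := Nat.sInf_le (turns_V hG ω)

theorem main : ∃ K : ℝ, 0 < K ∧ ∀ G : Lattice, G ≠ .triangular → ∀ n : ℕ, 2 ≤ n →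
    (∀ lam : ℝ, 1 ≤ lam → mean G n (fun ω => lam ^ turns ω) ≤
      Real.exp (K * lam ^ 2 * Real.log n ^ 2)) ∧
    (∀ x y : ℝ, 0 ≤ x → y = K * (Real.log n ^ 2 + x) →
      1 - Real.exp (-x) ≤ prob G n (fun ω => Turns ω y)) := by
  obtain ⟨K, hK, H⟩ := mean_V
  have hl2 : 0 < Real.log 2 := Real.log_pos (by norm_num)
  set C : ℝ := 1 / Real.log 2 ^ 2 with hC
  have hC0 : 0 < C := by positivity
  have he : Real.exp 1 ^ 2 ≤ 9 := by
    have := Real.exp_one_lt_d9
    have h0 := Real.exp_pos 1
    nlinarith
  have he1 : 1 ≤ Real.exp 1 := Real.one_le_exp (by norm_num)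
  have hlog : ∀ n : ℕ, 2 ≤ n → 1 ≤ C * Real.log n ^ 2 := by
    intro n hn
    have h1 : Real.log 2 ≤ Real.log n := Real.log_le_log (by norm_num) (by exact_mod_cast hn)
    rw [hC, one_div, ← div_eq_inv_mul, one_le_div (by positivity)]
    exact pow_le_pow_left₀ hl2.le h1 2
  refine ⟨9 * K + C + 1, by positivity, fun G hG n hn => ⟨fun lam hl => ?_, fun x y hx hy => ?_⟩⟩
  · have h1 : mean G n (fun ω => lam ^ turns ω) ≤
        lam * mean G n (fun ω => lam ^ V (fun i => crd G (ω.1 i))) := by
      rw [← mean_const_mul]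
      apply mean_mono
      intro ω
      calc lam ^ turns ω ≤ lam ^ (V (fun i => crd G (ω.1 i)) + 1) :=
            pow_le_pow_right₀ hl (turns_le hG ω)
        _ = _ := by rw [pow_succ]; ring
    refine h1.trans ?_
    have h2 := H G n hn (crd G) (crd_mem G) lam hl
    have h3 : lam ≤ Real.exp (lam ^ 2 * (C * Real.log n ^ 2)) := by
      have h4 := hlog n hn
      have h5 : lam ≤ Real.exp lam := (Real.add_one_le_exp lam).trans' (by linarith)
      refine h5.trans (Real.exp_le_exp.mpr ?_)
      nlinarith [sq_nonneg lam]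
    calc lam * mean G n (fun ω => lam ^ V (fun i => crd G (ω.1 i))) ≤
          Real.exp (lam ^ 2 * (C * Real.log n ^ 2)) * Real.exp (K * lam ^ 2 * Real.log n ^ 2) := by
          refine mul_le_mul h3 h2 ?_ (Real.exp_pos _).le
          have h7 : mean G n (fun _ => 0) ≤ mean G n (fun ω => lam ^ V (fun i => crd G (ω.1 i))) :=
            mean_mono fun ω => by positivity
          refine le_trans (le_of_eq ?_) h7
          unfold mean
          simp
      _ = Real.exp ((K + C) * lam ^ 2 * Real.log n ^ 2) := by rw [← Real.exp_add]; ring_nf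
      _ ≤ _ := by
          apply Real.exp_le_exp.mpr
          have : 0 ≤ lam ^ 2 * Real.log n ^ 2 := by positivity
          nlinarith
  · have hl0 : 0 ≤ Real.log n ^ 2 := by positivity
    have h1 : ∀ ω : Walk G n, @ite _ (¬ Turns ω y) (Classical.propDecidable _) (1 : ℝ) 0 ≤
        Real.exp (1 - y) * Real.exp 1 ^ V (fun i => crd G (ω.1 i)) := by
      intro ω
      by_cases h2 : Turns ω y
      · rw [if_neg (by simpa using h2)]
        positivity
      · rw [if_pos h2]
        have h4 : y < ((V (fun i => crd G (ω.1 i)) + 1 : ℕ) : ℝ) := by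
          by_contra hcon
          push Not at hcon
          exact h2 ((turns_V hG ω).mono hcon)
        push_cast at h4
        rw [← Real.exp_nat_mul, ← Real.exp_add]
        apply Real.one_le_exp
        linarith
    have h5 : prob G n (fun ω => ¬ Turns ω y) ≤ Real.exp (-x) := by
      calc prob G n (fun ω => ¬ Turns ω y) ≤
            mean G n (fun ω => Real.exp (1 - y) * Real.exp 1 ^ V (fun i => crd G (ω.1 i))) :=
            mean_mono h1
        _ = Real.exp (1 - y) * mean G n (fun ω => Real.exp 1 ^ V (fun i => crd G (ω.1 i))) :=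
            mean_const_mul _ _
        _ ≤ Real.exp (1 - y) * Real.exp (K * Real.exp 1 ^ 2 * Real.log n ^ 2) := by
            gcongr
            exact H G n hn (crd G) (crd_mem G) _ he1
        _ = Real.exp (1 - y + K * Real.exp 1 ^ 2 * Real.log n ^ 2) := (Real.exp_add _ _).symm
        _ ≤ _ := by
            apply Real.exp_le_exp.mpr
            rw [hy]
            have h6 : K * Real.exp 1 ^ 2 * Real.log n ^ 2 ≤ 9 * K * Real.log n ^ 2 := by
              have : K * Real.exp 1 ^ 2 ≤ 9 * K := by nlinarith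
              exact mul_le_mul_of_nonneg_right this hl0
            have h7 := hlog n hn
            nlinarith [mul_nonneg hK.le hx, mul_nonneg hC0.le hx]
    rw [prob_compl]
    exact sub_le_sub_left h5 1

end Run7.h822.WN
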