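import Mathlib

/-!
# A lattice bridge winds at most once around every point

A path on the square lattice (a piece of an injective sequence of nearest neighbours) whose second
coordinate is between those of its two end points crosses every horizontal half-line, with signs,
`0` or `±1` times. The proof extends the path by two vertical rays to a simple bi-infinite path;
the function `wf` on the unit squares (the number of signed crossings on their left) is constant on
the left side of the path.
-/

set_option autoImplicit false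

namespace Run7.h822.WN

open Finset

/-- The step from `p` to `q` crosses the half-line `y = b - 1/2`, `x < a`: `1` upwards, `-1`
downwards, `0` if it does not. -/
def cr (a b : ℤ) (p q : ℤ × ℤ) : ℤ :=
  if p.1 = q.1 ∧ p.1 < a then
    (if p.2 + 1 = b ∧ q.2 = b then 1 else if p.2 = b ∧ q.2 + 1 = b then -1 else 0) else 0

/-- the step from `p` to `q` is the vertical edge between `(a, b - 1)` and `(a, b)`, with sign -/
def ve (a b : ℤ) (p q : ℤ × ℤ) : ℤ :=
  if p = (a, b - 1) ∧ q = (a, b) then 1 else if p = (a, b) ∧ q = (a, b - 1) then -1 else 0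

/-- the step from `p` to `q` is the horizontal edge between `(a - 1, b)` and `(a, b)`, with sign -/
def he (a b : ℤ) (p q : ℤ × ℤ) : ℤ :=
  if p = (a - 1, b) ∧ q = (a, b) then 1 else if p = (a, b) ∧ q = (a - 1, b) then -1 else 0

/-- nearest neighbours -/
def Nb (p q : ℤ × ℤ) : Prop :=
  q = (p.1, p.2 + 1) ∨ q = (p.1 + 1, p.2) ∨ q = (p.1, p.2 - 1) ∨ q = (p.1 - 1, p.2)

/-- indicator as an integer -/
def ind (P : Prop) [Decidable P] : ℤ := if P then 1 else 0

/-- The number of signed crossings of the extended path on the left of the unit square with the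
centre `(a - 1/2, b - 1/2)`. -/
def wf (γ : ℕ → ℤ × ℤ) (s t : ℕ) (a b : ℤ) : ℤ :=
  ∑ i ∈ Ico s t, cr a b (γ i) (γ (i + 1)) + ind ((γ s).1 < a ∧ b ≤ (γ s).2) +
    ind ((γ t).1 < a ∧ (γ t).2 < b)

lemma cr_succ_a {p q : ℤ × ℤ} (h : Nb p q) (a b : ℤ) :
    cr (a + 1) b p q - cr a b p q = ve a b p q := by
  obtain ⟨p1, p2⟩ := p
  unfold cr ve
  rcases h with rfl | rfl | rfl | rfl <;> simp only [Prod.mk.injEq, true_and, and_true] <;>
    split_ifs <;> omega

lemma cr_succ_b {p q : ℤ × ℤ} (h : Nb p q) (a b : ℤ) :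
    cr a (b + 1) p q - cr a b p q =
      ind (p.1 < a ∧ p.2 = b) - ind (q.1 < a ∧ q.2 = b) - he a b p q := by
  obtain ⟨p1, p2⟩ := p
  unfold cr he ind
  rcases h with rfl | rfl | rfl | rfl <;> simp only [Prod.mk.injEq, true_and, and_true] <;>
    split_ifs <;> omega

section path

variable {γ : ℕ → ℤ × ℤ} {s t : ℕ}

/-- moving right: the vertical edges between the two squares -/
lemma wf_succ_a (hst : ∀ i, s ≤ i → i < t → Nb (γ i) (γ (i + 1))) (a b : ℤ) :
    wf γ s t (a + 1) b - wf γ s t a b = ∑ i ∈ Ico s t, ve a b (γ i) (γ (i + 1)) +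
      ind ((γ s).1 = a ∧ b ≤ (γ s).2) + ind ((γ t).1 = a ∧ (γ t).2 < b) := by
  have h1 : ∑ i ∈ Ico s t, ve a b (γ i) (γ (i + 1)) =
      ∑ i ∈ Ico s t, cr (a + 1) b (γ i) (γ (i + 1)) - ∑ i ∈ Ico s t, cr a b (γ i) (γ (i + 1)) := by
    rw [← sum_sub_distrib]
    refine sum_congr rfl fun i hi => ?_
    rw [mem_Ico] at hi
    exact (cr_succ_a (hst i hi.1 hi.2) a b).symm
  rw [h1]
  unfold wf ind
  split_ifs <;> omega

/-- moving up: the horizontal edges between the two squares -/
lemma wf_succ_b (h0 : s ≤ t) (hst : ∀ i, s ≤ i → i < t → Nb (γ i) (γ (i + 1))) (a b : ℤ) :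
    wf γ s t a (b + 1) - wf γ s t a b = -∑ i ∈ Ico s t, he a b (γ i) (γ (i + 1)) := by
  have h1 : ∑ i ∈ Ico s t, cr a (b + 1) (γ i) (γ (i + 1)) -
      ∑ i ∈ Ico s t, cr a b (γ i) (γ (i + 1)) =
      ind ((γ s).1 < a ∧ (γ s).2 = b) - ind ((γ t).1 < a ∧ (γ t).2 = b) -
        ∑ i ∈ Ico s t, he a b (γ i) (γ (i + 1)) := by
    have h2 : ∑ i ∈ Ico s t, (ind ((γ i).1 < a ∧ (γ i).2 = b) -
        ind ((γ (i + 1)).1 < a ∧ (γ (i + 1)).2 = b)) =
        ind ((γ s).1 < a ∧ (γ s).2 = b) - ind ((γ t).1 < a ∧ (γ t).2 = b) := by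
      have h3 := Finset.sum_Ico_sub (fun i => ind ((γ i).1 < a ∧ (γ i).2 = b)) h0
      rw [← neg_inj, ← sum_neg_distrib]
      simp only [neg_sub]
      exact h3
    rw [← h2, ← sum_sub_distrib, ← sum_sub_distrib]
    refine sum_congr rfl fun i hi => ?_
    rw [mem_Ico] at hi
    exact cr_succ_b (hst i hi.1 hi.2) a b
  unfold wf
  have h3 : ind ((γ s).1 < a ∧ b + 1 ≤ (γ s).2) - ind ((γ s).1 < a ∧ b ≤ (γ s).2) =
      -ind ((γ s).1 < a ∧ (γ s).2 = b) := by
    unfold ind
    split_ifs <;> omega
  have h4 : ind ((γ t).1 < a ∧ (γ t).2 < b + 1) - ind ((γ t).1 < a ∧ (γ t).2 < b) =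
      ind ((γ t).1 < a ∧ (γ t).2 = b) := by
    unfold ind
    split_ifs <;> omega
  linarith

/-- an edge at a vertex of the path which is not used -/
lemma sum_zero (hinj : ∀ i j, s ≤ i → i ≤ t → s ≤ j → j ≤ t → γ i = γ j → i = j)
    {g : ℤ × ℤ → ℤ × ℤ → ℤ} {u : ℤ × ℤ} {j : ℕ} (hs : s ≤ j) (ht : j < t)
    (hg : ∀ p q, g p q ≠ 0 → (p = γ j ∧ q = u) ∨ (p = u ∧ q = γ j))
    (h1 : γ (j + 1) ≠ u) (h2 : s < j → γ (j - 1) ≠ u) :
    ∑ i ∈ Ico s t, g (γ i) (γ (i + 1)) = 0 := by
  refine sum_eq_zero fun i hi => ?_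
  rw [mem_Ico] at hi
  by_contra hne
  rcases hg _ _ hne with ⟨e1, e2⟩ | ⟨e1, e2⟩
  · have := hinj i j hi.1 hi.2.le hs ht.le e1
    subst this
    exact h1 e2
  · have := hinj (i + 1) j (by omega) (by omega) hs ht.le e2
    subst this
    exact h2 (by omega) (by simpa using e1)

variable (h0 : s < t) (hst : ∀ i, s ≤ i → i < t → Nb (γ i) (γ (i + 1)))
  (hinj : ∀ i j, s ≤ i → i ≤ t → s ≤ j → j ≤ t → γ i = γ j → i = j)
  (hbr : ∀ i, s ≤ i → i ≤ t → (γ s).2 ≤ (γ i).2 ∧ (γ i).2 ≤ (γ t).2)

include h0 hst hinj hbr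

/-- the edge above a vertex is not used: the two squares above the vertex have the same value -/
lemma noN {j : ℕ} (hs : s ≤ j) (ht : j < t) (h1 : γ (j + 1) ≠ ((γ j).1, (γ j).2 + 1))
    (h2 : s < j → γ (j - 1) ≠ ((γ j).1, (γ j).2 + 1)) :
    wf γ s t ((γ j).1 + 1) ((γ j).2 + 1) = wf γ s t (γ j).1 ((γ j).2 + 1) := by
  have e := wf_succ_a hst (γ j).1 ((γ j).2 + 1)
  rw [sum_zero hinj hs ht (u := ((γ j).1, (γ j).2 + 1)) ?_ h1 h2] at e
  · have b1 := hbr j hs ht.le
    have e1 : ¬ ((γ s).1 = (γ j).1 ∧ (γ j).2 + 1 ≤ (γ s).2) := by omega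
    have e2 : ¬ ((γ t).1 = (γ j).1 ∧ (γ t).2 < (γ j).2 + 1) := by
      rintro ⟨g1, g2⟩
      have : γ t = γ j := Prod.ext g1 (by omega)
      have := hinj t j h0.le le_rfl hs ht.le this
      omega
    unfold ind at e
    rw [if_neg e1, if_neg e2] at e
    omega
  · intro p q h
    unfold ve at h
    have e3 : (γ j).2 + 1 - 1 = (γ j).2 := by ring
    rw [e3] at h
    split_ifs at h with h3 h4
    · exact Or.inl ⟨h3.1, h3.2⟩
    · exact Or.inr ⟨h4.1, h4.2⟩
    · exact absurd rfl h

/-- the edge below a vertex is not used -/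
lemma noS {j : ℕ} (hs : s < j) (ht : j < t) (h1 : γ (j + 1) ≠ ((γ j).1, (γ j).2 - 1))
    (h2 : γ (j - 1) ≠ ((γ j).1, (γ j).2 - 1)) :
    wf γ s t ((γ j).1 + 1) (γ j).2 = wf γ s t (γ j).1 (γ j).2 := by
  have e := wf_succ_a hst (γ j).1 (γ j).2
  rw [sum_zero hinj hs.le ht (u := ((γ j).1, (γ j).2 - 1)) ?_ h1 (fun _ => h2)] at e
  · have b1 := hbr j hs.le ht.le
    have e2 : ¬ ((γ t).1 = (γ j).1 ∧ (γ t).2 < (γ j).2) := by omega
    have e1 : ¬ ((γ s).1 = (γ j).1 ∧ (γ j).2 ≤ (γ s).2) := by
      rintro ⟨g1, g2⟩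
      have : γ s = γ j := Prod.ext g1 (by omega)
      have := hinj s j le_rfl h0.le hs.le ht.le this
      omega
    unfold ind at e
    rw [if_neg e1, if_neg e2] at e
    omega
  · intro p q h
    unfold ve at h
    split_ifs at h with h3 h4
    · exact Or.inr ⟨h3.1, h3.2⟩
    · exact Or.inl ⟨h4.1, h4.2⟩
    · exact absurd rfl h

/-- the edge to the right of a vertex is not used -/
lemma noE {j : ℕ} (hs : s ≤ j) (ht : j < t) (h1 : γ (j + 1) ≠ ((γ j).1 + 1, (γ j).2))
    (h2 : s < j → γ (j - 1) ≠ ((γ j).1 + 1, (γ j).2)) :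
    wf γ s t ((γ j).1 + 1) ((γ j).2 + 1) = wf γ s t ((γ j).1 + 1) (γ j).2 := by
  have e := wf_succ_b h0.le hst ((γ j).1 + 1) (γ j).2
  rw [sum_zero hinj hs ht (u := ((γ j).1 + 1, (γ j).2)) ?_ h1 h2] at e
  · omega
  · intro p q h
    unfold he at h
    have e3 : (γ j).1 + 1 - 1 = (γ j).1 := by ring
    rw [e3] at h
    split_ifs at h with h3 h4
    · exact Or.inl ⟨h3.1, h3.2⟩
    · exact Or.inr ⟨h4.1, h4.2⟩
    · exact absurd rfl h

/-- the edge to the left of a vertex is not used -/
lemma noW {j : ℕ} (hs : s ≤ j) (ht : j < t) (h1 : γ (j + 1) ≠ ((γ j).1 - 1, (γ j).2))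
    (h2 : s < j → γ (j - 1) ≠ ((γ j).1 - 1, (γ j).2)) :
    wf γ s t (γ j).1 ((γ j).2 + 1) = wf γ s t (γ j).1 (γ j).2 := by
  have e := wf_succ_b h0.le hst (γ j).1 (γ j).2
  rw [sum_zero hinj hs ht (u := ((γ j).1 - 1, (γ j).2)) ?_ h1 h2] at e
  · omega
  · intro p q h
    unfold he at h
    split_ifs at h with h3 h4
    · exact Or.inr ⟨h3.1, h3.2⟩
    · exact Or.inl ⟨h4.1, h4.2⟩
    · exact absurd rfl h

end path

/-- The square on the left of the step from `p` to `q`, by its upper right corner. -/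
def lf (p q : ℤ × ℤ) : ℤ × ℤ :=
  if q = (p.1, p.2 + 1) then (p.1, p.2 + 1)
  else if q = (p.1 + 1, p.2) then (p.1 + 1, p.2 + 1)
  else if q = (p.1, p.2 - 1) then (p.1 + 1, p.2)
  else (p.1, p.2)

section path

variable {γ : ℕ → ℤ × ℤ} {s t : ℕ}
variable (h0 : s < t) (hst : ∀ i, s ≤ i → i < t → Nb (γ i) (γ (i + 1)))
  (hinj : ∀ i j, s ≤ i → i ≤ t → s ≤ j → j ≤ t → γ i = γ j → i = j)
  (hbr : ∀ i, s ≤ i → i ≤ t → (γ s).2 ≤ (γ i).2 ∧ (γ i).2 ≤ (γ t).2)

lemma lf_up (p : ℤ × ℤ) : lf p (p.1, p.2 + 1) = (p.1, p.2 + 1) := by simp [lf]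
lemma lf_right (p : ℤ × ℤ) : lf p (p.1 + 1, p.2) = (p.1 + 1, p.2 + 1) := by simp [lf]
lemma lf_down (p : ℤ × ℤ) : lf p (p.1, p.2 - 1) = (p.1 + 1, p.2) := by
  unfold lf
  rw [if_neg, if_neg, if_pos rfl]
  · simp
  · simp only [Prod.mk.injEq]; omega
lemma lf_left (p : ℤ × ℤ) : lf p (p.1 - 1, p.2) = (p.1, p.2) := by
  unfold lf
  rw [if_neg, if_neg, if_neg]
  · simp
  · simp only [Prod.mk.injEq]; omega
  · simp

lemma lf_in_up (x y : ℤ) : lf (x, y - 1) (x, y) = (x, y) := by
  have := lf_up (x, y - 1)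
  simp only [sub_add_cancel] at this
  exact this
lemma lf_in_right (x y : ℤ) : lf (x - 1, y) (x, y) = (x, y + 1) := by
  have := lf_right (x - 1, y)
  simp only [sub_add_cancel] at this
  exact this
lemma lf_in_down (x y : ℤ) : lf (x, y + 1) (x, y) = (x + 1, y + 1) := by
  have := lf_down (x, y + 1)
  simp only [add_sub_cancel_right] at this
  exact this
lemma lf_in_left (x y : ℤ) : lf (x + 1, y) (x, y) = (x + 1, y) := by
  have := lf_left (x + 1, y)
  simp only [add_sub_cancel_right] at this
  exact this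

include h0 hst hinj hbr

/-- the function is zero on the left of the first step -/
lemma left_base : wf γ s t (lf (γ s) (γ (s + 1))).1 (lf (γ s) (γ (s + 1))).2 = 0 := by
  have hb : wf γ s t (γ s).1 (γ s).2 = 0 := by
    unfold wf
    have h1 : ∑ i ∈ Ico s t, cr (γ s).1 (γ s).2 (γ i) (γ (i + 1)) = 0 := by
      refine sum_eq_zero fun i hi => ?_
      rw [mem_Ico] at hi
      have b1 := hbr i hi.1 hi.2.le
      have b2 := hbr (i + 1) (by omega) (by omega)
      unfold cr
      split_ifs <;> omega
    have b3 := hbr t h0.le le_rfl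
    unfold ind
    rw [h1, if_neg (by omega), if_neg (by omega)]
    rfl
  have b1 := hbr (s + 1) (by omega) (by omega)
  rcases hst s le_rfl h0 with h | h | h | h
  · rw [h, lf_up]
    have := noW h0 hst hinj hbr le_rfl h0 (by rw [h]; simp only [ne_eq, Prod.mk.injEq]; omega)
      (by omega)
    rw [this, hb]
  · rw [h, lf_right]
    have h3 := noW h0 hst hinj hbr le_rfl h0 (by rw [h]; simp only [ne_eq, Prod.mk.injEq]; omega)
      (by omega)
    have h4 := noN h0 hst hinj hbr le_rfl h0 (by rw [h]; simp only [ne_eq, Prod.mk.injEq]; omega)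
      (by omega)
    simp only
    rw [h4, h3, hb]
  · rw [h] at b1
    simp only at b1
    omega
  · rw [h, lf_left]
    exact hb

/-- the function is constant on the left side of the path -/
lemma left_zero {j : ℕ} (hs : s ≤ j) (ht : j < t) :
    wf γ s t (lf (γ j) (γ (j + 1))).1 (lf (γ j) (γ (j + 1))).2 = 0 := by
  induction j, hs using Nat.le_induction with
  | base => exact left_base h0 hst hinj hbr
  | succ j hj ih =>
    have ih := ih (by omega)
    have hne : γ (j + 1 + 1) ≠ γ j := by
      intro h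
      have := hinj (j + 1 + 1) j (by omega) (by omega) hj (by omega) h
      omega
    have kN := noN h0 hst hinj hbr (j := j + 1) (by omega) ht
    have kS := noS h0 hst hinj hbr (j := j + 1) (by omega) ht
    have kE := noE h0 hst hinj hbr (j := j + 1) (by omega) ht
    have kW := noW h0 hst hinj hbr (j := j + 1) (by omega) ht
    simp only [Nat.add_sub_cancel] at kN kS kE kW
    obtain ⟨x, y, hv⟩ : ∃ x y : ℤ, γ (j + 1) = (x, y) := ⟨_, _, rfl⟩
    rw [hv] at kN kS kE kW
    have hj' := hst j hj (by omega)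
    have hj2 := hst (j + 1) (by omega) ht
    rw [hv] at hj' hj2
    rcases hj' with e | e | e | e
    · have hu : γ j = (x, y - 1) := by
        rw [Prod.ext_iff] at e ⊢
        simp only at e ⊢
        omega
      rw [hu, hv, lf_in_up] at ih
      simp only at ih
      rw [hu] at kN kS kE kW hne
      rcases hj2 with f | f | f | f
      · rw [hv, f, lf_up (x, y)]
        simp only
        rw [f] at kN kS kE kW
        have k0 := kW (by simp only [ne_eq, Prod.mk.injEq]; omega)
          (fun _ => by simp only [ne_eq, Prod.mk.injEq]; omega)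
        linarith
      · rw [hv, f, lf_right (x, y)]
        simp only
        rw [f] at kN kS kE kW
        have k0 := kW (by simp only [ne_eq, Prod.mk.injEq]; omega)
          (fun _ => by simp only [ne_eq, Prod.mk.injEq]; omega)
        have k1 := kN (by simp only [ne_eq, Prod.mk.injEq]; omega)
          (fun _ => by simp only [ne_eq, Prod.mk.injEq]; omega)
        linarith
      · exfalso
        apply hne
        rw [f]
      · rw [hv, f, lf_left (x, y)]
        simp only
        rw [f] at kN kS kE kW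
        linarith
    · have hu : γ j = (x - 1, y) := by
        rw [Prod.ext_iff] at e ⊢
        simp only at e ⊢
        omega
      rw [hu, hv, lf_in_right] at ih
      simp only at ih
      rw [hu] at kN kS kE kW hne
      rcases hj2 with f | f | f | f
      · rw [hv, f, lf_up (x, y)]
        simp only
        rw [f] at kN kS kE kW
        linarith
      · rw [hv, f, lf_right (x, y)]
        simp only
        rw [f] at kN kS kE kW
        have k0 := kN (by simp only [ne_eq, Prod.mk.injEq]; omega)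
          (fun _ => by simp only [ne_eq, Prod.mk.injEq]; omega)
        linarith
      · rw [hv, f, lf_down (x, y)]
        simp only
        rw [f] at kN kS kE kW
        have k0 := kN (by simp only [ne_eq, Prod.mk.injEq]; omega)
          (fun _ => by simp only [ne_eq, Prod.mk.injEq]; omega)
        have k1 := kE (by simp only [ne_eq, Prod.mk.injEq]; omega)
          (fun _ => by simp only [ne_eq, Prod.mk.injEq]; omega)
        linarith
      · exfalso
        apply hne
        rw [f]
    · have hu : γ j = (x, y + 1) := by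
        rw [Prod.ext_iff] at e ⊢
        simp only at e ⊢
        omega
      rw [hu, hv, lf_in_down] at ih
      simp only at ih
      rw [hu] at kN kS kE kW hne
      rcases hj2 with f | f | f | f
      · exfalso
        apply hne
        rw [f]
      · rw [hv, f, lf_right (x, y)]
        simp only
        rw [f] at kN kS kE kW
        linarith
      · rw [hv, f, lf_down (x, y)]
        simp only
        rw [f] at kN kS kE kW
        have k0 := kE (by simp only [ne_eq, Prod.mk.injEq]; omega)
          (fun _ => by simp only [ne_eq, Prod.mk.injEq]; omega)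
        linarith
      · rw [hv, f, lf_left (x, y)]
        simp only
        rw [f] at kN kS kE kW
        have k0 := kE (by simp only [ne_eq, Prod.mk.injEq]; omega)
          (fun _ => by simp only [ne_eq, Prod.mk.injEq]; omega)
        have k1 := kS (by simp only [ne_eq, Prod.mk.injEq]; omega)
          (by simp only [ne_eq, Prod.mk.injEq]; omega)
        linarith
    · have hu : γ j = (x + 1, y) := by
        rw [Prod.ext_iff] at e ⊢
        simp only at e ⊢
        omega
      rw [hu, hv, lf_in_left] at ih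
      simp only at ih
      rw [hu] at kN kS kE kW hne
      rcases hj2 with f | f | f | f
      · rw [hv, f, lf_up (x, y)]
        simp only
        rw [f] at kN kS kE kW
        have k0 := kS (by simp only [ne_eq, Prod.mk.injEq]; omega)
          (by simp only [ne_eq, Prod.mk.injEq]; omega)
        have k1 := kW (by simp only [ne_eq, Prod.mk.injEq]; omega)
          (fun _ => by simp only [ne_eq, Prod.mk.injEq]; omega)
        linarith
      · exfalso
        apply hne
        rw [f]
      · rw [hv, f, lf_down (x, y)]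
        simp only
        rw [f] at kN kS kE kW
        linarith
      · rw [hv, f, lf_left (x, y)]
        simp only
        rw [f] at kN kS kE kW
        have k0 := kS (by simp only [ne_eq, Prod.mk.injEq]; omega)
          (by simp only [ne_eq, Prod.mk.injEq]; omega)
        linarith

/-- **The planar lemma**: the path crosses the half-line `y = b - 1/2`, `x < a` at most once, with
signs. -/
theorem bridge_up (a b : ℤ) : 0 ≤ ∑ i ∈ Ico s t, cr a b (γ i) (γ (i + 1)) ∧
    ∑ i ∈ Ico s t, cr a b (γ i) (γ (i + 1)) ≤ 1 := by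
  by_cases hb : (γ s).2 < b ∧ b ≤ (γ t).2
  swap
  · have h1 : ∑ i ∈ Ico s t, cr a b (γ i) (γ (i + 1)) = 0 := by
      refine sum_eq_zero fun i hi => ?_
      rw [mem_Ico] at hi
      have b1 := hbr i hi.1 hi.2.le
      have b2 := hbr (i + 1) (by omega) (by omega)
      unfold cr
      split_ifs <;> omega
    rw [h1]
    norm_num
  have hw : ∀ a, wf γ s t a b = ∑ i ∈ Ico s t, cr a b (γ i) (γ (i + 1)) := by
    intro a
    unfold wf ind
    rw [if_neg (by omega), if_neg (by omega)]
    ring
  rw [← hw a]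
  set a0 : ℤ := -∑ i ∈ Icc s t, |(γ i).1| with ha0
  have hlow : ∀ i, s ≤ i → i ≤ t → a0 ≤ (γ i).1 := by
    intro i hi hit
    have h1 : |(γ i).1| ≤ ∑ i ∈ Icc s t, |(γ i).1| :=
      single_le_sum (f := fun i => |(γ i).1|) (fun _ _ => abs_nonneg _) (mem_Icc.2 ⟨hi, hit⟩)
    have h2 := neg_abs_le (γ i).1
    omega
  rcases le_total a a0 with ha | ha
  · have h1 : ∑ i ∈ Ico s t, cr a b (γ i) (γ (i + 1)) = 0 := by
      refine sum_eq_zero fun i hi => ?_
      rw [mem_Ico] at hi
      have b1 := hlow i hi.1 hi.2.le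
      unfold cr
      rw [if_neg (by omega)]
    rw [hw, h1]
    norm_num
  · induction a, ha using Int.le_induction with
    | base =>
      have h1 : ∑ i ∈ Ico s t, cr a0 b (γ i) (γ (i + 1)) = 0 := by
        refine sum_eq_zero fun i hi => ?_
        rw [mem_Ico] at hi
        have b1 := hlow i hi.1 hi.2.le
        unfold cr
        rw [if_neg (by omega)]
      rw [hw, h1]
      norm_num
    | succ a ha ih =>
      have e := wf_succ_a hst a b
      have e1 : ind ((γ s).1 = a ∧ b ≤ (γ s).2) = 0 := by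
        unfold ind; rw [if_neg (by omega)]
      have e2 : ind ((γ t).1 = a ∧ (γ t).2 < b) = 0 := by
        unfold ind; rw [if_neg (by omega)]
      rw [e1, e2, add_zero, add_zero] at e
      by_cases h1 : ∃ i, s ≤ i ∧ i < t ∧ γ i = (a, b - 1) ∧ γ (i + 1) = (a, b)
      · obtain ⟨i, hi, hit, g1, g2⟩ := h1
        have hl := left_zero h0 hst hinj hbr hi hit
        have g3 : lf (γ i) (γ (i + 1)) = (a, b) := by
          rw [g1, g2]; exact lf_in_up a b
        rw [g3] at hl
        simp only at hl
        have hs : ∑ i ∈ Ico s t, ve a b (γ i) (γ (i + 1)) = 1 := by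
          rw [sum_eq_single i]
          · unfold ve; rw [if_pos ⟨g1, g2⟩]
          · intro k hk hki
            rw [mem_Ico] at hk
            unfold ve
            rw [if_neg, if_neg]
            · rintro ⟨k1, k2⟩
              have := hinj k (i + 1) hk.1 hk.2.le (by omega) (by omega) (k1.trans g2.symm)
              have := hinj (k + 1) i (by omega) (by omega) hi hit.le (k2.trans g1.symm)
              omega
            · rintro ⟨k1, k2⟩
              exact hki (hinj k i hk.1 hk.2.le hi hit.le (k1.trans g1.symm))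
          · intro h
            exact absurd (mem_Ico.2 ⟨hi, hit⟩) h
        rw [hs, hl] at e
        omega
      · by_cases h2 : ∃ i, s ≤ i ∧ i < t ∧ γ i = (a, b) ∧ γ (i + 1) = (a, b - 1)
        · obtain ⟨i, hi, hit, g1, g2⟩ := h2
          have hl := left_zero h0 hst hinj hbr hi hit
          have g3 : lf (γ i) (γ (i + 1)) = (a + 1, b) := by
            rw [g1, g2]; exact lf_down (a, b)
          rw [g3] at hl
          simp only at hl
          rw [hl]
          norm_num
        · have hs : ∑ i ∈ Ico s t, ve a b (γ i) (γ (i + 1)) = 0 := by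
            refine sum_eq_zero fun k hk => ?_
            rw [mem_Ico] at hk
            unfold ve
            rw [if_neg, if_neg]
            · rintro ⟨k1, k2⟩; exact h2 ⟨k, hk.1, hk.2, k1, k2⟩
            · rintro ⟨k1, k2⟩; exact h1 ⟨k, hk.1, hk.2, k1, k2⟩
          rw [hs] at e
          omega

end path

end Run7.h822.WN
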