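import Pool.Agent.Run7.h822.WN.Sub
import Pool.Agent.Run7.h738.PG.Near

/-!
# Winding angles and turnings of the arcs of uniform self-avoiding polygons
-/

set_option autoImplicit false

namespace Run7.h822.WN

open Finset Complex Run7.h529.FB Run7.h287.WN
open Run7.h738.PG (Loop Loop_finite loops_lower)

/-- the winding angle of the arc of `a` steps from the time `s` around the point `P` -/
noncomputable def pWinding {m : ℕ} (f : ZMod m → ℤ × ℤ) (P : ℤ × ℤ) (s : ZMod m) (a : ℕ) : ℝ :=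
  ∑ k ∈ range a, arg ((pos .square (f (s + (k : ZMod m) + 1)) - pos .square P) /
    (pos .square (f (s + (k : ZMod m))) - pos .square P))

/-- the total turning of the arc of `a` steps from the time `s` -/
noncomputable def pTurning {m : ℕ} (f : ZMod m → ℤ × ℤ) (s : ZMod m) (a : ℕ) : ℝ :=
  ∑ k ∈ Ico 1 a, arg ((pos .square (f (s + (k : ZMod m) + 1)) - pos .square (f (s + (k : ZMod m)))) /
    (pos .square (f (s + (k : ZMod m))) - pos .square (f (s + (k : ZMod m) - 1))))

/-- the walk obtained by removing the last step -/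
def ofLoop {N : ℕ} (f : ZMod (N + 1) → ℤ × ℤ) (hf : Loop (N + 1) f) : Walk .square N :=
  ⟨fun i => f ((i : ℕ) : ZMod (N + 1)), by
    refine ⟨by simpa using hf.1, ?_, ?_⟩
    · intro i j h
      have h1 := hf.2.1 h
      exact Fin.ext (Run7.h738.PG.nat_eq i.2 j.2 h1)
    · intro i
      have h1 := hf.2.2 ((i : ℕ) : ZMod (N + 1))
      show |_ - _| + |_ - _| = 1
      rw [abs_sub_comm, abs_sub_comm (f _).2]
      simpa using h1⟩

lemma vertex_ofLoop {N : ℕ} (f : ZMod (N + 1) → ℤ × ℤ) (hf : Loop (N + 1) f) {i : ℕ} (hi : i ≤ N) :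
    vertex (ofLoop f hf) i = f (i : ZMod (N + 1)) := by
  rw [vertex_of_le _ hi]
  rfl

lemma ofLoop_inj {N : ℕ} {f f' : ZMod (N + 1) → ℤ × ℤ} (hf : Loop (N + 1) f)
    (hf' : Loop (N + 1) f') (h : ofLoop f hf = ofLoop f' hf') : f = f' := by
  funext z
  have h1 : vertex (ofLoop f hf) z.val = vertex (ofLoop f' hf') z.val := by rw [h]
  have hz : z.val ≤ N := Nat.lt_succ_iff.1 (ZMod.val_lt z)
  rw [vertex_ofLoop f hf hz, vertex_ofLoop f' hf' hz, ZMod.natCast_zmod_val] at h1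
  exact h1

/-- splitting a sum over a cyclic interval at the root -/
lemma cyc_split (H : ℕ → ℝ) {N s a : ℕ} (hper : ∀ j, H (j + (N + 1)) = H j) (hs : s ≤ N)
    (h : N < s + a) : ∑ j ∈ Ico s (s + a), H j =
      (∑ j ∈ Ico s N, H j) + H N + ∑ j ∈ Ico 0 (s + a - (N + 1)), H j := by
  rw [← Finset.sum_Ico_consecutive H hs h.le, ← Finset.sum_Ico_consecutive H (Nat.le_succ N) h]
  have e1 : ∑ j ∈ Ico N (N + 1), H j = H N := by simp
  have e2 : ∑ j ∈ Ico (N + 1) (s + a), H j = ∑ j ∈ Ico 0 (s + a - (N + 1)), H j := by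
    have := Finset.sum_Ico_add' H 0 (s + a - (N + 1)) (N + 1)
    rw [Nat.zero_add, Nat.sub_add_cancel h] at this
    rw [← this]
    exact Finset.sum_congr rfl fun j _ => hper j
  rw [Nat.succ_eq_add_one, e1, e2]
  ring

theorem pWinding_le {N : ℕ} {f : ZMod (N + 1) → ℤ × ℤ} (hf : Loop (N + 1) f) {y : ℝ} (hy : 0 ≤ y)
    (hT : ¬ Winds (ofLoop f hf) y) (s : ZMod (N + 1)) {a : ℕ} (ha : a ≤ N) (P : ℤ × ℤ)
    (hP : ∀ k : ℕ, k ≤ a → f (s + (k : ZMod (N + 1))) ≠ P) :
    |pWinding f P s a| ≤ 2 * y + Real.pi := by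
  have hpi := Real.pi_pos
  obtain ⟨s0, hs0, hs⟩ : ∃ s0 : ℕ, s0 ≤ N ∧ s = (s0 : ZMod (N + 1)) :=
    ⟨s.val, Nat.lt_succ_iff.1 (ZMod.val_lt s), (ZMod.natCast_zmod_val s).symm⟩
  set H : ℕ → ℝ := fun j => arg ((pos .square (f ((j + 1 : ℕ) : ZMod (N + 1))) - pos .square P) /
    (pos .square (f (j : ZMod (N + 1))) - pos .square P)) with hH
  have e : pWinding f P s a = ∑ j ∈ Ico s0 (s0 + a), H j := by
    rw [Finset.sum_Ico_eq_sum_range, Nat.add_sub_cancel_left]
    unfold pWinding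
    refine Finset.sum_congr rfl fun k _ => ?_
    simp only [hH, hs]
    push_cast
    rfl
  have hW : ∀ u v : ℕ, u ≤ v → v ≤ N → (∀ i, u ≤ i → i ≤ v → f (i : ZMod (N + 1)) ≠ P) →
      |∑ j ∈ Ico u v, H j| ≤ y := by
    intro u v huv hv hQ
    have h1 : |winding (ofLoop f hf) P u v| ≤ y := by
      by_contra hcon
      push Not at hcon
      exact hT ⟨u, v, huv, hv, Or.inr ⟨P, fun i hi hi2 => by
        rw [vertex_ofLoop f hf (by omega)]
        exact hQ i hi hi2, hcon⟩⟩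
    refine le_trans (le_of_eq ?_) h1
    congr 1
    unfold winding
    refine Finset.sum_congr rfl fun j hj => ?_
    rw [mem_Ico] at hj
    rw [vertex_ofLoop f hf (by omega), vertex_ofLoop f hf (by omega)]
  have hPs : ∀ k : ℕ, k ≤ a → f ((s0 + k : ℕ) : ZMod (N + 1)) ≠ P := by
    intro k hk
    have := hP k hk
    rw [hs] at this
    push_cast
    exact this
  rw [e]
  rcases Nat.lt_or_ge N (s0 + a) with h | h
  · have hz : ((N + 1 : ℕ) : ZMod (N + 1)) = 0 := ZMod.natCast_self (N + 1)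
    rw [cyc_split H (fun j => by
      simp only [hH]
      have e1 : ((j + (N + 1) + 1 : ℕ) : ZMod (N + 1)) = ((j + 1 : ℕ) : ZMod (N + 1)) := by
        rw [show j + (N + 1) + 1 = (j + 1) + (N + 1) by ring, Nat.cast_add, hz, add_zero]
      have e2 : ((j + (N + 1) : ℕ) : ZMod (N + 1)) = (j : ZMod (N + 1)) := by
        rw [Nat.cast_add, hz, add_zero]
      rw [e1, e2]) hs0 h]
    have h1 := hW s0 N hs0 le_rfl (fun i hi hi2 => by
      have := hPs (i - s0) (by omega)
      rwa [Nat.add_sub_cancel' hi] at this)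
    have h2 := hW 0 (s0 + a - (N + 1)) (Nat.zero_le _) (by omega) (fun i _ hi2 => by
      have := hPs (i + (N + 1) - s0) (by omega)
      rw [Nat.add_sub_cancel' (by omega), Nat.cast_add, hz, add_zero] at this
      exact this)
    have h3 : |H N| ≤ Real.pi := abs_arg_le_pi _
    calc _ ≤ |∑ j ∈ Ico s0 N, H j| + |H N| + |∑ j ∈ Ico 0 (s0 + a - (N + 1)), H j| :=
          abs_add_three _ _ _
      _ ≤ y + Real.pi + y := by gcongr
      _ = _ := by ring
  · refine (hW s0 (s0 + a) (by omega) h (fun i hi hi2 => ?_)).trans ?_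
    · have := hPs (i - s0) (by omega)
      rwa [Nat.add_sub_cancel' hi] at this
    · linarith

theorem pTurning_le {N : ℕ} {f : ZMod (N + 1) → ℤ × ℤ} (hf : Loop (N + 1) f) {y : ℝ} (hy : 0 ≤ y)
    (hT : ¬ Winds (ofLoop f hf) y) (s : ZMod (N + 1)) {a : ℕ} (ha : a ≤ N) :
    |pTurning f s a| ≤ 2 * y + 2 * Real.pi := by
  have hpi := Real.pi_pos
  rcases Nat.eq_zero_or_pos a with rfl | ha0
  · unfold pTurning
    rw [Ico_eq_empty (by omega), sum_empty, abs_zero]
    positivity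
  obtain ⟨s0, hs0, hs⟩ : ∃ s0 : ℕ, s0 ≤ N ∧ s = (s0 : ZMod (N + 1)) :=
    ⟨s.val, Nat.lt_succ_iff.1 (ZMod.val_lt s), (ZMod.natCast_zmod_val s).symm⟩
  -- the angle at the vertex `j + 1`
  set H : ℕ → ℝ := fun j => arg ((pos .square (f ((j + 2 : ℕ) : ZMod (N + 1))) -
      pos .square (f ((j + 1 : ℕ) : ZMod (N + 1)))) /
    (pos .square (f ((j + 1 : ℕ) : ZMod (N + 1))) - pos .square (f (j : ZMod (N + 1))))) with hH
  have e : pTurning f s a = ∑ j ∈ Ico s0 (s0 + (a - 1)), H j := by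
    rw [Finset.sum_Ico_eq_sum_range, Nat.add_sub_cancel_left]
    unfold pTurning
    rw [Finset.sum_Ico_eq_sum_range]
    refine Finset.sum_congr rfl fun k _ => ?_
    simp only [hH, hs]
    have e1 : ((s0 : ZMod (N + 1)) + ((1 + k : ℕ) : ZMod (N + 1)) + 1) =
        ((s0 + k + 2 : ℕ) : ZMod (N + 1)) := by push_cast; ring
    have e2 : ((s0 : ZMod (N + 1)) + ((1 + k : ℕ) : ZMod (N + 1))) =
        ((s0 + k + 1 : ℕ) : ZMod (N + 1)) := by push_cast; ring
    have e3 : (((s0 + k + 1 : ℕ) : ZMod (N + 1)) - 1) =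
        ((s0 + k : ℕ) : ZMod (N + 1)) := by push_cast; ring
    rw [e1, e2, e3]
  have hW : ∀ u v : ℕ, u ≤ v → v ≤ N → |∑ j ∈ Ico u (v - 1), H j| ≤ y := by
    intro u v huv hv
    rcases Nat.eq_zero_or_pos v with rfl | hv0
    · rw [Ico_eq_empty (by omega), sum_empty, abs_zero]
      exact hy
    have h1 : |turning (ofLoop f hf) u v| ≤ y := by
      by_contra hcon
      push Not at hcon
      exact hT ⟨u, v, huv, hv, Or.inl hcon⟩
    refine le_trans (le_of_eq ?_) h1
    congr 1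
    unfold turning
    obtain ⟨w, rfl⟩ : ∃ w, v = w + 1 := ⟨v - 1, by omega⟩
    rw [Nat.add_sub_cancel, ← Finset.sum_Ico_add']
    refine Finset.sum_congr rfl fun j hj => ?_
    rw [mem_Ico] at hj
    rw [vertex_ofLoop f hf (by omega), vertex_ofLoop f hf (by omega), Nat.add_sub_cancel,
      vertex_ofLoop f hf (by omega)]
  rw [e]
  rcases Nat.lt_or_ge N (s0 + a) with h | h
  · have hz : ((N + 1 : ℕ) : ZMod (N + 1)) = 0 := ZMod.natCast_self (N + 1)
    rcases Nat.lt_or_ge N (s0 + (a - 1)) with h' | h'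
    · have hper : ∀ j, H (j + (N + 1)) = H j := fun j => by
        simp only [hH]
        have e0 : ((j + (N + 1) + 2 : ℕ) : ZMod (N + 1)) = ((j + 2 : ℕ) : ZMod (N + 1)) := by
          rw [show j + (N + 1) + 2 = (j + 2) + (N + 1) by ring, Nat.cast_add, hz, add_zero]
        have e1 : ((j + (N + 1) + 1 : ℕ) : ZMod (N + 1)) = ((j + 1 : ℕ) : ZMod (N + 1)) := by
          rw [show j + (N + 1) + 1 = (j + 1) + (N + 1) by ring, Nat.cast_add, hz, add_zero]
        have e2 : ((j + (N + 1) : ℕ) : ZMod (N + 1)) = (j : ZMod (N + 1)) := by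
          rw [Nat.cast_add, hz, add_zero]
        rw [e0, e1, e2]
      rw [cyc_split H hper hs0 h']
      have h1 := hW s0 N hs0 le_rfl
      have h2 := hW 0 (s0 + a - (N + 1)) (Nat.zero_le _) (by omega)
      rw [show s0 + a - (N + 1) - 1 = s0 + (a - 1) - (N + 1) by omega] at h2
      have h3 : |H N| ≤ Real.pi := abs_arg_le_pi _
      have h4 : |∑ j ∈ Ico s0 N, H j| ≤ y + Real.pi := by
        rcases Nat.lt_or_ge s0 N with h5 | h5
        · obtain ⟨M, rfl⟩ : ∃ M, N = M + 1 := ⟨N - 1, by omega⟩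
          rw [Finset.sum_Ico_succ_top (by omega)]
          rw [Nat.add_sub_cancel] at h1
          have h6 : |H M| ≤ Real.pi := abs_arg_le_pi _
          exact (abs_add_le _ _).trans (add_le_add h1 h6)
        · rw [Ico_eq_empty (by omega), sum_empty, abs_zero]
          positivity
      calc _ ≤ |∑ j ∈ Ico s0 N, H j| + |H N| + |∑ j ∈ Ico 0 (s0 + (a - 1) - (N + 1)), H j| :=
            abs_add_three _ _ _
        _ ≤ (y + Real.pi) + Real.pi + y := by gcongr
        _ = _ := by ring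
    · have h0 : s0 + (a - 1) = N := by omega
      rw [h0]
      have h1 := hW s0 N hs0 le_rfl
      have h4 : |∑ j ∈ Ico s0 N, H j| ≤ y + Real.pi := by
        rcases Nat.lt_or_ge s0 N with h5 | h5
        · obtain ⟨M, rfl⟩ : ∃ M, N = M + 1 := ⟨N - 1, by omega⟩
          rw [Finset.sum_Ico_succ_top (by omega)]
          rw [Nat.add_sub_cancel] at h1
          have h6 : |H M| ≤ Real.pi := abs_arg_le_pi _
          exact (abs_add_le _ _).trans (add_le_add h1 h6)
        · rw [Ico_eq_empty (by omega), sum_empty, abs_zero]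
          positivity
      refine h4.trans ?_
      linarith
  · have := hW s0 (s0 + a) (by omega) h
    rw [show s0 + a - 1 = s0 + (a - 1) by omega] at this
    refine this.trans ?_
    linarith

/-- all arcs turn little -/
def PTurns {m : ℕ} (f : ZMod m → ℤ × ℤ) (y : ℝ) : Prop :=
  ∀ (s : ZMod m) (a : ℕ), a < m → |pTurning f s a| ≤ y ∧
    ∀ P : ℤ × ℤ, (∀ k : ℕ, k ≤ a → f (s + (k : ZMod m)) ≠ P) → |pWinding f P s a| ≤ y

theorem pTurns_of {N : ℕ} {f : ZMod (N + 1) → ℤ × ℤ} (hf : Loop (N + 1) f) {y : ℝ} (hy : 0 ≤ y)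
    (hT : ¬ Winds (ofLoop f hf) y) : PTurns f (2 * y + 2 * Real.pi) := by
  intro s a ha
  have hpi := Real.pi_pos
  refine ⟨pTurning_le hf hy hT s (by omega), fun P hP =>
    (pWinding_le hf hy hT s (by omega) P hP).trans ?_⟩
  linarith

/-- the walks obtained from the polygons are not too few -/
theorem loops_many : ∃ K : ℝ, 0 ≤ K ∧ ∀ n : ℕ, 2 ≤ n →
    Real.exp (-(K * Real.log n ^ 2)) * Fintype.card (Walk .square (2 * n - 1)) ≤
      (({f | Loop (2 * n) f} : Set (ZMod (2 * n) → ℤ × ℤ)).ncard : ℝ) := by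
  obtain ⟨K1, hK1, h1⟩ := loops_lower
  obtain ⟨K2, hK2, h2⟩ := Pool.Agent.TH508.LT.sq_upper2
  refine ⟨K1 + 4 * K2, by positivity, fun n hn => ?_⟩
  have hn' : (2 : ℝ) ≤ n := by exact_mod_cast hn
  have hcard : (Fintype.card (Walk .square (2 * n - 1)) : ℝ) ≤
      H981.mu ^ (2 * n - 1) * Real.exp (K2 * Real.log ((2 * n - 1 : ℕ) : ℝ) ^ 2) := by
    refine le_trans (le_of_eq ?_) (h2 (2 * n - 1) (by omega))
    rw [H981.cr'_eq, ← Nat.card_eq_fintype_card]
    unfold H981.C
    congr 1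
    apply Nat.card_congr
    apply Equiv.subtypeEquivRight
    intro f
    constructor
    · rintro ⟨g1, g2, g3⟩
      refine ⟨g1, fun i => ?_, g2⟩
      have := g3 i
      rw [abs_sub_comm, abs_sub_comm (f i.succ).2]
      exact this
    · rintro ⟨g1, g2, g3⟩
      refine ⟨g1, g3, fun i => ?_⟩
      have := g2 i
      rw [abs_sub_comm, abs_sub_comm (f i.succ).2] at this
      exact this
  have hmu : 1 ≤ H981.mu := H981.one_le_mu
  have hlog : Real.log ((2 * n - 1 : ℕ) : ℝ) ^ 2 ≤ 4 * Real.log n ^ 2 := by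
    have e1 : ((2 * n - 1 : ℕ) : ℝ) ≤ (n : ℝ) * n := by
      have : ((2 * n - 1 : ℕ) : ℝ) ≤ 2 * n := by
        have : 2 * n - 1 ≤ 2 * n := Nat.sub_le _ _
        exact_mod_cast this
      nlinarith
    have e2 : (1 : ℝ) ≤ ((2 * n - 1 : ℕ) : ℝ) := by
      have : 1 ≤ 2 * n - 1 := by omega
      exact_mod_cast this
    have e3 : Real.log ((2 * n - 1 : ℕ) : ℝ) ≤ 2 * Real.log n := by
      calc _ ≤ Real.log ((n : ℝ) * n) := Real.log_le_log (by linarith) e1
        _ = _ := by rw [Real.log_mul (by positivity) (by positivity)]; ring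
    have e4 : 0 ≤ Real.log ((2 * n - 1 : ℕ) : ℝ) := Real.log_nonneg e2
    nlinarith
  calc Real.exp (-((K1 + 4 * K2) * Real.log n ^ 2)) * (Fintype.card (Walk .square (2 * n - 1)) : ℝ)
      ≤ Real.exp (-((K1 + 4 * K2) * Real.log n ^ 2)) *
        (H981.mu ^ (2 * n) * Real.exp (4 * K2 * Real.log n ^ 2)) := by
        gcongr
        refine hcard.trans ?_
        refine mul_le_mul (pow_le_pow_right₀ hmu (by omega)) (Real.exp_le_exp.2 ?_)
          (Real.exp_pos _).le (by positivity)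
        nlinarith
    _ = H981.mu ^ (2 * n) * Real.exp (-(K1 * Real.log n ^ 2)) := by
        rw [mul_left_comm, ← Real.exp_add]
        ring_nf
    _ ≤ _ := by
        have h3 := h1 n hn
        rw [Real.exp_neg, ← div_eq_mul_inv, div_le_iff₀ (Real.exp_pos _)]
        linarith

open Classical in
theorem poly_main : ∃ K : ℝ, 0 < K ∧ ∀ n : ℕ, 2 ≤ n → ∀ x : ℝ, 0 ≤ x →
    (1 - Real.exp (-x)) * (({f | Loop (2 * n) f} : Set (ZMod (2 * n) → ℤ × ℤ)).ncard : ℝ) ≤
      (({f | Loop (2 * n) f ∧ PTurns f (K * (Real.log n ^ 2 + x))} :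
        Set (ZMod (2 * n) → ℤ × ℤ)).ncard : ℝ) := by
  obtain ⟨K, hK, H⟩ := main_set
  obtain ⟨K1, hK1, H1⟩ := loops_many
  have hl2 : 0 < Real.log 2 := Real.log_pos (by norm_num)
  have hpi := Real.pi_pos
  refine ⟨2 * (K * (4 + K1 + 1)) + 2 * Real.pi / Real.log 2 ^ 2, by positivity,
    fun n hn x hx => ?_⟩
  obtain ⟨N, hN⟩ : ∃ N, 2 * n = N + 1 := ⟨2 * n - 1, by omega⟩
  have hN1 : 2 * n - 1 = N := by omega
  have h1 := H1 n hn
  rw [hN1] at h1
  rw [hN] at h1 ⊢
  have hfin := Loop_finite (N + 1) (Nat.succ_pos N)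
  haveI : Finite {f | Loop (N + 1) f} := hfin
  haveI : Fintype {f | Loop (N + 1) f} := Fintype.ofFinite _
  set Φ : {f | Loop (N + 1) f} ↪ Walk .square N :=
    ⟨fun f => ofLoop f.1 f.2, fun f f' h => Subtype.ext (ofLoop_inj f.2 f'.2 h)⟩ with hΦ
  set A : Finset (Walk .square N) := univ.map Φ with hA
  have hAc : (A.card : ℝ) = (({f | Loop (N + 1) f} : Set (ZMod (N + 1) → ℤ × ℤ)).ncard : ℝ) := by
    rw [hA, card_map, card_univ, ← Nat.card_eq_fintype_card, Nat.card_coe_set_eq]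
  rw [← hAc] at h1 ⊢
  set L : ℝ := Real.log n with hL
  have hLl : Real.log 2 ≤ L := Real.log_le_log (by norm_num) (by exact_mod_cast hn)
  have hE : 0 ≤ K1 * L ^ 2 := by positivity
  set y : ℝ := K * (Real.log N ^ 2 + K1 * L ^ 2 + x) with hy
  have hy0 : 0 ≤ y := by positivity
  have h2 := H .square N (by omega) A (K1 * L ^ 2) x hE hx h1
  rw [← hy] at h2
  have hB : (A.filter (fun ω => Winds ω y)).card =
      (univ.filter (fun f : {f | Loop (N + 1) f} => Winds (Φ f) y)).card := by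
    rw [hA, filter_map, card_map]
    rfl
  have hsum := Finset.card_filter_add_card_filter_not
    (s := (univ : Finset {f | Loop (N + 1) f})) (fun f => Winds (Φ f) y)
  have hA2 : A.card = (univ : Finset {f | Loop (N + 1) f}).card := by rw [hA, card_map]
  rw [← hA2, ← hB] at hsum
  have hlogN : Real.log N ^ 2 ≤ 4 * L ^ 2 := by
    have hn' : (2 : ℝ) ≤ n := by exact_mod_cast hn
    have e1 : (N : ℝ) ≤ (n : ℝ) * n := by
      have : N ≤ n * n := by nlinarith
      exact_mod_cast this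
    have e2 : (1 : ℝ) ≤ N := by
      have : 1 ≤ N := by omega
      exact_mod_cast this
    have e3 : Real.log N ≤ 2 * L := by
      calc _ ≤ Real.log ((n : ℝ) * n) := Real.log_le_log (by linarith) e1
        _ = _ := by rw [Real.log_mul (by positivity) (by positivity)]; ring
    have e4 : 0 ≤ Real.log (N : ℝ) := Real.log_nonneg e2
    nlinarith
  have hYle : 2 * y + 2 * Real.pi ≤
      (2 * (K * (4 + K1 + 1)) + 2 * Real.pi / Real.log 2 ^ 2) * (L ^ 2 + x) := by
    have e1 : y ≤ K * (4 + K1 + 1) * (L ^ 2 + x) := by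
      rw [hy, mul_assoc]
      refine mul_le_mul_of_nonneg_left ?_ hK.le
      nlinarith [mul_nonneg hK1 hx, sq_nonneg L]
    have e2 : 2 * Real.pi ≤ 2 * Real.pi / Real.log 2 ^ 2 * (L ^ 2 + x) := by
      rw [div_mul_eq_mul_div, le_div_iff₀ (by positivity)]
      have := pow_le_pow_left₀ hl2.le hLl 2
      have h3 : Real.log 2 ^ 2 ≤ L ^ 2 + x := by linarith
      gcongr
    linarith
  have hG : (univ.filter (fun f : {f | Loop (N + 1) f} => ¬ Winds (Φ f) y)).card ≤
      ({f | Loop (N + 1) f ∧ PTurns f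
        ((2 * (K * (4 + K1 + 1)) + 2 * Real.pi / Real.log 2 ^ 2) * (L ^ 2 + x))} :
        Set (ZMod (N + 1) → ℤ × ℤ)).ncard := by
    rw [← Set.ncard_coe_finset]
    refine Set.ncard_le_ncard_of_injOn Subtype.val ?_ (Subtype.val_injective.injOn)
      (hfin.subset fun f hf => hf.1)
    rintro f hf
    simp only [coe_filter, mem_univ, true_and, Set.mem_ofPred_eq] at hf
    refine ⟨f.2, ?_⟩
    have h5 := pTurns_of f.2 hy0 hf
    intro s a ha
    obtain ⟨h6, h7⟩ := h5 s a ha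
    exact ⟨h6.trans hYle, fun P hP => (h7 P hP).trans hYle⟩
  have hG' : ((univ.filter (fun f : {f | Loop (N + 1) f} => ¬ Winds (Φ f) y)).card : ℝ) ≤ _ :=
    Nat.cast_le.2 hG
  have hsum' : ((A.filter (fun ω => Winds ω y)).card : ℝ) +
      ((univ.filter (fun f : {f | Loop (N + 1) f} => ¬ Winds (Φ f) y)).card : ℝ) = A.card := by
    exact_mod_cast hsum
  linarith

end Run7.h822.WN
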