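import Pool.Agent.Run7.h822.WN.Typical

/-!
# Windings at typical times, at all scales
-/

set_option autoImplicit false

namespace Run7.h822.WN

open Finset Run7.h529.FB Run7.h287.WN Real

variable {G : Lattice} {n : ℕ}

lemma sh_fst (G : Lattice) (v p : ℤ × ℤ) : (sh G v p).1 = p.1 - v.1 := by
  cases G with
  | square => rfl
  | triangular => rfl
  | honeycomb =>
    simp only [sh]
    split_ifs <;> rfl

lemma vertex_piece_fst {i m : ℕ} (h : i + m ≤ n) (ω : Walk G n) {k : ℕ} (hk : k ≤ m) :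
    (vertex (piece i m h ω) k).1 = (vertex ω (i + k)).1 - (vertex ω i).1 := by
  rw [vertex_of_le _ hk, vertex_of_le ω (show i + k ≤ n by omega), vertex_of_le ω (by omega)]
  exact sh_fst G _ _

lemma cut_piece {i m : ℕ} (h : i + m ≤ n) (ω : Walk G n) {M s t : ℕ} (ht : t ≤ m)
    (hc : Cut (vertex (piece i m h ω)) M s t) : Cut (vertex ω) M (i + s) (i + t) := by
  obtain ⟨τ, h1, h2, h3⟩ := hc
  have hle := cut_mono_idx (s := s) h3 h2
  refine ⟨fun k => i + τ k, by simp only [h1], by simp only [h2], fun k hk => ?_⟩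
  obtain ⟨h4, h5⟩ := h3 k hk
  have hk1 := hle k hk.le
  have hk2 := hle (k + 1) hk
  have e1 := vertex_piece_fst h ω (hk1.trans ht)
  have e2 := vertex_piece_fst h ω (hk2.trans ht)
  refine ⟨Nat.add_le_add_left h4 i, ?_⟩
  rcases h5 with h5 | h5
  · refine Or.inl fun j hj1 hj2 => ?_
    simp only at hj1 hj2
    obtain ⟨l, rfl⟩ := Nat.exists_eq_add_of_le ((Nat.le_add_right i (τ k)).trans hj1)
    have h6 := h5 l (by omega) (by omega)
    rw [e1, e2, vertex_piece_fst h ω (by omega : l ≤ m)] at h6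
    simp only
    omega
  · refine Or.inr fun j hj1 hj2 => ?_
    simp only at hj1 hj2
    obtain ⟨l, rfl⟩ := Nat.exists_eq_add_of_le ((Nat.le_add_right i (τ k)).trans hj1)
    have h6 := h5 l (by omega) (by omega)
    rw [e1, e2, vertex_piece_fst h ω (by omega : l ≤ m)] at h6
    simp only
    omega

lemma allCut_piece {i m : ℕ} (h : i + m ≤ n) (ω : Walk G n) :
    AllCut (vertex ω) (VV (piece i m h ω)) i (i + m) := by
  intro s t hs hst ht
  obtain ⟨s', rfl⟩ := Nat.exists_eq_add_of_le hs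
  obtain ⟨t', rfl⟩ := Nat.exists_eq_add_of_le (hs.trans hst)
  exact cut_piece h ω (by omega) (cut (piece i m h ω) (by omega) (by omega))

lemma AllCut.mono {q : ℕ → ℤ × ℤ} {M s t s' t' : ℕ} (h : AllCut q M s t) (hs : s ≤ s')
    (ht : t' ≤ t) : AllCut q M s' t' := fun a b ha hab hb =>
  h a b (hs.trans ha) hab (hb.trans ht)

/-- The least integer `T` such that all pieces of the path `q` between the times `i` and `i + m` are
tame with `y = 4 π (T + 2)`. -/
noncomputable def turnsIn (G : Lattice) (q : ℕ → ℤ × ℤ) (i m : ℕ) : ℕ :=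
  sInf {T : ℕ | ∀ s t : ℕ, i ≤ s → s ≤ t → t ≤ i + m → Tame G q s t (4 * π * (T + 2))}

lemma turnsIn_le {i m : ℕ} (h : i + m ≤ n) (ω : Walk G n) :
    (turnsIn G (vertex ω) i m : ℝ) ≤ fp (fun η : Walk G m => (VV η : ℝ)) i ω := by
  unfold fp
  rw [dif_pos h]
  have : turnsIn G (vertex ω) i m ≤ VV (piece i m h ω) := by
    refine Nat.sInf_le fun s t hs hst ht => ?_
    exact tame_of_cut ω hst (ht.trans h) ((allCut_piece h ω).mono hs ht)
  show (turnsIn G (vertex ω) i m : ℝ) ≤ (VV (piece i m h ω) : ℝ)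
  exact_mod_cast this

theorem sum_VV : ∃ K : ℝ, 0 < K ∧ ∀ G : Lattice, ∀ n m : ℕ, 2 ≤ m →
    ∑ i ∈ range (n + 1 - m), mean G n (fp (fun η : Walk G m => (VV η : ℝ)) i) ≤
      ((n + 1 - m : ℕ) : ℝ) * (K * Real.log m ^ 2) := by
  obtain ⟨B, hB, H⟩ := typical
  obtain ⟨K0, hK0, H0⟩ := mean_V
  refine ⟨K0 * Real.exp 1 ^ 2 + 4 * B, by positivity, fun G n m hm => ?_⟩
  refine (H G n m (by omega) _).trans (mul_le_mul_of_nonneg_left ?_ (Nat.cast_nonneg _))
  have hm2 : (2 : ℝ) ≤ m := by exact_mod_cast hm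
  have h1 : mean G m (fun η : Walk G m => Real.exp ((VV η : ℝ))) ≤
      Real.exp (K0 * Real.exp 1 ^ 2 * Real.log m ^ 2) := by
    have h2 := H0 G m hm _ (coord_mem G) (Real.exp 1) (Real.one_le_exp (by norm_num))
    refine le_trans (le_of_eq ?_) h2
    unfold mean
    congr 1
    refine sum_congr rfl fun η _ => ?_
    show Real.exp (VV η : ℝ) = Real.exp 1 ^ VV η
    rw [← Real.exp_nat_mul, mul_one]
  have hm0 := card_pos G m
  have hpos : 0 < mean G m (fun η : Walk G m => Real.exp ((VV η : ℝ))) := by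
    have : Nonempty (Walk G m) := by
      rw [← Fintype.card_pos_iff]
      exact_mod_cast hm0
    exact div_pos (sum_pos (fun _ _ => Real.exp_pos _) univ_nonempty) hm0
  have h3 := Real.log_le_log hpos h1
  rw [Real.log_exp] at h3
  have h4 : Real.log ((m : ℝ) + 1) ≤ 2 * Real.log m := by
    have : 2 * Real.log (m : ℝ) = Real.log ((m : ℝ) ^ 2) := by
      rw [Real.log_pow]
      push_cast
      ring
    rw [this]
    exact Real.log_le_log (by linarith) (by nlinarith)
  have h5 := pow_le_pow_left₀ (Real.log_nonneg (by linarith)) h4 2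
  have h6 : B * Real.log ((m : ℝ) + 1) ^ 2 ≤ B * (2 * Real.log m) ^ 2 :=
    mul_le_mul_of_nonneg_left h5 hB
  calc _ ≤ K0 * Real.exp 1 ^ 2 * Real.log m ^ 2 + B * (2 * Real.log m) ^ 2 := add_le_add h3 h6
    _ = _ := by ring

lemma le_cut {q : ℕ → ℤ × ℤ} {M s : ℕ} {τ : ℕ → ℕ} (h1 : τ 0 = s)
    (h3 : ∀ i < M, Br q (τ i) (τ (i + 1))) : ∀ j ≤ M, s ≤ τ j := by
  intro j
  induction j with
  | zero => intro _; exact h1.ge
  | succ j ih => intro hj; exact (ih (by omega)).trans (h3 j (by omega)).1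

lemma cut_of_piece {i m : ℕ} (h : i + m ≤ n) (ω : Walk G n) {M s t : ℕ} (ht : t ≤ m)
    (hc : Cut (vertex ω) M (i + s) (i + t)) : Cut (vertex (piece i m h ω)) M s t := by
  obtain ⟨τ, h1, h2, h3⟩ := hc
  have hle := cut_mono_idx (s := i + s) h3 h2
  have hge := le_cut h1 h3
  refine ⟨fun k => τ k - i, by simp only [h1]; omega, by simp only [h2]; omega, fun k hk => ?_⟩
  obtain ⟨h4, h5⟩ := h3 k hk
  have a1 := hle k hk.le
  have a2 := hle (k + 1) hk
  have b1 := hge k hk.le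
  have b2 := hge (k + 1) hk
  have e1 := vertex_piece_fst h ω (show τ k - i ≤ m by omega)
  have e2 := vertex_piece_fst h ω (show τ (k + 1) - i ≤ m by omega)
  have c1 : i + (τ k - i) = τ k := by omega
  have c2 : i + (τ (k + 1) - i) = τ (k + 1) := by omega
  rw [c1] at e1
  rw [c2] at e2
  refine ⟨Nat.sub_le_sub_right h4 i, ?_⟩
  rcases h5 with h5 | h5
  · refine Or.inl fun j hj1 hj2 => ?_
    simp only at hj1 hj2 ⊢
    have h6 := h5 (i + j) (by omega) (by omega)
    rw [e1, e2, vertex_piece_fst h ω (by omega : j ≤ m)]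
    omega
  · refine Or.inr fun j hj1 hj2 => ?_
    simp only at hj1 hj2 ⊢
    have h6 := h5 (i + j) (by omega) (by omega)
    rw [e1, e2, vertex_piece_fst h ω (by omega : j ≤ m)]
    omega

/-! ### the walk seen from its vertices -/

/-- The walk `ω` seen from its vertex at time `i`: it is moved such that this vertex becomes the
origin (`sh`: by a translation; on the honeycomb lattice, if the vertex is odd, by a half-turn).
The path has the times `-i, ..., n - i`. -/
def seen (ω : Walk G n) (i : ℕ) : ℤ → ℤ × ℤ :=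
  fun k => sh G (vertex ω i) (vertex ω ((i : ℤ) + k).toNat)

/-- The piece of the two-sided path `γ` between the times `-r` and `r`, moved such that it starts at
the origin. -/
def window (G : Lattice) (γ : ℤ → ℤ × ℤ) (r : ℕ) : ℕ → ℤ × ℤ :=
  fun k => sh G (γ (-(r : ℤ))) (γ ((k : ℤ) - r))

/-- All pieces of the two-sided path `γ` between the times `-r` and `r` are tame. -/
def TameAt (G : Lattice) (γ : ℤ → ℤ × ℤ) (r : ℕ) (y : ℝ) : Prop :=
  ∀ s t : ℕ, s ≤ t → t ≤ 2 * r → Tame G (window G γ r) s t y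

/-- For some radius `r` with `1 ≤ r ≤ R`, some piece of the two-sided path `γ` between the times
`-r` and `r` is not tame with `y (log (r + 1))⁴`. -/
def Rough (G : Lattice) (γ : ℤ → ℤ × ℤ) (R : ℕ) (y : ℝ) : Prop :=
  ∃ r : ℕ, 1 ≤ r ∧ r ≤ R ∧ ¬ TameAt G γ r (y * Real.log (r + 1) ^ 4)

lemma window_seen (ω : Walk G n) {i r : ℕ} (h1 : r ≤ i) (h : i - r + 2 * r ≤ n) {k : ℕ}
    (hk : k ≤ 2 * r) :
    window G (seen ω i) r k = vertex (piece (i - r) (2 * r) h ω) k := by
  rw [vertex_of_le _ hk]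
  unfold window seen
  have e1 : ((i : ℤ) + -(r : ℤ)).toNat = i - r := by omega
  have e2 : ((i : ℤ) + ((k : ℤ) - r)).toNat = i - r + k := by omega
  rw [e1, e2, sh_sh, vertex_of_le ω (show i - r ≤ n by omega),
    vertex_of_le ω (show i - r + k ≤ n by omega)]
  rfl

lemma tameAt_of_cut (ω : Walk G n) {i r k M : ℕ} (h1 : 2 ^ k ≤ i) (h2 : i + 2 ^ k ≤ n)
    (hr : r ≤ 2 ^ k) (hV : AllCut (vertex ω) M (i - 2 ^ k) (i + 2 ^ k)) :
    TameAt G (seen ω i) r (4 * π * (M + 2)) := by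
  intro s t hst ht
  have h3 : i - r + 2 * r ≤ n := by omega
  have h4 : Tame G (vertex (piece (i - r) (2 * r) h3 ω)) s t (4 * π * (M + 2)) := by
    refine tame_of_cut _ hst ht fun s' t' ha hab hb => ?_
    exact cut_of_piece h3 ω (by omega) (hV (i - r + s') (i - r + t') (by omega) (by omega)
      (by omega))
  exact h4.congr hst fun j hj => (window_seen ω (by omega) h3 (by omega)).symm

lemma TameAt.mono {γ : ℤ → ℤ × ℤ} {r : ℕ} {y y' : ℝ} (h : TameAt G γ r y) (hy : y ≤ y') :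
    TameAt G γ r y' := fun s t hst ht => (h s t hst ht).mono hst hy

lemma TameAt.congr {γ γ' : ℤ → ℤ × ℤ} {r : ℕ} {y : ℝ} (h : TameAt G γ r y)
    (he : ∀ j : ℤ, -(r : ℤ) ≤ j → j ≤ r → γ j = γ' j) : TameAt G γ' r y := by
  intro s t hst ht
  refine (h s t hst ht).congr hst fun j hj => ?_
  unfold window
  rw [he _ le_rfl (by omega), he _ (by omega) (by omega)]

/-- the number of bridges of the window of radius `2 ^ k` around `i`, if it exists -/
noncomputable def win (k i : ℕ) (ω : Walk G n) : ℝ :=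
  if 2 ^ k ≤ i ∧ i + 2 ^ k ≤ n then
    fp (fun η : Walk G (2 ^ (k + 1)) => (VV η : ℝ)) (i - 2 ^ k) ω else 0

lemma fp_nonneg {m : ℕ} (i : ℕ) (ω : Walk G n) :
    0 ≤ fp (fun η : Walk G m => (VV η : ℝ)) i ω := by
  unfold fp
  split_ifs
  · exact Nat.cast_nonneg _
  · exact le_rfl

lemma win_nonneg (k i : ℕ) (ω : Walk G n) : 0 ≤ win k i ω := by
  unfold win
  split_ifs
  · exact fp_nonneg _ _
  · exact le_rfl

lemma sum_win (k : ℕ) (ω : Walk G n) : ∑ i ∈ range (n + 1), win k i ω =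
    ∑ i ∈ range (n + 1 - 2 ^ (k + 1)), fp (fun η : Walk G (2 ^ (k + 1)) => (VV η : ℝ)) i ω := by
  have h2 : 2 ^ (k + 1) = 2 * 2 ^ k := by ring
  have hsub : (range (n + 1 - 2 ^ (k + 1))).image (fun i => i + 2 ^ k) ⊆ range (n + 1) := by
    intro i hi
    rw [mem_image] at hi
    obtain ⟨j, hj, rfl⟩ := hi
    rw [mem_range] at hj ⊢
    omega
  rw [← sum_subset hsub]
  · rw [sum_image (fun a _ b _ hab => by simpa using hab)]
    refine sum_congr rfl fun i hi => ?_
    rw [mem_range] at hi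
    unfold win
    rw [if_pos ⟨by omega, by omega⟩, Nat.add_sub_cancel]
  · intro i hi hni
    unfold win
    rw [if_neg]
    rintro ⟨h3, h4⟩
    apply hni
    rw [mem_image]
    exact ⟨i - 2 ^ k, mem_range.2 (by omega), by omega⟩

lemma log_ge {k r : ℕ} (hr1 : 1 ≤ r) (hk2 : 2 ^ k ≤ 2 * r) :
    ((k : ℝ) + 1) / 5 ≤ Real.log ((r : ℝ) + 1) := by
  have hr0 : (1 : ℝ) ≤ r := by exact_mod_cast hr1
  have hlog2 := Real.log_two_gt_d9
  have e1 : ((k : ℝ) + 1) * Real.log 2 ≤ 3 * Real.log ((r : ℝ) + 1) := by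
    have e2 : ((k : ℝ) + 1) * Real.log 2 = Real.log (2 ^ (k + 1)) := by
      rw [Real.log_pow]
      push_cast
      ring
    have e3 : 3 * Real.log ((r : ℝ) + 1) = Real.log (((r : ℝ) + 1) ^ 3) := by
      rw [Real.log_pow]
      push_cast
      ring
    rw [e2, e3]
    apply Real.log_le_log (by positivity)
    have e4 : (2 : ℝ) ^ k ≤ 2 * r := by exact_mod_cast hk2
    rw [pow_succ]
    have e5 : ((r : ℝ) + 1) ^ 3 = (r : ℝ) ^ 3 + 3 * (r : ℝ) ^ 2 + 3 * r + 1 := by ring
    rw [e5]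
    have e6 : (r : ℝ) ≤ (r : ℝ) ^ 2 := by nlinarith
    have e7 : 0 ≤ (r : ℝ) ^ 3 := by positivity
    linarith
  have : (0 : ℝ) ≤ k := Nat.cast_nonneg _
  nlinarith

lemma num_bound {y V : ℝ} (hy : 40000 ≤ y) {k r : ℕ} (hr1 : 1 ≤ r) (hk2 : 2 ^ k ≤ 2 * r) {p : ℕ}
    (hp : p ≤ 4) (hV : V ≤ y / 20000 * ((k : ℝ) + 1) ^ p) :
    4 * π * (V + 2) ≤ y * Real.log (r + 1) ^ p := by
  have hpi := Real.pi_le_four
  have hpi0 := Real.pi_pos
  have e8 := log_ge hr1 hk2
  have e9 : (((k : ℝ) + 1) / 5) ^ p ≤ Real.log ((r : ℝ) + 1) ^ p :=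
    pow_le_pow_left₀ (by positivity) e8 p
  have e10 : (1 : ℝ) ≤ ((k : ℝ) + 1) ^ p := by
    have : (0 : ℝ) ≤ k := Nat.cast_nonneg _
    exact one_le_pow₀ (by linarith)
  have e11 : (5 : ℝ) ^ p ≤ 625 := by
    calc (5 : ℝ) ^ p ≤ 5 ^ 4 := pow_le_pow_right₀ (by norm_num) hp
      _ = 625 := by norm_num
  have hy0 : 0 < y := by linarith
  calc 4 * π * (V + 2) ≤ 4 * π * (y / 20000 * ((k : ℝ) + 1) ^ p + 2) :=
        mul_le_mul_of_nonneg_left (by linarith) (by positivity)
    _ ≤ 4 * 4 * (y / 20000 * ((k : ℝ) + 1) ^ p + 2) := by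
        refine mul_le_mul_of_nonneg_right (by linarith) (by positivity)
    _ ≤ y * (((k : ℝ) + 1) ^ p / 625) := by nlinarith
    _ ≤ y * (((k : ℝ) + 1) ^ p / 5 ^ p) := by
        refine mul_le_mul_of_nonneg_left ?_ hy0.le
        exact div_le_div_of_nonneg_left (by positivity) (by positivity) e11
    _ = y * (((k : ℝ) + 1) / 5) ^ p := by rw [div_pow]
    _ ≤ _ := mul_le_mul_of_nonneg_left e9 hy0.le

/-- the scale of the radius `r` -/
lemma exists_scale {r : ℕ} (hr1 : 1 ≤ r) : ∃ k : ℕ, r < 2 ^ k ∧ 2 ^ k ≤ 2 * r := by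
  refine ⟨Nat.log 2 r + 1, Nat.lt_pow_succ_log_self (by norm_num) _, ?_⟩
  rw [pow_succ, mul_comm]
  exact Nat.mul_le_mul_left _ (Nat.pow_log_le_self 2 (by omega))

lemma not_tameAt_win {y : ℝ} (hy : 40000 ≤ y) {ω : Walk G n} {i r k p : ℕ} (hp : p ≤ 4)
    (hr1 : 1 ≤ r) (hr2 : 2 * r ≤ i) (hr3 : i + 2 * r ≤ n) (hk1 : r < 2 ^ k) (hk2 : 2 ^ k ≤ 2 * r)
    (h : ¬ TameAt G (seen ω i) r (y * Real.log (r + 1) ^ p)) :
    y / 20000 * ((k : ℝ) + 1) ^ p < win k i ω := by
  have hk3 : i - 2 ^ k + 2 ^ (k + 1) ≤ n := by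
    rw [pow_succ]
    omega
  have hwin : win k i ω = VV (piece (i - 2 ^ k) (2 ^ (k + 1)) hk3 ω) := by
    unfold win
    rw [if_pos ⟨by omega, by omega⟩]
    unfold fp
    rw [dif_pos hk3]
  rw [hwin]
  by_contra hcon
  rw [not_lt] at hcon
  apply h
  have hV := allCut_piece (i := i - 2 ^ k) (m := 2 ^ (k + 1)) hk3 ω
  have e1 : i - 2 ^ k + 2 ^ (k + 1) = i + 2 ^ k := by
    rw [pow_succ]
    omega
  have hV' : AllCut (vertex ω) (VV (piece (i - 2 ^ k) (2 ^ (k + 1)) hk3 ω)) (i - 2 ^ k)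
      (i + 2 ^ k) := hV.mono le_rfl e1.ge
  exact (tameAt_of_cut ω (by omega) (by omega) hk1.le hV').mono (num_bound hy hr1 hk2 hp hcon)

lemma rough_win {y : ℝ} (hy : 40000 ≤ y) {ω : Walk G n} {i : ℕ}
    (h : Rough G (seen ω i) (min i (n - i) / 2) y) :
    ∃ k < n + 1, y / 20000 * ((k : ℝ) + 1) ^ 4 < win k i ω := by
  obtain ⟨r, hr1, hr, hT⟩ := h
  have hr2 : 2 * r ≤ i := by omega
  have hr3 : i + 2 * r ≤ n := by omega
  obtain ⟨k, hk1, hk2⟩ := exists_scale hr1
  refine ⟨k, ?_, not_tameAt_win hy le_rfl hr1 hr2 hr3 hk1 hk2 hT⟩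
  have : k < 2 ^ k := Nat.lt_two_pow_self
  omega

lemma mean_win {K : ℝ} (hK : 0 < K) (H : ∀ G : Lattice, ∀ n m : ℕ, 2 ≤ m →
    ∑ i ∈ range (n + 1 - m), mean G n (fp (fun η : Walk G m => (VV η : ℝ)) i) ≤
      ((n + 1 - m : ℕ) : ℝ) * (K * Real.log m ^ 2)) (G : Lattice) (n k : ℕ) :
    mean G n (fun ω => ∑ i ∈ range (n + 1), win k i ω) ≤
      ((n : ℝ) + 1) * (K * ((k : ℝ) + 1) ^ 2) := by
  have h0 : mean G n (fun ω => ∑ i ∈ range (n + 1), win k i ω) =
      mean G n (fun ω => ∑ i ∈ range (n + 1 - 2 ^ (k + 1)),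
        fp (fun η : Walk G (2 ^ (k + 1)) => (VV η : ℝ)) i ω) := by
    unfold mean
    congr 1
    exact sum_congr rfl fun ω _ => sum_win k ω
  rw [h0, mean_sum]
  have h3 := H G n (2 ^ (k + 1)) (by
    have : 1 ≤ 2 ^ k := Nat.one_le_two_pow
    rw [pow_succ]
    omega)
  have h4 : Real.log ((2 ^ (k + 1) : ℕ) : ℝ) ^ 2 ≤ ((k : ℝ) + 1) ^ 2 := by
    push_cast
    rw [Real.log_pow]
    push_cast
    have h5 := Real.log_two_lt_d9
    have h6 := Real.log_two_gt_d9
    have h7 : (0 : ℝ) ≤ k := Nat.cast_nonneg _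
    refine pow_le_pow_left₀ (by nlinarith) ?_ 2
    nlinarith
  have h5 : ((n + 1 - 2 ^ (k + 1) : ℕ) : ℝ) ≤ n + 1 := by
    have : n + 1 - 2 ^ (k + 1) ≤ n + 1 := Nat.sub_le _ _
    exact_mod_cast this
  exact h3.trans (mul_le_mul h5 (mul_le_mul_of_nonneg_left h4 hK.le) (by positivity)
    (by positivity))

open Classical in
theorem rough_at_le : ∃ K : ℝ, 0 < K ∧ ∀ G : Lattice, ∀ n r : ℕ, 1 ≤ r → ∀ y : ℝ, 0 < y →
    mean G n (fun ω => (((range (n + 1)).filter fun i => 2 * r ≤ i ∧ i + 2 * r ≤ n ∧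
      ¬ TameAt G (seen ω i) r (y * Real.log (r + 1) ^ 2)).card : ℝ)) ≤ K * (n + 1) / y := by
  obtain ⟨K, hK, H⟩ := sum_VV
  refine ⟨40000 + 20000 * K, by positivity, fun G n r hr1 y hy => ?_⟩
  have hn0 : (0 : ℝ) ≤ n := Nat.cast_nonneg _
  rcases lt_or_ge y 40000 with hlt | hge
  · have h1 : mean G n (fun ω => (((range (n + 1)).filter fun i => 2 * r ≤ i ∧ i + 2 * r ≤ n ∧
        ¬ TameAt G (seen ω i) r (y * Real.log (r + 1) ^ 2)).card : ℝ)) ≤
        mean G n (fun _ => ((n : ℝ) + 1) * 1) := by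
      apply mean_mono
      intro ω
      have : ((range (n + 1)).filter fun i => 2 * r ≤ i ∧ i + 2 * r ≤ n ∧
          ¬ TameAt G (seen ω i) r (y * Real.log (r + 1) ^ 2)).card ≤ n + 1 :=
        (card_filter_le _ _).trans (le_of_eq (card_range _))
      rw [mul_one]
      exact_mod_cast this
    rw [mean_const_mul, mean_one, mul_one] at h1
    refine h1.trans ?_
    rw [le_div_iff₀ hy]
    nlinarith [mul_nonneg hK.le hn0]
  · obtain ⟨k, hk1, hk2⟩ := exists_scale hr1
    have hpt : ∀ ω : Walk G n, (((range (n + 1)).filter fun i => 2 * r ≤ i ∧ i + 2 * r ≤ n ∧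
        ¬ TameAt G (seen ω i) r (y * Real.log (r + 1) ^ 2)).card : ℝ) ≤
        (20000 / y * (1 / ((k : ℝ) + 1) ^ 2)) * ∑ i ∈ range (n + 1), win k i ω := by
      intro ω
      have h2 : (((range (n + 1)).filter fun i => 2 * r ≤ i ∧ i + 2 * r ≤ n ∧
          ¬ TameAt G (seen ω i) r (y * Real.log (r + 1) ^ 2)).card : ℝ) =
          ∑ i ∈ range (n + 1), if 2 * r ≤ i ∧ i + 2 * r ≤ n ∧
            ¬ TameAt G (seen ω i) r (y * Real.log (r + 1) ^ 2) then (1 : ℝ) else 0 := by
        rw [card_filter]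
        push_cast
        rfl
      rw [h2, mul_sum]
      refine sum_le_sum fun i _ => ?_
      split_ifs with hI
      · obtain ⟨h3, h4, h5⟩ := hI
        have h6 := not_tameAt_win hge (by norm_num) hr1 h3 h4 hk1 hk2 h5
        have h7 : (0 : ℝ) < ((k : ℝ) + 1) ^ 2 := by positivity
        calc (1 : ℝ) = (20000 / y * (1 / ((k : ℝ) + 1) ^ 2)) *
              (y / 20000 * ((k : ℝ) + 1) ^ 2) := by field_simp
          _ ≤ _ := mul_le_mul_of_nonneg_left h6.le (by positivity)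
      · exact mul_nonneg (by positivity) (win_nonneg _ _ _)
    have h1 := mean_mono hpt
    rw [mean_const_mul] at h1
    refine h1.trans ((mul_le_mul_of_nonneg_left (mean_win hK H G n k) (by positivity)).trans ?_)
    have h6 : (0 : ℝ) < (k : ℝ) + 1 := by positivity
    calc 20000 / y * (1 / ((k : ℝ) + 1) ^ 2) * (((n : ℝ) + 1) * (K * ((k : ℝ) + 1) ^ 2)) =
          20000 * K * (n + 1) / y := by field_simp
      _ ≤ _ := by
          refine div_le_div_of_nonneg_right ?_ hy.le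
          nlinarith

open Classical in
theorem rough_le : ∃ K : ℝ, 0 < K ∧ ∀ G : Lattice, ∀ n : ℕ, ∀ y : ℝ, 0 < y →
    mean G n (fun ω => (((range (n + 1)).filter fun i =>
      Rough G (seen ω i) (min i (n - i) / 2) y).card : ℝ)) ≤ K * (n + 1) / y := by
  obtain ⟨K, hK, H⟩ := sum_VV
  refine ⟨40000 + 40000 * K, by positivity, fun G n y hy => ?_⟩
  have hn0 : (0 : ℝ) ≤ n := Nat.cast_nonneg _
  rcases lt_or_ge y 40000 with hlt | hge
  · have h1 : mean G n (fun ω => (((range (n + 1)).filter fun i =>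
        Rough G (seen ω i) (min i (n - i) / 2) y).card : ℝ)) ≤ mean G n (fun _ => ((n : ℝ) + 1) * 1) := by
      apply mean_mono
      intro ω
      have : ((range (n + 1)).filter fun i => Rough G (seen ω i) (min i (n - i) / 2) y).card ≤ n + 1 :=
        (card_filter_le _ _).trans (le_of_eq (card_range _))
      rw [mul_one]
      exact_mod_cast this
    rw [mean_const_mul, mean_one, mul_one] at h1
    refine h1.trans ?_
    rw [le_div_iff₀ hy]
    nlinarith [mul_nonneg hK.le hn0]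
  · -- the pointwise bound
    have hpt : ∀ ω : Walk G n, (((range (n + 1)).filter fun i =>
        Rough G (seen ω i) (min i (n - i) / 2) y).card : ℝ) ≤
        ∑ k ∈ range (n + 1), (20000 / y * (1 / ((k : ℝ) + 1) ^ 4)) *
          ∑ i ∈ range (n + 1), win k i ω := by
      intro ω
      have h1 : ∀ i ∈ range (n + 1), (if Rough G (seen ω i) (min i (n - i) / 2) y then (1 : ℝ) else 0) ≤
          ∑ k ∈ range (n + 1), (20000 / y * (1 / ((k : ℝ) + 1) ^ 4)) * win k i ω := by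
        intro i _
        have hnn : ∀ k ∈ range (n + 1),
            0 ≤ (20000 / y * (1 / ((k : ℝ) + 1) ^ 4)) * win k i ω := fun k _ =>
          mul_nonneg (by positivity) (win_nonneg _ _ _)
        split_ifs with hI
        · obtain ⟨k, hk, h2⟩ := rough_win hge hI
          refine le_trans ?_ (single_le_sum hnn (mem_range.2 hk))
          have h3 : (0 : ℝ) < ((k : ℝ) + 1) ^ 4 := by positivity
          calc (1 : ℝ) = (20000 / y * (1 / ((k : ℝ) + 1) ^ 4)) *
                (y / 20000 * ((k : ℝ) + 1) ^ 4) := by field_simp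
            _ ≤ _ := mul_le_mul_of_nonneg_left h2.le (by positivity)
        · exact sum_nonneg hnn
      have h2 : (((range (n + 1)).filter fun i => Rough G (seen ω i) (min i (n - i) / 2) y).card : ℝ) =
          ∑ i ∈ range (n + 1), if Rough G (seen ω i) (min i (n - i) / 2) y then (1 : ℝ) else 0 := by
        rw [card_filter]
        push_cast
        rfl
      rw [h2]
      refine (sum_le_sum h1).trans (le_of_eq ?_)
      rw [sum_comm]
      refine sum_congr rfl fun k _ => ?_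
      rw [← mul_sum]
    have h1 := mean_mono hpt
    refine h1.trans ?_
    rw [mean_sum]
    have h2 : ∀ k ∈ range (n + 1), mean G n (fun ω => (20000 / y * (1 / ((k : ℝ) + 1) ^ 4)) *
        ∑ i ∈ range (n + 1), win k i ω) ≤
        20000 * K * (n + 1) / y * (((k : ℝ) + 1) ^ 2)⁻¹ := by
      intro k _
      rw [mean_const_mul]
      have h6 : (0 : ℝ) < (k : ℝ) + 1 := by positivity
      refine (mul_le_mul_of_nonneg_left (mean_win hK H G n k) (by positivity)).trans
        (le_of_eq ?_)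
      field_simp
    refine (sum_le_sum h2).trans ?_
    rw [← mul_sum]
    have h3 : ∑ k ∈ range (n + 1), (((k : ℝ) + 1) ^ 2)⁻¹ ≤ 2 := by
      have h4 := sum_Ioo_inv_sq_le (α := ℝ) 0 (n + 2)
      have h5 : ∑ k ∈ range (n + 1), (((k : ℝ) + 1) ^ 2)⁻¹ =
          ∑ i ∈ Ioo 0 (n + 2), ((i : ℝ) ^ 2)⁻¹ := by
        refine sum_bij (fun k _ => k + 1) ?_ ?_ ?_ ?_
        · intro k hk
          rw [mem_range] at hk
          rw [mem_Ioo]
          omega
        · intro a _ b _ hab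
          omega
        · intro b hb
          rw [mem_Ioo] at hb
          exact ⟨b - 1, mem_range.2 (by omega), by omega⟩
        · intro k _
          push_cast
          rfl
      rw [h5]
      refine h4.trans (le_of_eq ?_)
      norm_num
    have h4 : 0 ≤ 20000 * K * (n + 1) / y := by positivity
    calc 20000 * K * (n + 1) / y * ∑ k ∈ range (n + 1), (((k : ℝ) + 1) ^ 2)⁻¹ ≤
          20000 * K * (n + 1) / y * 2 := mul_le_mul_of_nonneg_left h3 h4
      _ ≤ _ := by
          rw [div_mul_eq_mul_div]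
          refine div_le_div_of_nonneg_right ?_ hy.le
          nlinarith

end Run7.h822.WN
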