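import Pool.Agent.Run7.h287.WN.Main

/-!
# Winding angles of the uniform element of a set of self-avoiding walks
-/

set_option autoImplicit false

namespace Run7.h822.WN

open Finset Run7.h529.FB Run7.h287.WN

/-- exponential tails -/
theorem tail_exp : ∃ K : ℝ, 0 < K ∧ ∀ G : Lattice, ∀ n : ℕ, 2 ≤ n → ∀ x : ℝ, 0 ≤ x →
    prob G n (fun ω => Winds ω (K * (Real.log n ^ 2 + x))) ≤ Real.exp (-x) := by
  obtain ⟨K1, hK1, H1⟩ := tail
  have hl2 : 0 < Real.log 2 := Real.log_pos (by norm_num)
  have he := Real.exp_one_gt_d9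
  refine ⟨Real.exp 1 * K1, by positivity, fun G n hn x hx => ?_⟩
  have hL : 0 < Real.log n ^ 2 := by
    have h1 : Real.log 2 ≤ Real.log n := Real.log_le_log (by norm_num) (by exact_mod_cast hn)
    have : 0 < Real.log n := by linarith
    positivity
  set y : ℝ := Real.exp 1 * K1 * (Real.log n ^ 2 + x) with hy
  have hy0 : 0 < y := by positivity
  have h1 := H1 G n hn y hy0
  have e0 : Real.exp 1 * K1 * Real.log n ^ 2 ≤ y := by
    rw [hy]
    have : 0 ≤ Real.exp 1 * K1 * x := by positivity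
    nlinarith
  have e1 : K1 * Real.log n ^ 2 / y ≤ Real.exp (-1) := by
    rw [div_le_iff₀ hy0]
    calc K1 * Real.log n ^ 2 = Real.exp (-1) * (Real.exp 1 * K1 * Real.log n ^ 2) := by
          rw [← mul_assoc, ← mul_assoc, ← Real.exp_add]; norm_num
      _ ≤ _ := by gcongr
  have e2 : x ≤ y / K1 := by
    rw [le_div_iff₀ hK1, hy]
    have : 0 ≤ (Real.exp 1 - 1) * K1 * x := by
      have : 0 ≤ Real.exp 1 - 1 := by linarith
      positivity
    have h3 : 0 ≤ Real.exp 1 * K1 * Real.log n ^ 2 := by positivity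
    nlinarith
  refine h1.trans ?_
  calc (K1 * Real.log n ^ 2 / y) ^ (y / K1) ≤ (Real.exp (-1)) ^ (y / K1) :=
        Real.rpow_le_rpow (by positivity) e1 (by positivity)
    _ = Real.exp (-(y / K1)) := by
        rw [← Real.exp_mul]
        ring_nf
    _ ≤ _ := Real.exp_le_exp.2 (by linarith)

open Classical in
lemma prob_eq_card {G : Lattice} {n : ℕ} (B : Walk G n → Prop) :
    prob G n B = ((univ.filter B).card : ℝ) / Fintype.card (Walk G n) := by
  unfold prob mean
  congr 1
  rw [card_filter]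
  push_cast
  refine sum_congr rfl fun ω _ => ?_
  split_ifs <;> rfl

open Classical in
theorem main_set : ∃ K : ℝ, 0 < K ∧ ∀ G : Lattice, ∀ n : ℕ, 2 ≤ n →
    ∀ (A : Finset (Walk G n)) (E x : ℝ), 0 ≤ E → 0 ≤ x →
      Real.exp (-E) * Fintype.card (Walk G n) ≤ A.card →
      ((A.filter fun ω => Winds ω (K * (Real.log n ^ 2 + E + x))).card : ℝ) ≤
        Real.exp (-x) * A.card := by
  obtain ⟨K, hK, H⟩ := tail_exp
  refine ⟨K, hK, fun G n hn A E x hE hx hA => ?_⟩
  have h1 := H G n hn (E + x) (by linarith)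
  rw [← add_assoc, prob_eq_card] at h1
  have hc := card_pos G n
  rw [div_le_iff₀ hc] at h1
  have h3 : ((A.filter fun ω => Winds ω (K * (Real.log n ^ 2 + E + x))).card : ℝ) ≤
      ((univ.filter fun ω : Walk G n => Winds ω (K * (Real.log n ^ 2 + E + x))).card : ℝ) := by
    exact_mod_cast card_le_card (filter_subset_filter _ (subset_univ A))
  calc _ ≤ Real.exp (-(E + x)) * Fintype.card (Walk G n) := h3.trans h1
    _ = Real.exp (-x) * (Real.exp (-E) * Fintype.card (Walk G n)) := by
        rw [neg_add, Real.exp_add]; ring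
    _ ≤ _ := by gcongr

end Run7.h822.WN
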