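import Pool.Agent.Run7.h822.WN.Regular

/-!
# Two-sided infinite self-avoiding walks
-/

set_option autoImplicit false

namespace Run7.h822.WN

open Finset Run7.h529.FB Run7.h287.WN Real MeasureTheory Filter Topology

variable {G : Lattice} {n : ℕ}

/-- the number of the times `i ≤ n` with the property `P` -/
noncomputable def times (n : ℕ) (P : ℕ → Prop) : ℕ := {i : ℕ | i ≤ n ∧ P i}.ncard

lemma times_eq (n : ℕ) (P : ℕ → Prop) [DecidablePred P] :
    times n P = ((range (n + 1)).filter P).card := by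
  unfold times
  rw [← Set.ncard_coe_finset]
  congr 1
  ext i
  simp

lemma times_mono {n : ℕ} {P P' : ℕ → Prop} (h : ∀ i, i ≤ n → P i → P' i) :
    times n P ≤ times n P' := by
  classical
  rw [times_eq, times_eq]
  refine card_le_card fun i hi => ?_
  rw [mem_filter, mem_range] at hi ⊢
  exact ⟨hi.1, h i (by omega) hi.2⟩

/-- For a uniformly chosen `n`-step walk `ω` and a uniformly chosen time `i ≤ n`: the probability that
there are at least `m` steps before and after the time `i` and that `ω`, seen from its vertex at time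
`i`, has the property `Q`. -/
noncomputable def avg (G : Lattice) (n m : ℕ) (Q : (ℤ → ℤ × ℤ) → Prop) : ℝ :=
  mean G n (fun ω => (times n (fun i => m ≤ i ∧ i + m ≤ n ∧ Q (seen ω i)) : ℝ)) / (n + 1)

/-- `ν` is a limit point of the laws of the uniform `n`-step walks seen from uniformly chosen times as
`n → ∞`: along some sequence of lengths which tends to infinity, for all `m` and `w` the
probability that the walk seen from the chosen time agrees with `w` between the times `-m` and `m`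
converges to the `ν`-measure of the two-sided infinite paths with this property. -/
def IsTwoSided (G : Lattice) (ν : Measure (ℤ → ℤ × ℤ)) : Prop :=
  ∃ N : ℕ → ℕ, Tendsto N atTop atTop ∧ ∀ (m : ℕ) (w : ℤ → ℤ × ℤ),
    Tendsto (fun k => avg G (N k) m (fun γ => ∀ j : ℤ, -(m : ℤ) ≤ j → j ≤ m → γ j = w j)) atTop
      (𝓝 (ν {γ | ∀ j : ℤ, -(m : ℤ) ≤ j → j ≤ m → γ j = w j}).toReal)

/-- the paths which agree with `w` between the times `-m` and `m` -/
def cyl2 (m : ℕ) (w : ℤ → ℤ × ℤ) : Set (ℤ → ℤ × ℤ) :=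
  {γ | ∀ j : ℤ, -(m : ℤ) ≤ j → j ≤ m → γ j = w j}

lemma measurable_cyl2 (m : ℕ) (w : ℤ → ℤ × ℤ) : MeasurableSet (cyl2 m w) := by
  have h : cyl2 m w = ⋂ j : ℤ, ⋂ _ : -(m : ℤ) ≤ j, ⋂ _ : j ≤ m,
      (fun γ : ℤ → ℤ × ℤ => γ j) ⁻¹' {w j} := by
    ext γ
    simp [cyl2]
  rw [h]
  exact MeasurableSet.iInter fun j => MeasurableSet.iInter fun _ => MeasurableSet.iInter fun _ =>
    (measurable_pi_apply _) (measurableSet_singleton _)

lemma sh_zero (G : Lattice) (p : ℤ × ℤ) : sh G 0 p = p := by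
  cases G with
  | square => exact sub_zero p
  | triangular => exact sub_zero p
  | honeycomb =>
    simp only [sh]
    rw [if_pos (by simp)]
    exact sub_zero p

/-- the windows determine the walks -/
lemma window_self {R : ℕ} (w : Walk G (2 * R)) {k : ℕ} (hk : k ≤ 2 * R) :
    window G (seen w R) R k = vertex w k := by
  rw [window_seen w le_rfl (by omega) hk, vertex_of_le _ hk, vertex_of_le w hk]
  show sh G (w.1 ⟨R - R, _⟩) (w.1 ⟨R - R + k, _⟩) = w.1 ⟨k, _⟩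
  have e0 : (⟨R - R, by omega⟩ : Fin (2 * R + 1)) = 0 := Fin.ext (by simp)
  have e1 : (⟨R - R + k, by omega⟩ : Fin (2 * R + 1)) = ⟨k, by omega⟩ := Fin.ext (by simp)
  rw [e0, e1, w.2.1]
  exact sh_zero G _

lemma window_congr {γ γ' : ℤ → ℤ × ℤ} {r : ℕ}
    (he : ∀ j : ℤ, -(r : ℤ) ≤ j → j ≤ r → γ j = γ' j) {k : ℕ} (hk : k ≤ 2 * r) :
    window G γ r k = window G γ' r k := by
  unfold window
  rw [he _ le_rfl (by omega), he _ (by omega) (by omega)]

lemma disjoint_cyl2 {R : ℕ} {w w' : Walk G (2 * R)} (h : w ≠ w') :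
    Disjoint (cyl2 R (seen w R)) (cyl2 R (seen w' R)) := by
  rw [Set.disjoint_left]
  intro γ h1 h2
  apply h
  apply Subtype.ext
  funext k
  have e1 := window_self w (show (k : ℕ) ≤ 2 * R by omega)
  have e2 := window_self w' (show (k : ℕ) ≤ 2 * R by omega)
  rw [← window_congr (G := G) (fun j hj1 hj2 => h1 j hj1 hj2) (by omega)] at e1
  rw [← window_congr (G := G) (fun j hj1 hj2 => h2 j hj1 hj2) (by omega)] at e2
  rw [e1, vertex_of_le w (by omega), vertex_of_le w' (by omega)] at e2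
  exact e2

lemma seen_piece (ω : Walk G n) {i R : ℕ} (h1 : R ≤ i) (h : i - R + 2 * R ≤ n) {j : ℤ}
    (hj1 : -(R : ℤ) ≤ j) (hj2 : j ≤ R) :
    seen (piece (i - R) (2 * R) h ω) R j = seen ω i j := by
  unfold seen
  rw [vertex_of_le _ (show R ≤ 2 * R by omega), vertex_of_le _ (show ((R : ℤ) + j).toNat ≤ 2 * R by
    omega), vertex_of_le ω (show i ≤ n by omega),
    vertex_of_le ω (show ((i : ℤ) + j).toNat ≤ n by omega)]
  show sh G (sh G (ω.1 ⟨i - R, _⟩) (ω.1 ⟨i - R + R, _⟩))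
    (sh G (ω.1 ⟨i - R, _⟩) (ω.1 ⟨i - R + ((R : ℤ) + j).toNat, _⟩)) = _
  rw [sh_sh]
  have e0 : (⟨i - R + R, by omega⟩ : Fin (n + 1)) = ⟨i, by omega⟩ := Fin.ext (by simp only; omega)
  have e1 : (⟨i - R + ((R : ℤ) + j).toNat, by omega⟩ : Fin (n + 1)) =
      ⟨((i : ℤ) + j).toNat, by omega⟩ := Fin.ext (by simp only; omega)
  rw [e0, e1]

theorem two_limit {ν : Measure (ℤ → ℤ × ℤ)} [IsProbabilityMeasure ν] (hν : IsTwoSided G ν)
    (R : ℕ) (Q : (ℤ → ℤ × ℤ) → Prop)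
    (hQ : ∀ γ γ' : ℤ → ℤ × ℤ, (∀ j : ℤ, -(R : ℤ) ≤ j → j ≤ R → γ j = γ' j) → Q γ → Q γ')
    {ε : ℝ} (hε : 0 ≤ ε)
    (h : ∀ n : ℕ, mean G n (fun ω => (times n (fun i =>
      2 * R ≤ i ∧ i + 2 * R ≤ n ∧ Q (seen ω i)) : ℝ)) ≤ ε * (n + 1)) :
    ν {γ | Q γ} ≤ ENNReal.ofReal ε := by
  classical
  obtain ⟨N, hN, hw⟩ := hν
  set S : Finset (Walk G (2 * R)) := univ.filter (fun w => ¬ Q (seen w R)) with hS
  set U : Set (ℤ → ℤ × ℤ) := ⋃ w ∈ S, cyl2 R (seen w R) with hU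
  have hUm : MeasurableSet U := Finset.measurableSet_biUnion _ (fun w _ => measurable_cyl2 _ _)
  have h1 : (ν U).toReal = ∑ w ∈ S, (ν (cyl2 R (seen w R))).toReal := by
    rw [hU, measure_biUnion_finset (fun w _ w' _ hne => disjoint_cyl2 hne)
      (fun w _ => measurable_cyl2 _ _), ENNReal.toReal_sum fun w _ => measure_ne_top _ _]
  have h2 : Tendsto (fun k => ∑ w ∈ S, avg G (N k) R (fun γ => ∀ j : ℤ, -(R : ℤ) ≤ j → j ≤ R →
      γ j = seen w R j)) atTop (𝓝 (ν U).toReal) := by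
    rw [h1]
    exact tendsto_finsetSum _ fun w _ => hw R (seen w R)
  -- the averages of the good windows
  have h3 : ∀ n : ℕ, 4 * R ≤ n → 1 - ε - 4 * R / (n + 1) ≤ ∑ w ∈ S, avg G n R (fun γ =>
      ∀ j : ℤ, -(R : ℤ) ≤ j → j ≤ R → γ j = seen w R j) := by
    intro n hn
    have hn1 : (0 : ℝ) < (n : ℝ) + 1 := by positivity
    have e1 : ∑ w ∈ S, avg G n R (fun γ => ∀ j : ℤ, -(R : ℤ) ≤ j → j ≤ R → γ j = seen w R j) =
        mean G n (fun ω => ∑ w ∈ S, (times n (fun i => R ≤ i ∧ i + R ≤ n ∧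
          ∀ j : ℤ, -(R : ℤ) ≤ j → j ≤ R → seen ω i j = seen w R j) : ℝ)) / (n + 1) := by
      unfold avg
      rw [← sum_div]
      congr 1
      unfold mean
      rw [← sum_div, sum_comm]
    rw [e1, le_div_iff₀ hn1]
    have e2 : (1 - ε - 4 * R / (n + 1)) * ((n : ℝ) + 1) = (n + 1) - 4 * R - ε * (n + 1) := by
      field_simp
      ring
    rw [e2]
    have hpt : ∀ ω : Walk G n, (((n : ℝ) + 1) - 4 * R) * 1 ≤
        (times n (fun i => 2 * R ≤ i ∧ i + 2 * R ≤ n ∧ Q (seen ω i)) : ℝ) +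
        ∑ w ∈ S, (times n (fun i => R ≤ i ∧ i + R ≤ n ∧
          ∀ j : ℤ, -(R : ℤ) ≤ j → j ≤ R → seen ω i j = seen w R j) : ℝ) := by
      intro ω
      simp only [times_eq]
      have hsub : Finset.Icc (2 * R) (n - 2 * R) ⊆
          ((range (n + 1)).filter fun i => 2 * R ≤ i ∧ i + 2 * R ≤ n ∧ Q (seen ω i)) ∪
          S.biUnion fun w => (range (n + 1)).filter fun i => R ≤ i ∧ i + R ≤ n ∧
            ∀ j : ℤ, -(R : ℤ) ≤ j → j ≤ R → seen ω i j = seen w R j := by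
        intro i hi
        rw [Finset.mem_Icc] at hi
        obtain ⟨hi1, hi2⟩ := hi
        rw [mem_union]
        by_cases hq : Q (seen ω i)
        · left
          rw [mem_filter, mem_range]
          exact ⟨by omega, hi1, by omega, hq⟩
        · right
          rw [mem_biUnion]
          have h3 : i - R + 2 * R ≤ n := by omega
          have h4 : ∀ j : ℤ, -(R : ℤ) ≤ j → j ≤ R →
              seen ω i j = seen (piece (i - R) (2 * R) h3 ω) R j := fun j hj1 hj2 =>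
            (seen_piece ω (by omega) h3 hj1 hj2).symm
          refine ⟨piece (i - R) (2 * R) h3 ω, ?_, ?_⟩
          · rw [hS, mem_filter]
            exact ⟨mem_univ _, fun hh => hq (hQ _ _ (fun j hj1 hj2 => (h4 j hj1 hj2).symm) hh)⟩
          · rw [mem_filter, mem_range]
            exact ⟨by omega, by omega, by omega, h4⟩
      have hcard := (card_le_card hsub).trans
        ((card_union_le _ _).trans (Nat.add_le_add_left card_biUnion_le _))
      rw [Nat.card_Icc] at hcard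
      have h5 : n + 1 ≤ 4 * R + (n - 2 * R + 1 - 2 * R) := by omega
      have h6 := h5.trans (Nat.add_le_add_left hcard (4 * R))
      have h7 : ((n + 1 : ℕ) : ℝ) ≤ ((4 * R + (((range (n + 1)).filter fun i =>
          2 * R ≤ i ∧ i + 2 * R ≤ n ∧ Q (seen ω i)).card +
          ∑ w ∈ S, ((range (n + 1)).filter fun i => R ≤ i ∧ i + R ≤ n ∧
            ∀ j : ℤ, -(R : ℤ) ≤ j → j ≤ R → seen ω i j = seen w R j).card) : ℕ) : ℝ) := by
        exact_mod_cast h6
      push_cast at h7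
      linarith
    have h4 := mean_mono hpt
    rw [mean_const_mul, mean_one, mul_one] at h4
    have e3 : mean G n (fun ω => (times n (fun i =>
        2 * R ≤ i ∧ i + 2 * R ≤ n ∧ Q (seen ω i)) : ℝ) +
        ∑ w ∈ S, (times n (fun i => R ≤ i ∧ i + R ≤ n ∧
          ∀ j : ℤ, -(R : ℤ) ≤ j → j ≤ R → seen ω i j = seen w R j) : ℝ)) =
        mean G n (fun ω => (times n (fun i =>
          2 * R ≤ i ∧ i + 2 * R ≤ n ∧ Q (seen ω i)) : ℝ)) +
        mean G n (fun ω => ∑ w ∈ S, (times n (fun i => R ≤ i ∧ i + R ≤ n ∧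
          ∀ j : ℤ, -(R : ℤ) ≤ j → j ≤ R → seen ω i j = seen w R j) : ℝ)) := by
      unfold mean
      rw [← add_div, ← sum_add_distrib]
    rw [e3] at h4
    have h5 := h n
    linarith
  have h4 : 1 - ε ≤ (ν U).toReal := by
    have hlim : Tendsto (fun k => 1 - ε - 4 * (R : ℝ) / ((N k : ℝ) + 1)) atTop (𝓝 (1 - ε - 0)) := by
      refine tendsto_const_nhds.sub ?_
      exact Tendsto.div_atTop tendsto_const_nhds
        (tendsto_atTop_add_const_right _ _ (tendsto_natCast_atTop_atTop.comp hN))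
    rw [sub_zero] at hlim
    refine le_of_tendsto_of_tendsto hlim h2 ?_
    filter_upwards [hN.eventually_ge_atTop (4 * R)] with k hk
    exact h3 (N k) hk
  have h5 : {γ | Q γ} ⊆ Uᶜ := by
    intro γ hγ hγU
    rw [hU, Set.mem_iUnion₂] at hγU
    obtain ⟨w, hwS, hwγ⟩ := hγU
    rw [hS, mem_filter] at hwS
    exact hwS.2 (hQ _ _ hwγ hγ)
  refine (measure_mono h5).trans ?_
  rw [prob_compl_eq_one_sub hUm, tsub_le_iff_right]
  have h6 : ν U = ENNReal.ofReal (ν U).toReal := (ENNReal.ofReal_toReal (measure_ne_top _ _)).symm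
  rw [h6, ← ENNReal.ofReal_add hε ENNReal.toReal_nonneg, ← ENNReal.ofReal_one]
  exact ENNReal.ofReal_le_ofReal (by linarith)

lemma Rough.congr {γ γ' : ℤ → ℤ × ℤ} {R : ℕ} {y : ℝ} (h : Rough G γ R y)
    (he : ∀ j : ℤ, -(R : ℤ) ≤ j → j ≤ R → γ j = γ' j) : Rough G γ' R y := by
  obtain ⟨r, hr1, hr2, hT⟩ := h
  refine ⟨r, hr1, hr2, fun hh => hT (hh.congr fun j hj1 hj2 => ?_)⟩
  exact (he j (by omega) (by omega)).symm

open Classical in
theorem times_at : ∃ K : ℝ, 0 < K ∧ ∀ G : Lattice, ∀ n r : ℕ, 1 ≤ r → ∀ y : ℝ, 0 < y →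
    mean G n (fun ω => (times n (fun i => 2 * r ≤ i ∧ i + 2 * r ≤ n ∧
      ¬ TameAt G (seen ω i) r (y * Real.log (r + 1) ^ 2)) : ℝ)) ≤ K * (n + 1) / y := by
  obtain ⟨K, hK, H⟩ := rough_at_le
  refine ⟨K, hK, fun G n r hr y hy => le_trans (mean_mono fun ω => le_of_eq ?_)
    (H G n r hr y hy)⟩
  exact congrArg _ (@times_eq _ _ _)

open Classical in
theorem times_rough : ∃ K : ℝ, 0 < K ∧ ∀ G : Lattice, ∀ n : ℕ, ∀ y : ℝ, 0 < y →
    mean G n (fun ω => (times n (fun i => Rough G (seen ω i) (min i (n - i) / 2) y) : ℝ)) ≤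
      K * (n + 1) / y := by
  obtain ⟨K, hK, H⟩ := rough_le
  refine ⟨K, hK, fun G n y hy => le_trans (mean_mono fun ω => le_of_eq ?_) (H G n y hy)⟩
  exact congrArg _ (@times_eq _ _ _)

theorem two_at {K : ℝ} (hK : 0 < K)
    (H : ∀ n r : ℕ, 1 ≤ r → ∀ y : ℝ, 0 < y →
      mean G n (fun ω => (times n (fun i => 2 * r ≤ i ∧ i + 2 * r ≤ n ∧
        ¬ TameAt G (seen ω i) r (y * Real.log (r + 1) ^ 2)) : ℝ)) ≤ K * (n + 1) / y)
    {ν : Measure (ℤ → ℤ × ℤ)} [IsProbabilityMeasure ν] (hν : IsTwoSided G ν) {r : ℕ} (hr : 1 ≤ r)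
    {y : ℝ} (hy : 0 < y) :
    ν {γ | ¬ TameAt G γ r (y * Real.log (r + 1) ^ 2)} ≤ ENNReal.ofReal (K / y) := by
  refine two_limit hν r (fun γ => ¬ TameAt G γ r (y * Real.log (r + 1) ^ 2))
    (fun γ γ' he hT hh => hT (hh.congr fun j hj1 hj2 => (he j hj1 hj2).symm)) (by positivity)
    fun n => ?_
  refine (H n r hr y hy).trans (le_of_eq ?_)
  ring

theorem two_rough {K : ℝ} (hK : 0 < K)
    (H : ∀ n : ℕ, ∀ y : ℝ, 0 < y → mean G n (fun ω =>
      (times n (fun i => Rough G (seen ω i) (min i (n - i) / 2) y) : ℝ)) ≤ K * (n + 1) / y)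
    {ν : Measure (ℤ → ℤ × ℤ)} [IsProbabilityMeasure ν] (hν : IsTwoSided G ν) {y : ℝ}
    (hy : 0 < y) :
    ν {γ | ∃ R : ℕ, Rough G γ R y} ≤ ENNReal.ofReal (K / y) := by
  have h1 : {γ : ℤ → ℤ × ℤ | ∃ R : ℕ, Rough G γ R y} = ⋃ R : ℕ, {γ | Rough G γ R y} := by
    ext γ
    simp only [Set.mem_iUnion]
    rfl
  have hmono : Monotone (fun R : ℕ => {γ : ℤ → ℤ × ℤ | Rough G γ R y}) := by
    rintro R R' hRR' γ ⟨r, hr1, hr2, hT⟩
    exact ⟨r, hr1, hr2.trans hRR', hT⟩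
  rw [h1, hmono.measure_iUnion]
  refine iSup_le fun R => ?_
  refine two_limit hν R (fun γ => Rough G γ R y) (fun γ γ' he hh => hh.congr he)
    (by positivity) fun n => ?_
  have e1 : K * ((n : ℝ) + 1) / y = K / y * (n + 1) := by ring
  refine le_trans ?_ ((H n y hy).trans (le_of_eq e1))
  apply mean_mono
  intro ω
  have : times n (fun i => 2 * R ≤ i ∧ i + 2 * R ≤ n ∧ Rough G (seen ω i) R y) ≤
      times n (fun i => Rough G (seen ω i) (min i (n - i) / 2) y) := by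
    refine times_mono fun i _ hi => ?_
    obtain ⟨h2, h3, r, hr1, hr2, hT⟩ := hi
    exact ⟨r, hr1, by omega, hT⟩
  exact_mod_cast this

theorem two_ae {K : ℝ} {ν : Measure (ℤ → ℤ × ℤ)}
    (H : ∀ y : ℝ, 0 < y → ν {γ | ∃ R : ℕ, Rough G γ R y} ≤ ENNReal.ofReal (K / y)) :
    ∀ᵐ γ ∂ν, ∃ y : ℝ, ∀ r : ℕ, 1 ≤ r → TameAt G γ r (y * Real.log (r + 1) ^ 4) := by
  rw [ae_iff]
  have h1 : ∀ j : ℕ, ν {γ | ¬ ∃ y : ℝ, ∀ r : ℕ, 1 ≤ r →
      TameAt G γ r (y * Real.log (r + 1) ^ 4)} ≤ ENNReal.ofReal (K / ((j : ℝ) + 1)) := by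
    intro j
    refine (measure_mono ?_).trans (H ((j : ℝ) + 1) (by positivity))
    intro γ hγ
    by_contra hcon
    apply hγ
    refine ⟨(j : ℝ) + 1, fun r hr => ?_⟩
    by_contra hT
    exact hcon ⟨r, r, hr, le_rfl, hT⟩
  have h2 : Tendsto (fun j : ℕ => ENNReal.ofReal (K / ((j : ℝ) + 1))) atTop (𝓝 0) := by
    rw [← ENNReal.ofReal_zero]
    refine ENNReal.tendsto_ofReal ?_
    exact Tendsto.div_atTop tendsto_const_nhds
      (tendsto_atTop_add_const_right _ _ tendsto_natCast_atTop_atTop)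
  exact le_antisymm (ge_of_tendsto' h2 h1) zero_le

end Run7.h822.WN
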