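import Pool.Agent.Run7.h822.WN.Bulk

/-!
# Typical times
-/

set_option autoImplicit false

namespace Run7.h822.WN

open Finset Run7.h529.FB Run7.h287.WN Real

variable {G : Lattice} {n : ℕ}

lemma mean_le_log {X : Walk G n → ℝ} {Z : ℝ} (hZ : 0 < Z)
    (h : mean G n (fun ω => Real.exp (X ω)) ≤ Z) : mean G n X ≤ Real.log Z := by
  have h1 : ∀ ω : Walk G n, X ω ≤ Z⁻¹ * Real.exp (X ω) + (Real.log Z - 1) * 1 := by
    intro ω
    have h2 := Real.add_one_le_exp (X ω - Real.log Z)
    rw [Real.exp_sub, Real.exp_log hZ, div_eq_mul_inv, mul_comm] at h2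
    linarith
  have h2 := mean_mono h1
  have h3 : mean G n (fun ω => Z⁻¹ * Real.exp (X ω) + (Real.log Z - 1) * 1) =
      Z⁻¹ * mean G n (fun ω => Real.exp (X ω)) + (Real.log Z - 1) * mean G n (fun _ => 1) := by
    rw [← mean_const_mul, ← mean_const_mul]
    unfold mean
    rw [← add_div, ← sum_add_distrib]
  rw [h3, mean_one] at h2
  have h4 : Z⁻¹ * mean G n (fun ω => Real.exp (X ω)) ≤ 1 := by
    rw [inv_mul_le_iff₀ hZ, mul_one]
    exact h
  linarith

lemma card_zero_le (G : Lattice) : (Fintype.card (Walk G 0) : ℝ) ≤ 1 := by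
  have : Fintype.card (Walk G 0) ≤ 1 := by
    rw [Fintype.card_le_one_iff]
    intro ω ω'
    apply Subtype.ext
    funext i
    have : i = 0 := Fin.ext (by omega)
    rw [this, ω.2.1, ω'.2.1]
  exact_mod_cast this

/-- the constant of the splitting inequality, for all lengths and all lattices -/
theorem splitting_all : ∃ B : ℝ, 0 ≤ B ∧ ∀ G : Lattice, ∀ n m M : ℕ, m ≤ M →
    (Fintype.card (Walk G n) : ℝ) * Fintype.card (Walk G m) ≤
      Real.exp (B * Real.log ((M : ℝ) + 1) ^ 2) * Fintype.card (Walk G (n + m)) := by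
  have key : ∀ G : Lattice, ∀ B : ℝ, 0 ≤ B → (∀ n m : ℕ, 1 ≤ n → 1 ≤ m →
      (Fintype.card (Walk G n) : ℝ) * Fintype.card (Walk G m) ≤
      Real.exp (B * Real.log ((m : ℝ) + 1) ^ 2) * Fintype.card (Walk G (n + m))) →
      ∀ B' : ℝ, B ≤ B' → ∀ n m M : ℕ, m ≤ M →
      (Fintype.card (Walk G n) : ℝ) * Fintype.card (Walk G m) ≤
      Real.exp (B' * Real.log ((M : ℝ) + 1) ^ 2) * Fintype.card (Walk G (n + m)) := by
    intro G B hB H B' hB' n m M hm
    have hlog : Real.log ((m : ℝ) + 1) ^ 2 ≤ Real.log ((M : ℝ) + 1) ^ 2 := by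
      have h1 : (m : ℝ) ≤ M := by exact_mod_cast hm
      have h0 : (0 : ℝ) ≤ m := Nat.cast_nonneg _
      exact pow_le_pow_left₀ (Real.log_nonneg (by linarith))
        (Real.log_le_log (by linarith) (by linarith)) 2
    have hexp : Real.exp (B * Real.log ((m : ℝ) + 1) ^ 2) ≤
        Real.exp (B' * Real.log ((M : ℝ) + 1) ^ 2) :=
      Real.exp_le_exp.2 (mul_le_mul hB' hlog (sq_nonneg _) (hB.trans hB'))
    have hone : 1 ≤ Real.exp (B' * Real.log ((M : ℝ) + 1) ^ 2) :=
      Real.one_le_exp (mul_nonneg (hB.trans hB') (sq_nonneg _))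
    rcases Nat.eq_zero_or_pos n with rfl | hn
    · rw [Nat.zero_add]
      exact mul_le_mul ((card_zero_le G).trans hone) le_rfl (Nat.cast_nonneg _) (Real.exp_pos _).le
    rcases Nat.eq_zero_or_pos m with rfl | hm0
    · rw [Nat.add_zero, mul_comm]
      exact mul_le_mul ((card_zero_le G).trans hone) le_rfl (Nat.cast_nonneg _) (Real.exp_pos _).le
    · exact (H n m hn hm0).trans (mul_le_mul_of_nonneg_right hexp (Nat.cast_nonneg _))
  obtain ⟨Bs, hBs, hs⟩ := splitting .square
  obtain ⟨Bt, hBt, ht⟩ := splitting .triangular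
  obtain ⟨Bh, hBh, hh⟩ := splitting .honeycomb
  refine ⟨Bs + Bt + Bh, by positivity, fun G => ?_⟩
  cases G with
  | square => exact key _ Bs hBs hs _ (by linarith)
  | triangular => exact key _ Bt hBt ht _ (by linarith)
  | honeycomb => exact key _ Bh hBh hh _ (by linarith)

/-- the value of `f` at the piece, `0` if there is no such piece -/
noncomputable def fp {m : ℕ} (f : Walk G m → ℝ) (i : ℕ) (ω : Walk G n) : ℝ :=
  if h : i + m ≤ n then f (piece i m h ω) else 0

lemma exp_fp {m : ℕ} (f : Walk G m → ℝ) (i : ℕ) (ω : Walk G n) :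
    Real.exp (fp f i ω) = Fp (fun η => Real.exp (f η)) i ω := by
  unfold fp Fp
  split_ifs
  · rfl
  · exact Real.exp_zero

theorem block {B : ℝ} (H : ∀ n m M : ℕ, m ≤ M →
    (Fintype.card (Walk G n) : ℝ) * Fintype.card (Walk G m) ≤
      Real.exp (B * Real.log ((M : ℝ) + 1) ^ 2) * Fintype.card (Walk G (n + m)))
    {m : ℕ} (f : Walk G m → ℝ) (j r N : ℕ) (hr : r ≤ m) (hn : n = j + (N * m + r)) :
    mean G n (fun ω => ∑ k ∈ range N, fp f (j + k * m) ω) ≤
      N * Real.log (mean G m (fun η => Real.exp (f η))) +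
        (N + 1) * (B * Real.log ((m : ℝ) + 1) ^ 2) := by
  set E : ℝ := B * Real.log ((m : ℝ) + 1) ^ 2 with hE
  set Z : ℝ := mean G m (fun η => Real.exp (f η)) with hZ
  have hm0 := card_pos G m
  have hn0 := card_pos G n
  have hsum : 0 < ∑ η : Walk G m, Real.exp (f η) := by
    have : Nonempty (Walk G m) := by
      rw [← Fintype.card_pos_iff]
      exact_mod_cast hm0
    exact sum_pos (fun _ _ => Real.exp_pos _) univ_nonempty
  have hZ0 : 0 < Z := div_pos hsum hm0
  -- the numbers of walks
  have hc : ∀ N : ℕ, (Fintype.card (Walk G j) : ℝ) * (Fintype.card (Walk G m) : ℝ) ^ N ≤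
      Real.exp (N * E) * Fintype.card (Walk G (j + N * m)) := by
    intro N
    induction N with
    | zero => simp
    | succ N ih =>
      have h1 := H (j + N * m) m m le_rfl
      have e1 : j + N * m + m = j + (N + 1) * m := by ring
      rw [e1] at h1
      calc (Fintype.card (Walk G j) : ℝ) * (Fintype.card (Walk G m) : ℝ) ^ (N + 1) =
            ((Fintype.card (Walk G j) : ℝ) * (Fintype.card (Walk G m) : ℝ) ^ N) *
              Fintype.card (Walk G m) := by ring
        _ ≤ (Real.exp (N * E) * Fintype.card (Walk G (j + N * m))) *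
              Fintype.card (Walk G m) := mul_le_mul_of_nonneg_right ih (Nat.cast_nonneg _)
        _ = Real.exp (N * E) * (Fintype.card (Walk G (j + N * m)) *
              Fintype.card (Walk G m)) := by ring
        _ ≤ Real.exp (N * E) * (Real.exp E * Fintype.card (Walk G (j + (N + 1) * m))) :=
            mul_le_mul_of_nonneg_left h1 (Real.exp_pos _).le
        _ = _ := by
            rw [← mul_assoc, ← Real.exp_add]
            push_cast
            congr 2
            ring
  have hc2 : (Fintype.card (Walk G j) : ℝ) * (Fintype.card (Walk G m) : ℝ) ^ N *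
      Fintype.card (Walk G r) ≤ Real.exp ((N + 1) * E) * Fintype.card (Walk G n) := by
    have h1 := H (j + N * m) r m hr
    have e1 : j + N * m + r = n := by rw [hn]; ring
    rw [e1] at h1
    calc (Fintype.card (Walk G j) : ℝ) * (Fintype.card (Walk G m) : ℝ) ^ N *
          Fintype.card (Walk G r) ≤
          (Real.exp (N * E) * Fintype.card (Walk G (j + N * m))) * Fintype.card (Walk G r) :=
          mul_le_mul_of_nonneg_right (hc N) (Nat.cast_nonneg _)
      _ = Real.exp (N * E) * (Fintype.card (Walk G (j + N * m)) * Fintype.card (Walk G r)) := by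
          ring
      _ ≤ Real.exp (N * E) * (Real.exp E * Fintype.card (Walk G n)) :=
          mul_le_mul_of_nonneg_left h1 (Real.exp_pos _).le
      _ = _ := by
          rw [← mul_assoc, ← Real.exp_add]
          congr 2
          ring
  have h1 := sum_prod' (n := n) (fun η : Walk G m => Real.exp (f η))
    (fun η => (Real.exp_pos _).le) j r N hn
  have h2 : mean G n (fun ω => Real.exp (∑ k ∈ range N, fp f (j + k * m) ω)) ≤
      Z ^ N * Real.exp ((N + 1) * E) := by
    unfold mean
    rw [div_le_iff₀ hn0]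
    have e1 : ∀ ω : Walk G n, Real.exp (∑ k ∈ range N, fp f (j + k * m) ω) =
        ∏ k ∈ range N, Fp (fun η => Real.exp (f η)) (j + k * m) ω := by
      intro ω
      rw [Real.exp_sum]
      exact prod_congr rfl fun k _ => exp_fp f _ ω
    rw [sum_congr rfl fun ω _ => e1 ω]
    refine h1.trans ?_
    have e2 : ∑ η : Walk G m, Real.exp (f η) = Z * Fintype.card (Walk G m) := by
      rw [hZ]
      unfold mean
      field_simp
    rw [e2, mul_pow]
    calc (Fintype.card (Walk G j) : ℝ) *
          (Z ^ N * (Fintype.card (Walk G m) : ℝ) ^ N * Fintype.card (Walk G r)) =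
          Z ^ N * ((Fintype.card (Walk G j) : ℝ) * (Fintype.card (Walk G m) : ℝ) ^ N *
            Fintype.card (Walk G r)) := by ring
      _ ≤ Z ^ N * (Real.exp ((N + 1) * E) * Fintype.card (Walk G n)) :=
          mul_le_mul_of_nonneg_left hc2 (by positivity)
      _ = _ := by ring
  have h3 := mean_le_log (by positivity) h2
  rw [Real.log_mul (by positivity) (Real.exp_pos _).ne', Real.log_pow, Real.log_exp] at h3
  exact h3

lemma mean_sum {S : Finset ℕ} (f : ℕ → Walk G n → ℝ) :
    mean G n (fun ω => ∑ k ∈ S, f k ω) = ∑ k ∈ S, mean G n (f k) := by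
  unfold mean
  rw [← sum_div, sum_comm]

theorem typical : ∃ B : ℝ, 0 ≤ B ∧ ∀ G : Lattice, ∀ n m : ℕ, 1 ≤ m → ∀ f : Walk G m → ℝ,
    ∑ i ∈ range (n + 1 - m), mean G n (fp f i) ≤
      ((n + 1 - m : ℕ) : ℝ) * (Real.log (mean G m (fun η => Real.exp (f η))) +
        B * Real.log ((m : ℝ) + 1) ^ 2) := by
  obtain ⟨B, hB, H⟩ := splitting_all
  refine ⟨2 * B, by positivity, fun G n m hm f => ?_⟩
  set Λ : ℝ := Real.log (mean G m (fun η => Real.exp (f η))) with hΛ
  set E : ℝ := B * Real.log ((m : ℝ) + 1) ^ 2 with hE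
  have hE0 : 0 ≤ E := by positivity
  rw [Pool.Agent.TH546.SAW.sum_residue m n hm]
  have h1 : ∀ j ∈ range m, ∑ k ∈ range ((n - j) / m), mean G n (fp f (j + k * m)) ≤
      ∑ k ∈ range ((n - j) / m), (Λ + 2 * E) := by
    intro j _
    set N := (n - j) / m with hN
    rw [sum_const, card_range, nsmul_eq_mul]
    rcases Nat.eq_zero_or_pos N with h0 | h0
    · rw [h0]
      simp
    · have hjn : j ≤ n := by
        by_contra hcon
        have : n - j = 0 := by omega
        rw [this, Nat.zero_div] at hN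
        omega
      have hr : (n - j) % m ≤ m := (Nat.mod_lt _ hm).le
      have hn : n = j + (N * m + (n - j) % m) := by
        have := Nat.div_add_mod (n - j) m
        rw [← hN, mul_comm] at this
        omega
      have h2 := block (H G) f j ((n - j) % m) N hr hn
      rw [mean_sum] at h2
      refine h2.trans ?_
      have h3 : (1 : ℝ) ≤ N := by exact_mod_cast h0
      nlinarith
  refine (sum_le_sum h1).trans (le_of_eq ?_)
  rw [← Pool.Agent.TH546.SAW.sum_residue m n hm (fun _ => Λ + 2 * E), sum_const, card_range,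
    nsmul_eq_mul]
  ring

end Run7.h822.WN
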