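import Pool.Agent.Run7.h822.WN.Plan

/-!
# Winding angles and total turning of lattice paths

The winding angle around a point is `2 π` times the number of signed crossings of a half-line, up to
the arguments of the end points. The total turning of a self-avoiding path is the sum of its winding
angles around its two end points (the proof of the Umlaufsatz by H. Hopf).
-/

set_option autoImplicit false

namespace Run7.h822.WN

open Finset Complex

/-! ### concatenations of bridges -/

lemma cr_flip (a b : ℤ) (p q : ℤ × ℤ) :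
    cr a b p q = -cr a (1 - b) (p.1, -p.2) (q.1, -q.2) := by
  unfold cr
  split_ifs <;> omega

lemma nb_flip {p q : ℤ × ℤ} (h : Nb p q) : Nb (p.1, -p.2) (q.1, -q.2) := by
  unfold Nb at h ⊢
  simp only [Prod.ext_iff] at h ⊢
  omega

/-- a piece which is a bridge in the second coordinate -/
def Br (γ : ℕ → ℤ × ℤ) (s t : ℕ) : Prop :=
  s ≤ t ∧ ((∀ i, s ≤ i → i ≤ t → (γ s).2 ≤ (γ i).2 ∧ (γ i).2 ≤ (γ t).2) ∨
   (∀ i, s ≤ i → i ≤ t → (γ t).2 ≤ (γ i).2 ∧ (γ i).2 ≤ (γ s).2))

theorem bridge_abs {γ : ℕ → ℤ × ℤ} {s t : ℕ}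
    (hst : ∀ i, s ≤ i → i < t → Nb (γ i) (γ (i + 1)))
    (hinj : ∀ i j, s ≤ i → i ≤ t → s ≤ j → j ≤ t → γ i = γ j → i = j)
    (h : Br γ s t) (a b : ℤ) : |∑ i ∈ Ico s t, cr a b (γ i) (γ (i + 1))| ≤ 1 := by
  obtain ⟨h0, h⟩ := h
  rcases h0.eq_or_lt with rfl | h0
  · simp
  rcases h with h | h
  · have := bridge_up h0 hst hinj h a b
    rw [abs_le]
    omega
  · have h1 : ∑ i ∈ Ico s t, cr a b (γ i) (γ (i + 1)) =
        -∑ i ∈ Ico s t, cr a (1 - b) ((γ i).1, -(γ i).2) ((γ (i + 1)).1, -(γ (i + 1)).2) := by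
      rw [← sum_neg_distrib]
      exact sum_congr rfl fun i _ => cr_flip a b _ _
    have h2 := bridge_up (γ := fun i => ((γ i).1, -(γ i).2)) h0
      (fun i hi hit => nb_flip (hst i hi hit))
      (fun i j hi hit hj hjt e => hinj i j hi hit hj hjt (by
        simp only [Prod.mk.injEq, neg_inj] at e
        exact Prod.ext e.1 e.2))
      (fun i hi hit => by have := h i hi hit; simp only; omega) a (1 - b)
    rw [h1, abs_neg, abs_le]
    omega

/-- a concatenation of `m` bridges -/
def Cut (γ : ℕ → ℤ × ℤ) (m s t : ℕ) : Prop :=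
  ∃ τ : ℕ → ℕ, τ 0 = s ∧ τ m = t ∧ ∀ i < m, Br γ (τ i) (τ (i + 1))

theorem cut_abs {γ : ℕ → ℤ × ℤ} {m s t : ℕ}
    (hst : ∀ i, s ≤ i → i < t → Nb (γ i) (γ (i + 1)))
    (hinj : ∀ i j, s ≤ i → i ≤ t → s ≤ j → j ≤ t → γ i = γ j → i = j)
    (h : Cut γ m s t) (a b : ℤ) : |∑ i ∈ Ico s t, cr a b (γ i) (γ (i + 1))| ≤ m := by
  obtain ⟨τ, h1, h2, h3⟩ := h
  have hmono : ∀ i j, i ≤ j → j ≤ m → τ i ≤ τ j := by
    intro i j hij
    induction j, hij using Nat.le_induction with
    | base => intro _; exact le_rfl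
    | succ j hj ih => intro hjm; exact (ih (by omega)).trans (h3 j (by omega)).1
  have key : ∀ k, k ≤ m → |∑ i ∈ Ico (τ 0) (τ k), cr a b (γ i) (γ (i + 1))| ≤ k := by
    intro k
    induction k with
    | zero => intro _; simp
    | succ k ih =>
      intro hk
      have g1 := ih (by omega)
      have g2 : s ≤ τ k := by rw [← h1]; exact hmono 0 k (by omega) (by omega)
      have g3 : τ (k + 1) ≤ t := by rw [← h2]; exact hmono (k + 1) m hk le_rfl
      have g4 := bridge_abs (s := τ k) (t := τ (k + 1))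
        (fun i hi hit => hst i (by omega) (by omega))
        (fun i j hi hit hj hjt e => hinj i j (by omega) (by omega) (by omega) (by omega) e)
        (h3 k (by omega)) a b
      rw [← sum_Ico_consecutive _ (hmono 0 k (by omega) (by omega)) (h3 k (by omega)).1]
      push_cast
      exact (abs_add_le _ _).trans (add_le_add g1 g4)
  have := key m le_rfl
  rwa [h1, h2] at this

/-! ### arguments -/

lemma re_div_pos {z w : ℂ} (hz : 1 ≤ ‖z‖) (hw : 1 ≤ ‖w‖) (h : ‖w - z‖ ≤ 1) : 0 < (w / z).re := by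
  have hz0 : 0 < normSq z := by
    rw [normSq_eq_norm_sq]
    positivity
  have h1 : normSq (w - z) ≤ 1 := by
    rw [normSq_eq_norm_sq]
    have := norm_nonneg (w - z)
    nlinarith
  have h2 : 1 ≤ normSq z := by rw [normSq_eq_norm_sq]; nlinarith
  have h3 : 1 ≤ normSq w := by rw [normSq_eq_norm_sq]; nlinarith
  rw [div_re, ← add_div]
  apply div_pos _ hz0
  simp only [normSq_apply, sub_re, sub_im] at h1 h2 h3
  nlinarith

lemma abs_arg_lt {z : ℂ} (h : 0 < z.re) : |arg z| < Real.pi / 2 :=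
  abs_arg_lt_pi_div_two_iff.2 (Or.inl h)

lemma ang_add {z w v : ℂ} (hw : w ≠ 0) (h1 : 0 < (w / z).re) (h2 : 0 < (v / w).re) :
    arg (w / z) + arg (v / w) = arg (v / z) := by
  have g1 := abs_lt.1 (abs_arg_lt h1)
  have g2 := abs_lt.1 (abs_arg_lt h2)
  have e : v / z = w / z * (v / w) := by
    rw [div_mul_div_comm, mul_comm z w, mul_div_mul_left _ _ hw]
  rw [e, arg_mul]
  · intro h; rw [h] at h1; simp at h1
  · intro h; rw [h] at h2; simp at h2
  · exact ⟨by linarith [g1.1, g2.1], by linarith [g1.2, g2.2]⟩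

/-- the angles around a small square -/
lemma square {a b c d : ℂ} (ha : 1 ≤ ‖a‖) (hb : 1 ≤ ‖b‖) (hc : 1 ≤ ‖c‖) (hd : 1 ≤ ‖d‖)
    (hab : ‖b - a‖ ≤ 1) (hbd : ‖d - b‖ ≤ 1) (hac : ‖c - a‖ ≤ 1) (hcd : ‖d - c‖ ≤ 1) :
    arg (b / a) + arg (d / b) = arg (c / a) + arg (d / c) := by
  have hb0 : b ≠ 0 := by rintro rfl; simp at hb; linarith
  have hc0 : c ≠ 0 := by rintro rfl; simp at hc; linarith
  rw [ang_add hb0 (re_div_pos ha hb hab) (re_div_pos hb hd hbd),
    ang_add hc0 (re_div_pos ha hc hac) (re_div_pos hc hd hcd)]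

/-- the winding angle of the sequence `z` around `P` between the times `s` and `t` -/
noncomputable def wind (z : ℕ → ℂ) (P : ℂ) (s t : ℕ) : ℝ :=
  ∑ i ∈ Ico s t, arg ((z (i + 1) - P) / (z i - P))

/-- the total turning of the sequence `z` between the times `s` and `t + 1` -/
noncomputable def turn (z : ℕ → ℂ) (s t : ℕ) : ℝ :=
  ∑ i ∈ Ico s t, arg ((z (i + 2) - z (i + 1)) / (z (i + 1) - z i))

/-- **Hopf**: the total turning is the sum of the winding angles around the two end points. -/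
theorem hopf {z : ℕ → ℂ} {s r : ℕ} (hsr : s ≤ r)
    (h1 : ∀ i, s ≤ i → i ≤ r → ‖z (i + 1) - z i‖ = 1)
    (h2 : ∀ i j, s ≤ i → i < j → j ≤ r + 1 → 1 ≤ ‖z j - z i‖) :
    turn z s r = wind z (z s) (s + 1) (r + 1) + wind z (z (r + 1)) s r := by
  induction r, hsr using Nat.le_induction with
  | base => simp [turn, wind]
  | succ r hr ih =>
    have ih := ih (fun i hi hir => h1 i hi (by omega)) (fun i j hi hij hj => h2 i j hi hij (by omega))
    have e1 : turn z s (r + 1) = turn z s r +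
        arg ((z (r + 2) - z (r + 1)) / (z (r + 1) - z r)) := by
      unfold turn; rw [sum_Ico_succ_top (by omega)]
    have e2 : wind z (z s) (s + 1) (r + 1 + 1) = wind z (z s) (s + 1) (r + 1) +
        arg ((z (r + 2) - z s) / (z (r + 1) - z s)) := by
      unfold wind; rw [sum_Ico_succ_top (by omega)]
    have e3 : wind z (z (r + 1 + 1)) s (r + 1) =
        ∑ i ∈ Ico s r, arg ((z (i + 1) - z (r + 2)) / (z i - z (r + 2))) +
        arg ((z (r + 1) - z (r + 2)) / (z r - z (r + 2))) := by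
      unfold wind; rw [sum_Ico_succ_top (by omega)]
    have e4 : ∑ i ∈ Ico s r, arg ((z (i + 1) - z (r + 2)) / (z i - z (r + 2))) =
        wind z (z (r + 1)) s r + (arg ((z (r + 2) - z r) / (z (r + 1) - z r)) -
          arg ((z (r + 2) - z s) / (z (r + 1) - z s))) := by
      have e5 := Finset.sum_Ico_sub
        (fun i => arg ((z (r + 2) - z i) / (z (r + 1) - z i))) hr
      rw [← e5]
      unfold wind
      rw [← sum_add_distrib]
      refine sum_congr rfl fun i hi => ?_
      rw [mem_Ico] at hi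
      have k := square (a := z (r + 1) - z i) (b := z (r + 2) - z i) (c := z (r + 1) - z (i + 1))
        (d := z (r + 2) - z (i + 1)) (h2 i (r + 1) hi.1 (by omega) (by omega))
        (h2 i (r + 2) hi.1 (by omega) (by omega)) (h2 (i + 1) (r + 1) (by omega) (by omega)
        (by omega)) (h2 (i + 1) (r + 2) (by omega) (by omega) (by omega)) ?_ ?_ ?_ ?_
      · have k1 : (z (i + 1) - z (r + 2)) / (z i - z (r + 2)) =
            (z (r + 2) - z (i + 1)) / (z (r + 2) - z i) := by
          rw [← neg_sub (z (r + 2)) (z (i + 1)), ← neg_sub (z (r + 2)) (z i), neg_div_neg_eq]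
        have k2 : (z (i + 1) - z (r + 1)) / (z i - z (r + 1)) =
            (z (r + 1) - z (i + 1)) / (z (r + 1) - z i) := by
          rw [← neg_sub (z (r + 1)) (z (i + 1)), ← neg_sub (z (r + 1)) (z i), neg_div_neg_eq]
        rw [k1, k2]
        linarith
      · rw [sub_sub_sub_cancel_right]; exact (h1 (r + 1) (by omega) (by omega)).le
      · rw [sub_sub_sub_cancel_left, norm_sub_rev]; exact (h1 i hi.1 (by omega)).le
      · rw [sub_sub_sub_cancel_left, norm_sub_rev]; exact (h1 i hi.1 (by omega)).le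
      · rw [sub_sub_sub_cancel_right]; exact (h1 (r + 1) (by omega) (by omega)).le
    have e6 : arg ((z (r + 2) - z (r + 1)) / (z (r + 1) - z r)) =
        arg ((z (r + 2) - z r) / (z (r + 1) - z r)) +
          arg ((z (r + 1) - z (r + 2)) / (z r - z (r + 2))) := by
      have k1 : (z (r + 1) - z (r + 2)) / (z r - z (r + 2)) =
          (z (r + 2) - z (r + 1)) / (z (r + 2) - z r) := by
        rw [← neg_sub (z (r + 2)) (z (r + 1)), ← neg_sub (z (r + 2)) (z r), neg_div_neg_eq]
      have n1 := h2 r (r + 1) (by omega) (by omega) (by omega)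
      have n2 := h2 r (r + 2) (by omega) (by omega) (by omega)
      have n3 := h2 (r + 1) (r + 2) (by omega) (by omega) (by omega)
      rw [k1, ang_add]
      · intro h; rw [h] at n2; simp at n2; linarith
      · refine re_div_pos n1 n2 ?_
        rw [sub_sub_sub_cancel_right]; exact (h1 (r + 1) (by omega) (by omega)).le
      · refine re_div_pos n2 n3 ?_
        rw [sub_sub_sub_cancel_left, norm_sub_rev]; exact (h1 r (by omega) (by omega)).le
    rw [e1, ih, e2, e3, e4, e6]
    ring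

/-! ### the winding angle and the crossings -/

lemma arg_div_eq {z w : ℂ} (hz : z ≠ 0) (hw : w ≠ 0) :
    ∃ m : ℤ, arg w - arg z - arg (w / z) = 2 * Real.pi * m := by
  have h1 := arg_div_coe_angle hw hz
  rw [← Real.Angle.coe_sub] at h1
  obtain ⟨m, hm⟩ := Real.Angle.angle_eq_iff_two_pi_dvd_sub.1 h1.symm
  exact ⟨m, hm⟩

/-- an embedding of a sublattice of the square grid in the plane -/
structure Emb (A : ℤ × ℤ → ℤ × ℤ → Prop) (f : ℤ × ℤ → ℂ) : Prop where
  nb : ∀ p q, A p q → Nb p q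
  dist : ∀ p q, p ≠ q → 1 ≤ ‖f p - f q‖
  unit : ∀ p q, A p q → ‖f q - f p‖ = 1
  im_lt : ∀ p q, (f p).im < (f q).im ↔ p.2 < q.2
  re_lt : ∀ p q, p.2 = q.2 → ((f p).re < (f q).re ↔ p.1 < q.1)

lemma step_arg {A : ℤ × ℤ → ℤ × ℤ → Prop} {f : ℤ × ℤ → ℂ} (E : Emb A f) {p q P : ℤ × ℤ}
    (h : A p q) (hp : p ≠ P) (hq : q ≠ P) :
    arg ((f q - f P) / (f p - f P)) = arg (f q - f P) - arg (f p - f P) -
      2 * Real.pi * cr P.1 P.2 p q := by
  have n1 := E.dist p P hp
  have n2 := E.dist q P hq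
  have hz : f p - f P ≠ 0 := by intro h; rw [h] at n1; simp at n1; linarith
  have hw : f q - f P ≠ 0 := by intro h; rw [h] at n2; simp at n2; linarith
  obtain ⟨m, hm⟩ := arg_div_eq hz hw
  have g := abs_lt.1 (abs_arg_lt (re_div_pos n1 n2 (by
    rw [sub_sub_sub_cancel_right]; exact (E.unit p q h).le)))
  have hpi := Real.pi_pos
  have i1 := E.im_lt p P
  have i2 := E.im_lt q P
  have i3 := E.im_lt P p
  have i4 := E.im_lt P q
  have r1 := E.re_lt p P
  have r2 := E.re_lt q P
  have r3 := E.re_lt P p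
  have r4 := E.re_lt P q
  have hpos : ∀ u : ℤ × ℤ, P.2 ≤ u.2 → 0 ≤ (f u - f P).im := by
    intro u hu
    rw [sub_im, sub_nonneg]
    by_contra hcon
    push Not at hcon
    have := (E.im_lt u P).1 hcon
    omega
  have hneg : ∀ u : ℤ × ℤ, u.2 < P.2 → (f u - f P).im < 0 := by
    intro u hu
    rw [sub_im, sub_neg]
    exact (E.im_lt u P).2 hu
  have hzero : ∀ u : ℤ × ℤ, u.2 = P.2 → (f u - f P).im = 0 := by
    intro u hu
    refine le_antisymm ?_ (hpos u hu.ge)
    rw [sub_im, sub_nonpos]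
    by_contra hcon
    push Not at hcon
    have := (E.im_lt P u).1 hcon
    omega
  have hargpos : ∀ u : ℂ, 0 ≤ u.im → 0 ≤ arg u ∧ arg u ≤ Real.pi := fun u hu =>
    ⟨arg_nonneg_iff.2 hu, arg_le_pi u⟩
  have hargneg : ∀ u : ℂ, u.im < 0 → -Real.pi < arg u ∧ arg u < 0 := fun u hu =>
    ⟨neg_pi_lt_arg u, arg_neg_iff.2 hu⟩
  have key : ∀ k : ℤ, cr P.1 P.2 p q = k → (2 * (k : ℝ) - 2) * Real.pi <
      arg (f q - f P) - arg (f p - f P) - arg ((f q - f P) / (f p - f P)) →
      arg (f q - f P) - arg (f p - f P) - arg ((f q - f P) / (f p - f P)) <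
        (2 * (k : ℝ) + 2) * Real.pi →
      arg ((f q - f P) / (f p - f P)) = arg (f q - f P) - arg (f p - f P) -
      2 * Real.pi * cr P.1 P.2 p q := by
    intro k hk h1 h2
    rw [hm] at h1 h2
    have h3 : (k : ℝ) - 1 < m := by
      have := Real.pi_pos
      by_contra hcon
      push Not at hcon
      nlinarith
    have h4 : (m : ℝ) < k + 1 := by
      have := Real.pi_pos
      by_contra hcon
      push Not at hcon
      nlinarith
    have h5 : m = k := by
      have h6 : k - 1 < m := by exact_mod_cast h3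
      have h7 : m < k + 1 := by exact_mod_cast h4
      omega
    rw [hk, ← h5]
    linarith
  have hnb := E.nb p q h
  rcases lt_or_ge p.2 P.2 with hp2 | hp2 <;> rcases lt_or_ge q.2 P.2 with hq2 | hq2
  · -- both below
    have a1 := hargneg _ (hneg p hp2)
    have a2 := hargneg _ (hneg q hq2)
    refine key 0 ?_ ?_ ?_
    · unfold cr; split_ifs <;> omega
    · push_cast; linarith
    · push_cast; linarith
  · -- from below
    have a1 := hargneg _ (hneg p hp2)
    have hq3 : q.2 = P.2 ∧ p.2 + 1 = P.2 ∧ p.1 = q.1 := by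
      unfold Nb at hnb
      simp only [Prod.ext_iff] at hnb
      omega
    have him := hzero q hq3.1
    rcases lt_or_ge q.1 P.1 with hq1 | hq1
    · have hre : (f q - f P).re < 0 := by
        rw [sub_re, sub_neg]
        exact (E.re_lt q P hq3.1).2 hq1
      have a2 : arg (f q - f P) = Real.pi := arg_eq_pi_iff.2 ⟨hre, him⟩
      refine key 1 ?_ ?_ ?_
      · unfold cr; rw [if_pos (by omega), if_pos (by omega)]
      · push_cast; linarith
      · push_cast; linarith
    · have hne : q.1 ≠ P.1 := fun e => hq (Prod.ext e hq3.1)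
      have hre : 0 < (f q - f P).re := by
        rw [sub_re, sub_pos]
        exact (E.re_lt P q hq3.1.symm).2 (by omega)
      have a2 : arg (f q - f P) = 0 := arg_eq_zero_iff.2 ⟨hre.le, him⟩
      refine key 0 ?_ ?_ ?_
      · unfold cr; rw [if_neg (by omega)]
      · push_cast; linarith
      · push_cast; linarith
  · -- to below
    have a1 := hargneg _ (hneg q hq2)
    have hq3 : p.2 = P.2 ∧ q.2 + 1 = P.2 ∧ p.1 = q.1 := by
      unfold Nb at hnb
      simp only [Prod.ext_iff] at hnb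
      omega
    have him := hzero p hq3.1
    rcases lt_or_ge p.1 P.1 with hq1 | hq1
    · have hre : (f p - f P).re < 0 := by
        rw [sub_re, sub_neg]
        exact (E.re_lt p P hq3.1).2 hq1
      have a2 : arg (f p - f P) = Real.pi := arg_eq_pi_iff.2 ⟨hre, him⟩
      refine key (-1) ?_ ?_ ?_
      · unfold cr; rw [if_pos (by omega), if_neg (by omega), if_pos (by omega)]
      · push_cast; linarith
      · push_cast; linarith
    · have hne : p.1 ≠ P.1 := fun e => hp (Prod.ext e hq3.1)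
      have hre : 0 < (f p - f P).re := by
        rw [sub_re, sub_pos]
        exact (E.re_lt P p hq3.1.symm).2 (by omega)
      have a2 : arg (f p - f P) = 0 := arg_eq_zero_iff.2 ⟨hre.le, him⟩
      refine key 0 ?_ ?_ ?_
      · unfold cr; rw [if_neg (by omega)]
      · push_cast; linarith
      · push_cast; linarith
  · -- both above
    have a1 := hargpos _ (hpos p hp2)
    have a2 := hargpos _ (hpos q hq2)
    refine key 0 ?_ ?_ ?_
    · unfold cr; split_ifs <;> omega
    · push_cast; linarith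
    · push_cast; linarith

/-- The winding angle is given by the crossings. -/
theorem wind_eq {A : ℤ × ℤ → ℤ × ℤ → Prop} {f : ℤ × ℤ → ℂ} (E : Emb A f) {γ : ℕ → ℤ × ℤ}
    {P : ℤ × ℤ} {s t : ℕ} (h0 : s ≤ t) (hst : ∀ i, s ≤ i → i < t → A (γ i) (γ (i + 1)))
    (hP : ∀ i, s ≤ i → i ≤ t → γ i ≠ P) :
    wind (fun i => f (γ i)) (f P) s t = arg (f (γ t) - f P) - arg (f (γ s) - f P) -
      2 * Real.pi * (∑ i ∈ Ico s t, cr P.1 P.2 (γ i) (γ (i + 1)) : ℤ) := by
  have e := Finset.sum_Ico_sub (fun i => arg (f (γ i) - f P)) h0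
  rw [← e]
  unfold wind
  push_cast
  rw [mul_sum, ← sum_sub_distrib]
  refine sum_congr rfl fun i hi => ?_
  rw [mem_Ico] at hi
  exact step_arg E (hst i hi.1 hi.2) (hP i hi.1 hi.2.le) (hP (i + 1) (by omega) (by omega))

/-- **The winding angle of a concatenation of bridges.** -/
theorem wind_le {A : ℤ × ℤ → ℤ × ℤ → Prop} {f : ℤ × ℤ → ℂ} (E : Emb A f) {γ : ℕ → ℤ × ℤ}
    {P : ℤ × ℤ} {m s t : ℕ} (h0 : s ≤ t) (hst : ∀ i, s ≤ i → i < t → A (γ i) (γ (i + 1)))
    (hinj : ∀ i j, s ≤ i → i ≤ t → s ≤ j → j ≤ t → γ i = γ j → i = j)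
    (hP : ∀ i, s ≤ i → i ≤ t → γ i ≠ P) (hc : Cut γ m s t) :
    |wind (fun i => f (γ i)) (f P) s t| ≤ 2 * Real.pi * (m + 1) := by
  rw [wind_eq E h0 hst hP]
  have h1 := cut_abs (fun i hi hit => E.nb _ _ (hst i hi hit)) hinj hc P.1 P.2
  have h2 : |((∑ i ∈ Ico s t, cr P.1 P.2 (γ i) (γ (i + 1)) : ℤ) : ℝ)| ≤ m := by
    exact_mod_cast h1
  have h3 := abs_arg_le_pi (f (γ t) - f P)
  have h4 := abs_arg_le_pi (f (γ s) - f P)
  rw [abs_le] at *
  have hpi := Real.pi_pos
  constructor <;> nlinarith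

/-- **The total turning of a path all whose pieces are concatenations of `m` bridges.** -/
theorem turn_le {A : ℤ × ℤ → ℤ × ℤ → Prop} {f : ℤ × ℤ → ℂ} (E : Emb A f) {γ : ℕ → ℤ × ℤ}
    {m s r : ℕ} (h0 : s ≤ r) (hst : ∀ i, s ≤ i → i ≤ r → A (γ i) (γ (i + 1)))
    (hinj : ∀ i j, s ≤ i → i ≤ r + 1 → s ≤ j → j ≤ r + 1 → γ i = γ j → i = j)
    (hc1 : Cut γ m (s + 1) (r + 1)) (hc2 : Cut γ m s r) :
    |turn (fun i => f (γ i)) s r| ≤ 4 * Real.pi * (m + 1) := by
  rw [hopf h0 (fun i hi hir => E.unit _ _ (hst i hi hir)) (fun i j hi hij hj => E.dist _ _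
    fun e => by have := hinj j i (by omega) hj hi (by omega) e; omega)]
  have h1 := wind_le E (P := γ s) (m := m) (s := s + 1) (t := r + 1) (by omega)
    (fun i hi hit => hst i (by omega) (by omega))
    (fun i j hi hit hj hjt e => hinj i j (by omega) hit (by omega) hjt e)
    (fun i hi hit e => by have := hinj i s (by omega) hit le_rfl (by omega) e; omega) hc1
  have h2 := wind_le E (P := γ (r + 1)) (m := m) (s := s) (t := r) h0
    (fun i hi hit => hst i (by omega) (by omega))
    (fun i j hi hit hj hjt e => hinj i j hi (by omega) hj (by omega) e)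
    (fun i hi hit e => by have := hinj i (r + 1) hi (by omega) (by omega) le_rfl e; omega) hc2
  have h3 := abs_add_le (wind (fun i => f (γ i)) (f (γ s)) (s + 1) (r + 1))
    (wind (fun i => f (γ i)) (f (γ (r + 1))) s r)
  linarith

end Run7.h822.WN
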